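import Mathlib

set_option autoImplicit false
set_option linter.unusedSectionVars false
set_option linter.unusedSimpArgs false

/-!
# Words in `H * F(T)` acting on the vertices of its Bass-Serre tree

`V` is the set of reduced words `h_1 t^{x_1} ... h_n t^{x_n}` (cosets of `H`).
-/

namespace Run7.h847

open Monoid

variable {H T : Type} [Group H]

/-- a signed stable letter -/
abbrev Sg (T : Type) := T × Bool

/-- the inverse signed letter -/
def fl (x : Sg T) : Sg T := (x.1, !x.2)

@[simp] theorem fl_fl (x : Sg T) : fl (fl x) = x := by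
  cases x; simp [fl]

theorem fl_ne (x : Sg T) : fl x ≠ x := by
  rcases x with ⟨a, b⟩
  cases b <;> simp [fl]

/-- the group -/
abbrev FF (H T : Type) [Group H] := Coprod H (FreeGroup T)

/-- letters of `H` in the group -/
abbrev hh (h : H) : FF H T := Coprod.inl h

/-- the signed stable letter as an element -/
def tt (x : Sg T) : FF H T :=
  if x.2 then Coprod.inr (FreeGroup.of x.1) else (Coprod.inr (FreeGroup.of x.1))⁻¹

@[simp] theorem tt_fl (x : Sg T) : (tt (fl x) : FF H T) = (tt x)⁻¹ := by
  rcases x with ⟨a, b⟩
  cases b <;> simp [tt, fl]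

theorem tt_true (a : T) : (tt (a, true) : FF H T) = Coprod.inr (FreeGroup.of a) := by
  simp [tt]

/-- the letters generate -/
theorem gen_top (S : Subgroup (FF H T)) (h1 : ∀ h : H, hh h ∈ S)
    (h2 : ∀ x : Sg T, tt x ∈ S) : ∀ g, g ∈ S := by
  intro g
  induction g using Coprod.induction_on with
  | inl h => exact h1 h
  | inr f =>
    refine FreeGroup.induction_on f ?_ ?_ ?_ ?_
    · simpa using S.one_mem
    · intro a
      simpa [tt_true] using h2 (a, true)
    · intro a ih
      have := S.inv_mem ih
      simpa using this
    · intro a b iha ihb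
      have := S.mul_mem iha ihb
      simpa using this
  | mul a b iha ihb => exact S.mul_mem iha ihb

/-- entries of words -/
abbrev Ent (H T : Type) := H × Sg T

/-- the reducedness condition on consecutive entries -/
def RedRel (a b : Ent H T) : Prop := ¬ (b.1 = 1 ∧ b.2 = fl a.2)

/-- reduced words -/
def Red (l : List (Ent H T)) : Prop := List.IsChain RedRel l

/-- left multiplication by a letter of `H` -/
def hact (h : H) : List (Ent H T) → List (Ent H T)
  | [] => []
  | (a :: l) => (h * a.1, a.2) :: l

open Classical in
/-- left multiplication by a stable letter -/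
noncomputable def tact (x : Sg T) : List (Ent H T) → List (Ent H T)
  | [] => [(1, x)]
  | (a :: l) => if a.1 = 1 ∧ a.2 = fl x then l else (1, x) :: a :: l

theorem red_hact (h : H) (l : List (Ent H T)) (hl : Red l) : Red (hact h l) := by
  cases l with
  | nil => exact hl
  | cons a l =>
    cases l with
    | nil => simp [Red, hact]
    | cons b l =>
      simp only [Red, hact, List.isChain_cons_cons] at hl ⊢
      exact hl

theorem red_tail (a : Ent H T) (l : List (Ent H T)) (hl : Red (a :: l)) : Red l := by
  cases l with
  | nil => simp [Red]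
  | cons b l =>
    simp only [Red, List.isChain_cons_cons] at hl ⊢
    exact hl.2

theorem red_tact (x : Sg T) (l : List (Ent H T)) (hl : Red l) : Red (tact x l) := by
  classical
  cases l with
  | nil => simp [Red, tact]
  | cons a l =>
    simp only [tact]
    split_ifs with hc
    · exact red_tail a l hl
    · simp only [Red, List.isChain_cons_cons] at hl ⊢
      exact ⟨hc, hl⟩

theorem tact_tact (x : Sg T) (l : List (Ent H T)) (hl : Red l) :
    tact (fl x) (tact x l) = l := by
  classical
  cases l with
  | nil => simp [tact]
  | cons a l =>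
    by_cases hc : a.1 = 1 ∧ a.2 = fl x
    · have e1 : tact x (a :: l) = l := by simp [tact, hc]
      rw [e1]
      cases l with
      | nil =>
        simp only [tact]
        rcases a with ⟨a1, a2⟩
        simp only at hc
        rw [hc.1, hc.2]
      | cons b l =>
        have h1 : RedRel a b := by
          simp only [Red, List.isChain_cons_cons] at hl
          exact hl.1
        simp only [tact]
        rw [if_neg]
        · rcases a with ⟨a1, a2⟩
          simp only at hc
          rw [hc.1, hc.2]
        · intro h2
          apply h1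
          refine ⟨h2.1, ?_⟩
          rw [h2.2, hc.2]
    · have e1 : tact x (a :: l) = (1, x) :: a :: l := by simp [tact, hc]
      rw [e1]
      simp [tact]

/-- vertices -/
abbrev VV (H T : Type) [Group H] := {l : List (Ent H T) // Red l}

/-- action of the letters of `H` -/
def hperm : H →* Equiv.Perm (VV H T) where
  toFun h :=
    { toFun := fun v => ⟨hact h v.1, red_hact h v.1 v.2⟩
      invFun := fun v => ⟨hact h⁻¹ v.1, red_hact h⁻¹ v.1 v.2⟩
      left_inv := by
        rintro ⟨v, hv⟩
        cases v <;> simp [hact]
      right_inv := by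
        rintro ⟨v, hv⟩
        cases v <;> simp [hact] }
  map_one' := by
    ext v : 2
    rcases v with ⟨v, hv⟩
    cases v <;> simp [hact]
  map_mul' a b := by
    ext v : 2
    rcases v with ⟨v, hv⟩
    cases v <;> simp [hact, mul_assoc]

/-- action of the stable letters -/
noncomputable def tperm (a : T) : Equiv.Perm (VV H T) where
  toFun v := ⟨tact (a, true) v.1, red_tact _ v.1 v.2⟩
  invFun v := ⟨tact (a, false) v.1, red_tact _ v.1 v.2⟩
  left_inv := by
    rintro ⟨v, hv⟩
    simpa [fl] using tact_tact (a, true) v hv
  right_inv := by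
    rintro ⟨v, hv⟩
    simpa [fl] using tact_tact (a, false) v hv

/-- the action on vertices -/
noncomputable def act : FF H T →* Equiv.Perm (VV H T) :=
  Coprod.lift hperm (FreeGroup.lift tperm)

theorem act_hh (h : H) (v : VV H T) : ((act (hh h : FF H T)) v).1 = hact h v.1 := by
  simp [act, hh, hperm]

theorem act_tt (x : Sg T) (v : VV H T) : ((act (tt x : FF H T)) v).1 = tact x v.1 := by
  rcases x with ⟨a, b⟩
  cases b
  · simp only [tt, act]
    simp [tperm, Equiv.Perm.inv_def]
  · simp [tt, act, tperm]

/-- the product of a word -/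
def pr (l : List (Ent H T)) : FF H T := (l.map fun a => hh a.1 * tt a.2).prod

@[simp] theorem pr_nil : pr ([] : List (Ent H T)) = 1 := rfl

@[simp] theorem pr_cons (a : Ent H T) (l : List (Ent H T)) :
    pr (a :: l) = hh a.1 * tt a.2 * pr l := by simp [pr]

theorem pr_append (l l' : List (Ent H T)) : pr (l ++ l') = pr l * pr l' := by simp [pr]

/-- Lemma A -/
theorem mul_pr (g : FF H T) : ∀ v : VV H T, ∃ h : H, g * pr v.1 = pr ((act g) v).1 * hh h := by
  classical
  let S : Subgroup (FF H T) :=
    { carrier := {g | ∀ v : VV H T, ∃ h : H, g * pr v.1 = pr ((act g) v).1 * hh h}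
      one_mem' := by
        intro v
        exact ⟨1, by simp⟩
      mul_mem' := by
        intro a b ha hb v
        obtain ⟨h, hh1⟩ := hb v
        obtain ⟨h', hh2⟩ := ha ((act b) v)
        refine ⟨h' * h, ?_⟩
        rw [mul_assoc, hh1, ← mul_assoc, hh2]
        simp [mul_assoc]
      inv_mem' := by
        intro a ha v
        obtain ⟨h, hh1⟩ := ha ((act a⁻¹) v)
        refine ⟨h⁻¹, ?_⟩
        have e : (act a) ((act a⁻¹) v) = v := by simp
        rw [e] at hh1
        have e2 : pr v.1 = a * pr ((act a⁻¹) v).1 * (hh h)⁻¹ := by
          rw [hh1]; simp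
        rw [e2]
        simp [mul_assoc] }
  refine gen_top S ?_ ?_ g
  · intro h v
    rcases v with ⟨v, hv⟩
    rw [act_hh]
    cases v with
    | nil => exact ⟨h, by simp [hact]⟩
    | cons a l => exact ⟨1, by simp [hact, mul_assoc]⟩
  · intro x v
    refine ⟨1, ?_⟩
    rcases v with ⟨v, hv⟩
    rw [act_tt]
    cases v with
    | nil => simp [tact]
    | cons a l =>
      by_cases hc : a.1 = 1 ∧ a.2 = fl x
      · simp [tact, hc, mul_assoc]
      · simp [tact, hc, mul_assoc]

/-- the base vertex -/
def v0 : VV H T := ⟨[], by simp [Red]⟩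

/-- Lemma B -/
theorem act_pr (l : List (Ent H T)) (hl : Red l) : (act (pr l) v0).1 = l := by
  classical
  induction l with
  | nil => simp [v0]
  | cons a l ih =>
    have h1 := ih (red_tail a l hl)
    rw [pr_cons, map_mul, map_mul, Equiv.Perm.mul_apply, Equiv.Perm.mul_apply, act_hh, act_tt, h1]
    cases l with
    | nil => simp [tact, hact]
    | cons b l =>
      have h2 : ¬ (b.1 = 1 ∧ b.2 = fl a.2) := by
        simp only [Red, List.isChain_cons_cons] at hl
        exact hl.1
      simp [tact, h2, hact]

/-- the list of a group element -/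
noncomputable def lst (g : FF H T) : List (Ent H T) := (act g v0).1

/-- length -/
noncomputable def len (g : FF H T) : ℕ := (lst g).length

theorem red_lst (g : FF H T) : Red (lst g) := (act g v0).2

theorem lst_spec (g : FF H T) : ∃ h : H, g = pr (lst g) * hh h := by
  obtain ⟨h, e⟩ := mul_pr g v0
  exact ⟨h, by simpa [lst, v0] using e⟩

theorem lst_mul_hh (g : FF H T) (h : H) : lst (g * hh h) = lst g := by
  have : act (hh h : FF H T) v0 = v0 := by
    apply Subtype.ext
    rw [act_hh]
    simp [v0, hact]
  simp only [lst, map_mul, Equiv.Perm.mul_apply, this]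

theorem len_mul_hh (g : FF H T) (h : H) : len (g * hh h) = len g := by
  simp only [len, lst_mul_hh]

theorem lst_pr (l : List (Ent H T)) (hl : Red l) (h : H) : lst (pr l * hh h) = l := by
  rw [lst_mul_hh]; exact act_pr l hl

@[simp] theorem lst_one : lst (1 : FF H T) = [] := by simp [lst, v0]

@[simp] theorem lst_hh (h : H) : lst (hh h : FF H T) = [] := by
  have := lst_mul_hh (1 : FF H T) h
  simpa using this

@[simp] theorem len_one : len (1 : FF H T) = 0 := by simp [len]

@[simp] theorem len_hh (h : H) : len (hh h : FF H T) = 0 := by simp [len]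

theorem len_eq_zero (g : FF H T) : len g = 0 ↔ ∃ h : H, g = hh h := by
  constructor
  · intro h0
    obtain ⟨h, e⟩ := lst_spec g
    refine ⟨h, ?_⟩
    have : lst g = [] := List.length_eq_zero_iff.mp h0
    rw [this] at e
    simpa using e
  · rintro ⟨h, rfl⟩
    simp

theorem lst_hh_mul (h : H) (g : FF H T) : lst (hh h * g) = hact h (lst g) := by
  simp only [lst, map_mul, Equiv.Perm.mul_apply, act_hh]

theorem lst_tt_mul (x : Sg T) (g : FF H T) : lst (tt x * g) = tact x (lst g) := by
  simp only [lst, map_mul, Equiv.Perm.mul_apply, act_tt]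

theorem len_hh_mul (h : H) (g : FF H T) : len (hh h * g) = len g := by
  simp only [len, lst_hh_mul]
  cases lst g <;> simp [hact]

/-! ### common beginnings -/

open Classical in
/-- length of the longest common initial part -/
noncomputable def lcp : List (Ent H T) → List (Ent H T) → ℕ
  | [], _ => 0
  | (_ :: _), [] => 0
  | (a :: l), (b :: l') => if a = b then lcp l l' + 1 else 0

@[simp] theorem lcp_nil_left (l : List (Ent H T)) : lcp [] l = 0 := by
  cases l <;> simp [lcp]

@[simp] theorem lcp_nil_right (l : List (Ent H T)) : lcp l [] = 0 := by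
  cases l <;> simp [lcp]

theorem lcp_cons (a b : Ent H T) (l l' : List (Ent H T)) [Decidable (a = b)] :
    lcp (a :: l) (b :: l') = if a = b then lcp l l' + 1 else 0 := by
  simp only [lcp]
  congr

theorem lcp_cons_same (a : Ent H T) (l l' : List (Ent H T)) :
    lcp (a :: l) (a :: l') = lcp l l' + 1 := by
  simp [lcp]

theorem lcp_cons_ne (a b : Ent H T) (l l' : List (Ent H T)) (h : a ≠ b) :
    lcp (a :: l) (b :: l') = 0 := by
  simp [lcp, h]

theorem lcp_comm (l l' : List (Ent H T)) : lcp l l' = lcp l' l := by
  induction l generalizing l' with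
  | nil => simp
  | cons a l ih =>
    cases l' with
    | nil => simp
    | cons b l' =>
      by_cases h : a = b
      · subst h
        rw [lcp_cons_same, lcp_cons_same, ih]
      · rw [lcp_cons_ne _ _ _ _ h, lcp_cons_ne _ _ _ _ (Ne.symm h)]

theorem lcp_le_left (l l' : List (Ent H T)) : lcp l l' ≤ l.length := by
  induction l generalizing l' with
  | nil => simp
  | cons a l ih =>
    cases l' with
    | nil => simp
    | cons b l' =>
      by_cases h : a = b
      · subst h
        rw [lcp_cons_same]
        simpa using ih l'
      · rw [lcp_cons_ne _ _ _ _ h]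
        simp

theorem lcp_le_right (l l' : List (Ent H T)) : lcp l l' ≤ l'.length := by
  rw [lcp_comm]; exact lcp_le_left _ _

/-- `n ≤ lcp` iff the first `n` entries exist and agree -/
theorem le_lcp_iff (n : ℕ) (l l' : List (Ent H T)) :
    n ≤ lcp l l' ↔ (l.take n = l'.take n ∧ n ≤ l.length ∧ n ≤ l'.length) := by
  induction n generalizing l l' with
  | zero => simp
  | succ n ih =>
    cases l with
    | nil => simp
    | cons a l =>
      cases l' with
      | nil => simp
      | cons b l' =>
        by_cases h : a = b
        · subst h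
          rw [lcp_cons_same]
          simp [ih]
        · rw [lcp_cons_ne _ _ _ _ h]
          simp [h]

theorem lcp_min (p q o : List (Ent H T)) : min (lcp p o) (lcp q o) ≤ lcp p q := by
  rw [le_lcp_iff]
  have h1 : min (lcp p o) (lcp q o) ≤ lcp p o := min_le_left _ _
  have h2 : min (lcp p o) (lcp q o) ≤ lcp q o := min_le_right _ _
  rw [le_lcp_iff] at h1 h2
  exact ⟨h1.1.trans h2.1.symm, h1.2.1, h2.2.1⟩

/-- twice the common part subtracted: the distance -/
noncomputable def dst (l l' : List (Ent H T)) : ℤ := l.length + l'.length - 2 * lcp l l'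

theorem dst_hact (h : H) (l l' : List (Ent H T)) : dst (hact h l) (hact h l') = dst l l' := by
  cases l with
  | nil => cases l' <;> simp [dst, hact]
  | cons a l =>
    cases l' with
    | nil => simp [dst, hact]
    | cons b l' =>
      by_cases hab : a = b
      · subst hab
        simp [dst, hact, lcp_cons_same]
      · have : (h * a.1, a.2) ≠ (h * b.1, b.2) := by
          intro e
          apply hab
          simp only [Prod.mk.injEq, mul_right_inj] at e
          exact Prod.ext e.1 e.2
        simp only [dst, hact]
        rw [lcp_cons_ne _ _ _ _ hab, lcp_cons_ne _ _ _ _ this]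
        simp

theorem tact_cases (x : Sg T) (l : List (Ent H T)) (hl : Red l) :
    (∃ l', l = (1, fl x) :: l' ∧ tact x l = l' ∧ (∀ b l'', l' = b :: l'' → b ≠ (1, x))) ∨
    (tact x l = (1, x) :: l ∧ (∀ b l'', l = b :: l'' → b ≠ (1, fl x))) := by
  classical
  cases l with
  | nil => right; simp [tact]
  | cons a l =>
    by_cases hc : a.1 = 1 ∧ a.2 = fl x
    · left
      refine ⟨l, ?_, by simp [tact, hc], ?_⟩
      · have : a = (1, fl x) := Prod.ext hc.1 hc.2
        rw [this]
      · rintro b l'' rfl rfl
        simp only [Red, List.isChain_cons_cons, RedRel] at hl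
        apply hl.1
        simp [hc.2]
    · right
      refine ⟨by simp [tact, hc], ?_⟩
      rintro b l'' e rfl
      simp only [List.cons.injEq] at e
      apply hc
      rw [e.1]
      simp

theorem dst_tact (x : Sg T) (l l' : List (Ent H T)) (hl : Red l) (hl' : Red l') :
    dst (tact x l) (tact x l') = dst l l' := by
  rcases tact_cases x l hl with ⟨m, e1, e2, e3⟩ | ⟨e2, e3⟩
  · rcases tact_cases x l' hl' with ⟨m', f1, f2, f3⟩ | ⟨f2, f3⟩
    · rw [e2, f2, e1, f1]
      simp only [dst, lcp_cons_same, List.length_cons]
      push_cast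
      ring
    · rw [e2, f2, e1]
      have h1 : lcp m ((1, x) :: l') = 0 := by
        cases m with
        | nil => simp
        | cons b m => exact lcp_cons_ne _ _ _ _ (e3 b m rfl)
      have h2 : lcp ((1, fl x) :: m) l' = 0 := by
        cases l' with
        | nil => simp
        | cons b m' => exact lcp_cons_ne _ _ _ _ (f3 b m' rfl).symm
      simp only [dst, h1, h2, List.length_cons]
      push_cast
      ring
  · rcases tact_cases x l' hl' with ⟨m', f1, f2, f3⟩ | ⟨f2, f3⟩
    · rw [e2, f2, f1]
      have h1 : lcp ((1, x) :: l) m' = 0 := by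
        cases m' with
        | nil => simp
        | cons b m => exact lcp_cons_ne _ _ _ _ (f3 b m rfl).symm
      have h2 : lcp l ((1, fl x) :: m') = 0 := by
        cases l with
        | nil => simp
        | cons b m' => exact lcp_cons_ne _ _ _ _ (e3 b m' rfl)
      simp only [dst, h1, h2, List.length_cons]
      push_cast
      ring
    · rw [e2, f2]
      simp only [dst, lcp_cons_same, List.length_cons]
      push_cast
      ring

theorem dst_act (g : FF H T) : ∀ v w : VV H T, dst (act g v).1 (act g w).1 = dst v.1 w.1 := by
  let S : Subgroup (FF H T) :=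
    { carrier := {g | ∀ v w : VV H T, dst (act g v).1 (act g w).1 = dst v.1 w.1}
      one_mem' := by intro v w; simp
      mul_mem' := by
        intro a b ha hb v w
        rw [map_mul, Equiv.Perm.mul_apply, Equiv.Perm.mul_apply, ha, hb]
      inv_mem' := by
        intro a ha v w
        have := ha (act a⁻¹ v) (act a⁻¹ w)
        rw [← this]
        simp }
  refine gen_top S ?_ ?_ g
  · intro h v w
    rw [act_hh, act_hh]
    exact dst_hact _ _ _
  · intro x v w
    rw [act_tt, act_tt]
    exact dst_tact _ _ _ v.2 w.2

theorem len_inv_mul (a b : FF H T) :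
    (len (a⁻¹ * b) : ℤ) = len a + len b - 2 * lcp (lst a) (lst b) := by
  have h1 := dst_act a (act a⁻¹ (act b v0)) v0
  have h2 : act a (act a⁻¹ (act b v0)) = act b v0 := by simp
  rw [h2] at h1
  have h3 : act a⁻¹ (act b v0) = act (a⁻¹ * b) v0 := by simp
  rw [h3] at h1
  have h4 : dst (lst (a⁻¹ * b)) ([] : List (Ent H T)) = dst (lst b) (lst a) := h1.symm
  have : lcp (lst a) (lst b) = lcp (lst b) (lst a) := lcp_comm _ _
  rw [this]
  simp only [dst, lcp_nil_right, List.length_nil] at h4
  simp only [len]
  push_cast at h4
  linarith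

theorem len_inv (a : FF H T) : len a⁻¹ = len a := by
  have := len_inv_mul a 1
  simp at this
  exact this

theorem len_mul (a b : FF H T) :
    (len (a * b) : ℤ) = len a + len b - 2 * lcp (lst a⁻¹) (lst b) := by
  have := len_inv_mul a⁻¹ b
  rw [inv_inv, len_inv] at this
  exact this

theorem len_mul_le (a b : FF H T) : len (a * b) ≤ len a + len b := by
  have := len_mul a b
  omega

@[simp] theorem len_tt (x : Sg T) : len (tt x : FF H T) = 1 := by
  have : lst (tt x * 1 : FF H T) = tact x (lst 1) := lst_tt_mul x 1
  simp [tact] at this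
  simp [len, this]

/-- an initial part of a geodesic -/
theorem lst_take_of_len (a b : FF H T) (h : len (a * b) = len a + len b) :
    (lst (a * b)).take (len a) = lst a := by
  have h1 := len_inv_mul a (a * b)
  have h2 : a⁻¹ * (a * b) = b := by group
  rw [h2, h] at h1
  have h3 : len a ≤ lcp (lst a) (lst (a * b)) := by push_cast at h1; omega
  rw [le_lcp_iff] at h3
  rw [← h3.1]
  simp [len]

/-- multiplying by a stable letter -/
theorem len_tt_mul (x : Sg T) (b : FF H T) :
    len (tt x * b) = len b + 1 ∨ len (tt x * b) + 1 = len b := by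
  simp only [len, lst_tt_mul]
  rcases tact_cases x (lst b) (red_lst b) with ⟨m, e1, e2, e3⟩ | ⟨e2, e3⟩
  · right
    rw [e2, e1]; simp
  · left
    rw [e2]; simp

theorem len_mul_tt (b : FF H T) (x : Sg T) :
    len (b * tt x) = len b + 1 ∨ len (b * tt x) + 1 = len b := by
  have := len_tt_mul (fl x) b⁻¹
  have e : (tt (fl x) * b⁻¹ : FF H T) = (b * tt x)⁻¹ := by simp
  rw [e, len_inv, len_inv] at this
  exact this

/-- local-to-global -/
theorem len_lg (a b : FF H T) (x : Sg T) (h1 : len (a * tt x) = len a + 1)
    (h2 : len (tt x * b) = len b + 1) : len (a * (tt x * b)) = len a + (len b + 1) := by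
  have e := len_inv_mul (a * tt x)⁻¹ b
  have h3 : lst ((a * tt x)⁻¹) = (1, fl x) :: lst a⁻¹ := by
    have e1 : ((a * tt x)⁻¹ : FF H T) = tt (fl x) * a⁻¹ := by simp
    rw [e1, lst_tt_mul]
    rcases tact_cases (fl x) (lst a⁻¹) (red_lst _) with ⟨m, f1, f2, f3⟩ | ⟨f2, f3⟩
    · exfalso
      have : len ((a * tt x)⁻¹) = len a⁻¹ + 1 := by rw [len_inv, len_inv, h1]
      rw [e1] at this
      simp only [len, lst_tt_mul] at this
      rw [f2, f1] at this
      simp at this
      omega
    · exact f2
  have h4 : lcp (lst ((a * tt x)⁻¹)) (lst b) = 0 := by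
    rw [h3]
    rcases tact_cases x (lst b) (red_lst b) with ⟨m, f1, f2, f3⟩ | ⟨f2, f3⟩
    · exfalso
      simp only [len, lst_tt_mul] at h2
      rw [f2, f1] at h2
      simp at h2
      omega
    · cases hb : lst b with
      | nil => simp
      | cons c m => exact lcp_cons_ne _ _ _ _ (f3 c m hb).symm
  rw [h4] at e
  have e2 : ((a * tt x)⁻¹)⁻¹ * b = a * (tt x * b) := by group
  rw [e2, len_inv, h1] at e
  push_cast at e
  omega

/-- local condition for two consecutive stable letters -/
theorem len_two (x y : Sg T) (h : H) (hc : ¬ (h = 1 ∧ y = fl x)) :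
    len (tt x * hh h * tt y : FF H T) = 2 := by
  have e : (tt x * hh h * tt y : FF H T) = tt x * (hh h * (tt y * 1)) := by
    simp [mul_assoc]
  have h0 : lst (tt x * hh h * tt y : FF H T) = [(1, x), (h, y)] := by
    rw [e, lst_tt_mul, lst_hh_mul, lst_tt_mul]
    simp [tact, hact, hc]
  simp [len, h0]

/-- equality from vertices -/
theorem eq_of_edges (g g' : FF H T) (x x' : Sg T) (h0 : lst g = lst g')
    (h1 : lst (g * tt x) = lst (g' * tt x')) (h2 : len (g * tt x) = len g + 1) :
    g = g' ∧ x = x' := by
  obtain ⟨h, e⟩ := lst_spec g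
  obtain ⟨h', e'⟩ := lst_spec g'
  have hx : ∀ (g : FF H T) (x : Sg T) (h : H), g = pr (lst g) * hh h →
      len (g * tt x) = len g + 1 → lst (g * tt x) = lst g ++ [(h, x)] := by
    intro g x h e h2
    have h3 : g * tt x = pr (lst g ++ [(h, x)]) * hh 1 := by
      rw [pr_append]
      simp only [pr_cons, pr_nil]
      rw [← mul_assoc, ← mul_assoc, ← e]
      simp
    have h4 : Red (lst g ++ [(h, x)]) := by
      rcases List.eq_nil_or_concat (lst g) with h5 | ⟨L, b, h5⟩
      · rw [h5]; simp [Red]
      · rw [h5]
        have h6 := red_lst g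
        rw [h5] at h6
        simp only [Red, List.concat_eq_append] at h6 ⊢
        rw [List.isChain_append]
        refine ⟨h6, by simp, ?_⟩
        intro a ha c hc hac
        simp at ha hc
        subst ha hc
        simp only at hac
        -- then the product is short
        have h7 : g * tt x = pr L * hh b.1 := by
          rw [e, h5]
          simp only [List.concat_eq_append, pr_append, pr_cons, pr_nil]
          rw [hac.1, hac.2]
          simp [mul_assoc]
        have h8 : len (g * tt x) ≤ L.length := by
          rw [h7, len_mul_hh]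
          have h9 : Red L := by
            have := h6
            rw [List.isChain_append] at this
            exact this.1
          have := act_pr L h9
          simp only [len, lst, this]
          exact le_rfl
        have h10 : len g = L.length + 1 := by
          simp [len, h5]
        omega
    rw [h3, lst_pr _ h4]
  have a1 := hx g x h e h2
  have h2' : len (g' * tt x') = len g' + 1 := by
    simp only [len] at h2 ⊢
    rw [← h1, ← h0, h2]
  have a2 := hx g' x' h' e' h2'
  rw [a1, a2, h0] at h1
  have h3 : h = h' ∧ x = x' := by simpa using h1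
  refine ⟨?_, h3.2⟩
  rw [e, e', h0, h3.1]

end Run7.h847
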