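import Mathlib
import Pool.Agent.Run7.h847.Words

set_option autoImplicit false
set_option linter.unusedSectionVars false
set_option linter.unusedSimpArgs false

/-!
# Clusters: cyclic words of ports and corners
-/

namespace Run7.h847

open Monoid

/-! ### products of conjugates -/

section NN

variable {G : Type} [Group G]

/-- `x` is a product of `k` conjugates of `R` and its inverse -/
def NN (R : G) (k : ℤ) (x : G) : Prop :=
  ∃ L : List G, (∀ y ∈ L, ∃ c : G, y = c * R * c⁻¹ ∨ y = c * R⁻¹ * c⁻¹) ∧ L.prod = x ∧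
    (L.length : ℤ) = k

theorem NN_one (R : G) : NN R 0 (1 : G) := ⟨[], by simp, by simp, by simp⟩

theorem NN_mul {R : G} {k k' : ℤ} {x y : G} (hx : NN R k x) (hy : NN R k' y) :
    NN R (k + k') (x * y) := by
  obtain ⟨L, h1, h2, h3⟩ := hx
  obtain ⟨L', h1', h2', h3'⟩ := hy
  refine ⟨L ++ L', ?_, ?_, ?_⟩
  · intro y hy
    rcases List.mem_append.mp hy with h | h
    · exact h1 y h
    · exact h1' y h
  · simp [h2, h2']
  · rw [← h3, ← h3']; simp

theorem NN_conj {R : G} {k : ℤ} {x : G} (hx : NN R k x) (c : G) : NN R k (c * x * c⁻¹) := by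
  obtain ⟨L, h1, h2, h3⟩ := hx
  refine ⟨L.map fun y => c * y * c⁻¹, ?_, ?_, by simpa using h3⟩
  · intro y hy
    rw [List.mem_map] at hy
    obtain ⟨y', hy', rfl⟩ := hy
    obtain ⟨d, hd⟩ := h1 y' hy'
    refine ⟨c * d, ?_⟩
    rcases hd with rfl | rfl
    · left; group
    · right; group
  · rw [← h2]
    clear h1 h2 h3
    induction L with
    | nil => simp
    | cons a L ih =>
      rw [List.map_cons, List.prod_cons, ih, List.prod_cons]
      group

theorem NN_pos {R : G} (c : G) : NN R 1 (c * R * c⁻¹) :=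
  ⟨[c * R * c⁻¹], by simpa using ⟨c, Or.inl rfl⟩, by simp, by simp⟩

theorem NN_neg {R : G} (c : G) : NN R 1 (c * R⁻¹ * c⁻¹) :=
  ⟨[c * R⁻¹ * c⁻¹], by simpa using ⟨c, Or.inr rfl⟩, by simp, by simp⟩

theorem NN_of_eq {R : G} {k k' : ℤ} {x y : G} (hx : NN R k x) (h1 : k = k') (h2 : x = y) :
    NN R k' y := by
  subst h1 h2; exact hx

/-- elements of the normal closure -/
theorem NN_of_mem {R x : G} (hx : x ∈ Subgroup.normalClosure ({R} : Set G)) :
    ∃ k : ℕ, NN R k x := by
  refine Subgroup.closure_induction (p := fun x _ => ∃ k : ℕ, NN R k x) ?_ ?_ ?_ ?_ hx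
  · intro y hy
    rw [Group.mem_conjugatesOfSet_iff] at hy
    obtain ⟨a, ha, hc⟩ := hy
    rw [Set.mem_singleton_iff] at ha
    subst ha
    rw [isConj_iff] at hc
    obtain ⟨c, rfl⟩ := hc
    exact ⟨1, by simpa using NN_pos c⟩
  · exact ⟨0, by simpa using NN_one R⟩
  · rintro a b _ _ ⟨k, hk⟩ ⟨k', hk'⟩
    exact ⟨k + k', by simpa using NN_mul hk hk'⟩
  · rintro a _ ⟨k, L, h1, h2, h3⟩
    refine ⟨k, (L.map fun y => y⁻¹).reverse, ?_, ?_, by simpa using h3⟩
    · intro y hy
      rw [List.mem_reverse, List.mem_map] at hy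
      obtain ⟨y', hy', rfl⟩ := hy
      obtain ⟨c, hc⟩ := h1 y' hy'
      refine ⟨c, ?_⟩
      rcases hc with rfl | rfl
      · right; group
      · left; group
    · rw [← h2, List.prod_inv_reverse]

end NN

/-! ### data -/

/-- position where a corner is entered -/
def en {n : ℕ} (c : ZMod n × Bool) : ZMod n := if c.2 then c.1 else c.1 + 1
/-- position where a corner is left -/
def ex {n : ℕ} (c : ZMod n × Bool) : ZMod n := if c.2 then c.1 + 1 else c.1

/-- the letter of a corner -/
def ltr {H : Type} [Group H] {n : ℕ} (h : ZMod n → H) (c : ZMod n × Bool) : H :=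
  if c.2 then h c.1 else (h c.1)⁻¹

/-- the data of the orientation test -/
structure Dat (H Ω : Type) [Group H] [LinearOrder Ω] where
  n : ℕ
  hn : 2 ≤ n
  e : ZMod n → Bool
  h : ZMod n → H
  z : ZMod n → Ω
  zinj : Function.Injective z
  m : ℕ
  hm : 1 ≤ m
  acyc : ∀ (c : ZMod n × Bool) (L : List (ZMod n × Bool)), ((c :: L).map (ltr h)).prod = 1 →
    ¬ List.IsChain (fun c c' => (c.2 == e (ex c)) = !(c'.2 == e (en c')) ∧
      z (ex c) < z (en c')) (c :: (L ++ [c]))

/-- ports and corners -/
inductive Sy (n : ℕ) where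
  | port (p : ZMod n) (s : Bool) : Sy n
  | corner (i : ZMod n) (s : Bool) : Sy n

open Sy

variable {H Ω : Type} [Group H] [LinearOrder Ω]

/-- stable letter with sign -/
def tB (b : Bool) : FF H Unit := tt ((), b)

theorem tB_not (b : Bool) : (tB (!b) : FF H Unit) = (tB b)⁻¹ := by
  have := tt_fl (H := H) ((), b)
  simpa [fl, tB] using this

instance (D : Dat H Ω) : NeZero D.n := ⟨by have := D.hn; omega⟩

instance (D : Dat H Ω) : Fact (1 < D.n) := ⟨by have := D.hn; omega⟩

namespace Dat

variable (D : Dat H Ω)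

/-- crossing direction of a port -/
def cr (p : ZMod D.n) (s : Bool) : Bool := s == D.e p

/-- value of a symbol -/
def val : Sy D.n → FF H Unit
  | .port p s => tB (D.cr p s)
  | .corner i s => hh (ltr D.h (i, s))

/-- value of a list -/
def pv (X : List (Sy D.n)) : FF H Unit := (X.map D.val).prod

@[simp] theorem pv_nil : D.pv [] = 1 := rfl
@[simp] theorem pv_cons (s : Sy D.n) (X : List (Sy D.n)) :
    D.pv (s :: X) = D.val s * D.pv X := by simp [pv]
@[simp] theorem pv_append (X Y : List (Sy D.n)) : D.pv (X ++ Y) = D.pv X * D.pv Y := by simp [pv]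

/-- block -/
def blk (p : ZMod D.n) : FF H Unit := tB (D.e p) * hh (D.h p)

/-- product of `k` blocks starting from position `p` -/
def Bz (p : ZMod D.n) (k : ℕ) : FF H Unit :=
  ((List.range k).map fun j => D.blk (p + (j : ℕ))).prod

theorem Bz_add (p : ZMod D.n) (a b : ℕ) : D.Bz p (a + b) = D.Bz p a * D.Bz (p + a) b := by
  induction b with
  | zero => simp [Bz]
  | succ b ih =>
    rw [← add_assoc]
    simp only [Bz, List.range_succ, List.map_append, List.prod_append] at ih ⊢
    rw [ih]
    simp [mul_assoc, add_assoc]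

/-- the relator -/
def R : FF H Unit := D.Bz 0 (D.m * D.n)

/-- the element attached to a port -/
def th : Sy D.n → FF H Unit
  | .port p true => D.Bz p (D.m * D.n)
  | .port p false => (tB (D.e p))⁻¹ * (D.Bz p (D.m * D.n))⁻¹ * tB (D.e p)
  | .corner _ _ => 1

/-- the conjugate -/
def KK (g : FF H Unit) (X : List (Sy D.n)) : FF H Unit := g * D.pv X * g⁻¹

theorem exists_max : ∃ M : ZMod D.n, ∀ i, D.z i ≤ D.z M := Finite.exists_max D.z
theorem exists_min : ∃ M : ZMod D.n, ∀ i, D.z M ≤ D.z i := Finite.exists_min D.z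

/-- position of the maximum -/
noncomputable def M : ZMod D.n := D.exists_max.choose
/-- position of the minimum -/
noncomputable def mu : ZMod D.n := D.exists_min.choose

theorem M_spec (i : ZMod D.n) : D.z i ≤ D.z D.M := D.exists_max.choose_spec i
theorem mu_spec (i : ZMod D.n) : D.z D.mu ≤ D.z i := D.exists_min.choose_spec i

/-- orientation function -/
noncomputable def tau (i : ZMod D.n) : ℤ :=
  if (i - D.mu).val < (D.M - D.mu).val then 1 else -1

theorem tau_M : D.tau D.M - D.tau (D.M - 1) = -2 := by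
  have h1 : D.M ≠ D.mu := by
    intro h
    have h2 : ∀ i, D.z i = D.z D.mu := fun i => le_antisymm (by rw [← h]; exact D.M_spec i)
      (D.mu_spec i)
    have h3 : (0 : ZMod D.n) = 1 := D.zinj ((h2 0).trans (h2 1).symm)
    exact zero_ne_one h3
  have h4 : (D.M - D.mu).val ≠ 0 := by
    rw [Ne, ZMod.val_eq_zero, sub_eq_zero]; exact h1
  have h5 : (D.M - 1 - D.mu).val = (D.M - D.mu).val - 1 := by
    have : D.M - 1 - D.mu = (D.M - D.mu) - 1 := by ring
    rw [this, ZMod.val_sub]
    · rw [ZMod.val_one]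
    · rw [ZMod.val_one]; omega
  simp only [tau]
  rw [if_neg (lt_irrefl _), if_pos (by rw [h5]; omega)]
  norm_num

theorem tau_other (q : ZMod D.n) (h1 : q ≠ D.M) (h2 : q ≠ D.mu) :
    D.tau q - D.tau (q - 1) = 0 := by
  have h4 : (q - D.mu).val ≠ 0 := by
    rw [Ne, ZMod.val_eq_zero, sub_eq_zero]; exact h2
  have h5 : (q - 1 - D.mu).val = (q - D.mu).val - 1 := by
    have : q - 1 - D.mu = (q - D.mu) - 1 := by ring
    rw [this, ZMod.val_sub]
    · rw [ZMod.val_one]
    · rw [ZMod.val_one]; omega
  have h6 : (q - D.mu).val ≠ (D.M - D.mu).val := by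
    intro h
    apply h1
    have := ZMod.val_injective _ h
    exact sub_left_injective this
  simp only [tau]
  rw [h5]
  split_ifs <;> omega

/-- sign of a corner -/
noncomputable def kap (c : ZMod D.n × Bool) : ℤ := if c.2 then D.tau c.1 else - D.tau c.1

theorem kap_cases (c : ZMod D.n × Bool) : D.kap c = 1 ∨ D.kap c = -1 := by
  simp only [kap, tau]
  split_ifs <;> simp

open Classical in
/-- whether a glued pair goes up -/
noncomputable def up (c c' : ZMod D.n × Bool) : Bool := decide (D.z (ex c) < D.z (en c'))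

/-- the angle of a glued pair of corners -/
noncomputable def ang (c c' : ZMod D.n × Bool) : ℤ := if D.up c c' then D.kap c' else - D.kap c

/-- the angle of a pair of symbols -/
noncomputable def av : Sy D.n → Sy D.n → ℤ
  | .corner i s, .corner j s' => D.ang (i, s) (j, s')
  | _, _ => 0

/-- adjacency -/
def ok : Sy D.n → Sy D.n → Prop
  | .corner i s, .port p s' => p = ex (i, s) ∧ s' = s
  | .port p s', .corner i s => p = en (i, s) ∧ s' = s
  | .corner i s, .corner j s' => ex (i, s) ≠ en (j, s') ∧
      (s == D.e (ex (i, s))) = !(s' == D.e (en (j, s')))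
  | .port _ _, .port _ _ => False

/-- join term -/
noncomputable def jn : Option (Sy D.n) → Option (Sy D.n) → ℤ
  | some a, some b => D.av a b
  | _, _ => 0

/-- path sum -/
noncomputable def ps : List (Sy D.n) → ℤ
  | [] => 0
  | [_] => 0
  | a :: b :: l => D.av a b + ps (b :: l)

@[simp] theorem jn_none_left (o : Option (Sy D.n)) : D.jn none o = 0 := by
  cases o <;> rfl
@[simp] theorem jn_none_right (o : Option (Sy D.n)) : D.jn o none = 0 := by
  cases o <;> rfl
@[simp] theorem jn_some (a b : Sy D.n) : D.jn (some a) (some b) = D.av a b := rfl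

theorem ps_cons (a : Sy D.n) (l : List (Sy D.n)) :
    D.ps (a :: l) = D.jn (some a) l.head? + D.ps l := by
  cases l <;> simp [ps]

theorem ps_append (U V : List (Sy D.n)) :
    D.ps (U ++ V) = D.ps U + D.jn U.getLast? V.head? + D.ps V := by
  induction U with
  | nil => simp [ps]
  | cons a U ih =>
    rw [List.cons_append, ps_cons, ih, ps_cons]
    cases U with
    | nil => simp [ps]
    | cons b U =>
      simp only [List.cons_append, List.head?_cons, List.getLast?_cons_cons]
      ring

/-- cyclic path sum -/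
noncomputable def cs (X : List (Sy D.n)) : ℤ := D.ps X + D.jn X.getLast? X.head?

/-- cyclic chain condition -/
def Chn (X : List (Sy D.n)) : Prop :=
  List.IsChain D.ok X ∧ ∀ a ∈ X.getLast?, ∀ b ∈ X.head?, D.ok a b

theorem cs_comm (U V : List (Sy D.n)) : D.cs (U ++ V) = D.cs (V ++ U) := by
  rcases List.eq_nil_or_concat U with rfl | ⟨U', u, rfl⟩
  · simp
  rcases List.eq_nil_or_concat V with rfl | ⟨V', v, rfl⟩
  · simp
  have e1 : ∀ (A B : List (Sy D.n)) (a : Sy D.n), (A ++ [a] ++ B).head? = (A ++ [a]).head? := by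
    intro A B a
    cases A <;> simp
  have e2 : ∀ (A B : List (Sy D.n)) (a : Sy D.n),
      (B ++ (A ++ [a])).getLast? = (A ++ [a]).getLast? := by
    intro A B a
    simp [List.getLast?_append]
  simp only [cs, List.concat_eq_append]
  rw [ps_append, ps_append D (V' ++ [v]) (U' ++ [u]), e1, e1, e2, e2]
  ring

theorem Chn_comm (U V : List (Sy D.n)) (h : D.Chn (U ++ V)) : D.Chn (V ++ U) := by
  rcases List.eq_nil_or_concat U with rfl | ⟨U', u, rfl⟩
  · simpa using h
  rcases List.eq_nil_or_concat V with rfl | ⟨V', v, rfl⟩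
  · simpa using h
  have e1 : ∀ (A B : List (Sy D.n)) (a : Sy D.n), (A ++ [a] ++ B).head? = (A ++ [a]).head? := by
    intro A B a
    cases A <;> simp
  have e2 : ∀ (A B : List (Sy D.n)) (a : Sy D.n),
      (B ++ (A ++ [a])).getLast? = (A ++ [a]).getLast? := by
    intro A B a
    simp [List.getLast?_append]
  simp only [Chn, List.concat_eq_append] at h ⊢
  rw [List.isChain_append, e1, e2] at h ⊢
  exact ⟨⟨h.1.2.1, h.1.1, h.2⟩, h.1.2.2⟩

/-- indicator of corners -/
def cc : Sy D.n → ℤ
  | .corner _ _ => 1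
  | .port _ _ => 0

/-- indicator of ports -/
def pc : Sy D.n → ℕ
  | .corner _ _ => 0
  | .port _ _ => 1

open Classical in
/-- indicator of ports at the maximum -/
noncomputable def bc : Sy D.n → ℤ
  | .corner _ _ => 0
  | .port p _ => if p = D.M then 1 else 0

/-- number of corners -/
def nc (X : List (Sy D.n)) : ℤ := (X.map D.cc).sum
/-- number of ports -/
def np (X : List (Sy D.n)) : ℕ := (X.map D.pc).sum
/-- number of ports at the maximum -/
noncomputable def nb (X : List (Sy D.n)) : ℤ := (X.map D.bc).sum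

@[simp] theorem nc_append (U V : List (Sy D.n)) : D.nc (U ++ V) = D.nc U + D.nc V := by simp [nc]
@[simp] theorem np_append (U V : List (Sy D.n)) : D.np (U ++ V) = D.np U + D.np V := by simp [np]
@[simp] theorem nb_append (U V : List (Sy D.n)) : D.nb (U ++ V) = D.nb U + D.nb V := by simp [nb]
@[simp] theorem nc_cons (a : Sy D.n) (V : List (Sy D.n)) : D.nc (a :: V) = D.cc a + D.nc V := by
  simp [nc]
@[simp] theorem np_cons (a : Sy D.n) (V : List (Sy D.n)) : D.np (a :: V) = D.pc a + D.np V := by
  simp [np]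
@[simp] theorem nb_cons (a : Sy D.n) (V : List (Sy D.n)) : D.nb (a :: V) = D.bc a + D.nb V := by
  simp [nb]
@[simp] theorem nc_nil : D.nc [] = 0 := rfl
@[simp] theorem np_nil : D.np [] = 0 := rfl
@[simp] theorem nb_nil : D.nb [] = 0 := rfl

/-- the invariant -/
def Inv (X : List (Sy D.n)) : Prop := D.nc X + D.cs X + 2 ≤ D.np X + 2 * D.nb X

/-- conjugate -/
def cj {G : Type} [Group G] (a b : G) : G := a * b * a⁻¹

/-- clusters -/
structure Cl (l : ℤ) (g : FF H Unit) (X : List (Sy D.n)) : Prop where
  chn : D.Chn X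
  inv : D.Inv X
  mem : NN D.R l (D.KK g X)
  ext1 : ∀ (i : ℕ) (p : ZMod D.n) (s : Bool), X[i]? = some (.port p s) →
    NN D.R (l - 1) ((cj (g * D.pv (X.take i)) (D.th (.port p s)))⁻¹ * D.KK g X)
  ext2 : ∀ (i j : ℕ) (p q : ZMod D.n) (s : Bool), i < j → X[i]? = some (.port p s) →
    X[j]? = some (.port q (!s)) →
    NN D.R (l - 2) ((cj (g * D.pv (X.take i)) (D.th (.port p s)))⁻¹ *
      (cj (g * D.pv (X.take j)) (D.th (.port q (!s))))⁻¹ * D.KK g X)

theorem get_append_cases {α : Type} (A B : List α) (i : ℕ) (s : α) (h : (A ++ B)[i]? = some s) :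
    (i < A.length ∧ A[i]? = some s ∧ (A ++ B).take i = A.take i) ∨
    (∃ k, i = A.length + k ∧ B[k]? = some s ∧ (A ++ B).take i = A ++ B.take k) := by
  by_cases hi : i < A.length
  · left
    refine ⟨hi, ?_, ?_⟩
    · rwa [List.getElem?_append_left hi] at h
    · rw [List.take_append_of_le_length hi.le]
  · right
    obtain ⟨k, rfl⟩ := Nat.exists_eq_add_of_le (not_lt.mp hi)
    refine ⟨k, rfl, ?_, ?_⟩
    · rw [List.getElem?_append_right (by omega)] at h
      simpa using h
    · rw [List.take_append]
      simp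

theorem get_append_left {α : Type} (A B : List α) (i : ℕ) (s : α) (h : A[i]? = some s) :
    (A ++ B)[i]? = some s ∧ (A ++ B).take i = A.take i := by
  have hi : i < A.length := by
    by_contra h1
    rw [List.getElem?_eq_none (by omega)] at h
    exact absurd h (by simp)
  exact ⟨by rwa [List.getElem?_append_left hi], by rw [List.take_append_of_le_length hi.le]⟩

theorem get_append_right {α : Type} (A B : List α) (k : ℕ) (s : α) (h : B[k]? = some s) :
    (A ++ B)[A.length + k]? = some s ∧ (A ++ B).take (A.length + k) = A ++ B.take k := by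
  refine ⟨?_, ?_⟩
  · rw [List.getElem?_append_right (by omega)]
    simpa using h
  · rw [List.take_append]
    simp

variable {D}

theorem Cl.conj {l : ℤ} {g : FF H Unit} {X : List (Sy D.n)} (c : D.Cl l g X) (a : FF H Unit) :
    D.Cl l (a * g) X where
  chn := c.chn
  inv := c.inv
  mem := NN_of_eq (NN_conj c.mem a) rfl (by simp only [KK]; group)
  ext1 := by
    intro i p s h
    refine NN_of_eq (NN_conj (c.ext1 i p s h) a) rfl ?_
    simp only [KK, cj]; group
  ext2 := by
    intro i j p q s hij h h'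
    refine NN_of_eq (NN_conj (c.ext2 i j p q s hij h h') a) rfl ?_
    simp only [KK, cj]; group

theorem Inv_comm (U V : List (Sy D.n)) (h : D.Inv (U ++ V)) : D.Inv (V ++ U) := by
  simp only [Inv, nc_append, np_append, nb_append, Nat.cast_add] at h ⊢
  rw [cs_comm]
  linarith

theorem Cl.rot {l : ℤ} {g : FF H Unit} {U V : List (Sy D.n)} (c : D.Cl l g (U ++ V)) :
    D.Cl l (g * D.pv U) (V ++ U) where
  chn := D.Chn_comm _ _ c.chn
  inv := Inv_comm _ _ c.inv
  mem := NN_of_eq c.mem rfl (by simp only [KK, pv_append]; group)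
  ext1 := by
    intro i p s h
    rcases get_append_cases V U i _ h with ⟨hi, h1, h2⟩ | ⟨k, hk, h1, h2⟩
    · have h3 := get_append_right U V i _ h1
      refine NN_of_eq (c.ext1 _ p s h3.1) rfl ?_
      rw [h3.2, h2]
      simp only [KK, cj, pv_append]; group
    · have h3 := get_append_left U V k _ h1
      refine NN_of_eq (NN_conj (c.ext1 _ p s h3.1) (D.KK g (U ++ V))) rfl ?_
      rw [h3.2, h2]
      simp only [KK, cj, pv_append]; group
  ext2 := by
    intro i j p q s hij h h'
    rcases get_append_cases V U i _ h with ⟨hi, h1, h2⟩ | ⟨k, hk, h1, h2⟩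
    · rcases get_append_cases V U j _ h' with ⟨hi', h1', h2'⟩ | ⟨k', hk', h1', h2'⟩
      · have h3 := get_append_right U V i _ h1
        have h3' := get_append_right U V j _ h1'
        refine NN_of_eq (c.ext2 _ _ p q s (by omega) h3.1 h3'.1) rfl ?_
        rw [h3.2, h2, h3'.2, h2']
        simp only [KK, cj, pv_append]; group
      · have h3 := get_append_right U V i _ h1
        have h3' := get_append_left U V k' _ h1'
        have h4 : (U ++ V)[U.length + i]? = some (.port p (!!s)) := by
          rw [h3.1]; simp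
        have hk'' : k' < U.length := by
          by_contra hc
          rw [List.getElem?_eq_none (by omega)] at h1'
          exact absurd h1' (by simp)
        have h5 := c.ext2 k' (U.length + i) q p (!s) (by omega) h3'.1 h4
        rw [h3'.2, h3.2, Bool.not_not] at h5
        -- h5 : A B K, conj by A⁻¹
        refine NN_of_eq (NN_conj h5 (cj (g * D.pv (U.take k')) (D.th (port q !s)))) rfl ?_
        rw [h2, h2']
        simp only [KK, cj, pv_append]; group
    · rcases get_append_cases V U j _ h' with ⟨hi', h1', h2'⟩ | ⟨k', hk', h1', h2'⟩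
      · omega
      · have h3 := get_append_left U V k _ h1
        have h3' := get_append_left U V k' _ h1'
        refine NN_of_eq (NN_conj (c.ext2 _ _ p q s (by omega) h3.1 h3'.1)
          (D.KK g (U ++ V))) rfl ?_
        rw [h3.2, h2, h3'.2, h2']
        simp only [KK, cj, pv_append]; group

end Dat

end Run7.h847
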