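import Mathlib
import Pool.Agent.Run7.h847.Cluster

set_option autoImplicit false
set_option linter.unusedSectionVars false
set_option linter.unusedSimpArgs false

namespace Run7.h847

open Monoid

open Sy

variable {H Ω : Type} [Group H] [LinearOrder Ω]

namespace Dat

variable (D : Dat H Ω)

/-! ### closed lists of corners -/

/-- corner as a symbol -/
def cor (c : ZMod D.n × Bool) : Sy D.n := .corner c.1 c.2

/-- contribution of a corner with incoming state `u` and outgoing state `v` -/
noncomputable def contr (c : ZMod D.n × Bool) (u v : Bool) : ℤ :=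
  1 + (if u then D.kap c else 0) - (if v then 0 else D.kap c)

theorem contr_ge (c : ZMod D.n × Bool) (u v : Bool) :
    (if u = v then 0 else 1) ≤ D.contr c u v := by
  simp only [contr]
  rcases D.kap_cases c with h | h <;> rw [h] <;> cases u <;> cases v <;> simp

/-- total contribution -/
noncomputable def Fl : Bool → (ZMod D.n × Bool) → List (ZMod D.n × Bool) → Bool → ℤ
  | u, c, [], v => D.contr c u v
  | u, c, c' :: L, v => D.contr c u (D.up c c') + Fl (D.up c c') c' L v

theorem Fl_ge (L : List (ZMod D.n × Bool)) : ∀ (u : Bool) (c : ZMod D.n × Bool) (v : Bool),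
    (if u = v then 0 else 1) ≤ D.Fl u c L v := by
  induction L with
  | nil => intro u c v; exact D.contr_ge c u v
  | cons c' L ih =>
    intro u c v
    have h1 := D.contr_ge c u (D.up c c')
    have h2 := ih (D.up c c') c' v
    simp only [Fl]
    cases u <;> cases v <;> cases hu : D.up c c' <;> simp [hu] at h1 h2 ⊢ <;> linarith

theorem Fl_mixed (L : List (ZMod D.n × Bool)) : ∀ (u : Bool) (c : ZMod D.n × Bool),
    D.Fl u c L u < 2 → List.IsChain (fun a b => D.up a b = u) (c :: L) := by
  induction L with
  | nil => intro u c _; simp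
  | cons c' L ih =>
    intro u c h
    simp only [Fl] at h
    rw [List.isChain_cons_cons]
    by_cases hu : D.up c c' = u
    · rw [hu] at h
      refine ⟨hu, ih u c' ?_⟩
      have := D.contr_ge c u u
      simp only [if_true] at this
      linarith
    · exfalso
      have h1 := D.contr_ge c u (D.up c c')
      have h2 := D.Fl_ge L (D.up c c') c' u
      rw [if_neg (fun h => hu h.symm)] at h1
      rw [if_neg hu] at h2
      linarith

theorem Fl_link (L : List (ZMod D.n × Bool)) : ∀ (u : Bool) (c : ZMod D.n × Bool) (v : Bool),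
    D.nc ((c :: L).map D.cor) + D.ps ((c :: L).map D.cor) =
      D.Fl u c L v - (if u then D.kap c else 0) +
        (if v then 0 else D.kap ((c :: L).getLast (by simp))) := by
  induction L with
  | nil =>
    intro u c v
    simp only [List.map_cons, List.map_nil, Fl, contr, cor, nc, cc, ps, List.sum_cons,
      List.sum_nil, List.getLast_singleton]
    split_ifs <;> ring
  | cons c' L ih =>
    intro u c v
    have h1 := ih (D.up c c') c' v
    have h2 : ((c :: c' :: L).getLast (by simp)) = ((c' :: L).getLast (by simp)) := by simp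
    rw [h2]
    have h3 : D.nc ((c :: c' :: L).map D.cor) = 1 + D.nc ((c' :: L).map D.cor) := by
      simp [nc, cor, cc]
    have h4 : D.ps ((c :: c' :: L).map D.cor) = D.ang c c' + D.ps ((c' :: L).map D.cor) := by
      simp [ps, cor, av]
    rw [h3, h4]
    simp only [Fl, contr]
    simp only [ang]
    split_ifs at h1 ⊢ <;> linarith

theorem corners_sum (c : ZMod D.n × Bool) (L : List (ZMod D.n × Bool)) :
    D.nc ((c :: L).map D.cor) + D.cs ((c :: L).map D.cor) =
      D.Fl (D.up ((c :: L).getLast (by simp)) c) c L (D.up ((c :: L).getLast (by simp)) c) := by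
  have h1 := D.Fl_link L (D.up ((c :: L).getLast (by simp)) c) c
    (D.up ((c :: L).getLast (by simp)) c)
  have h2 : D.cs ((c :: L).map D.cor) = D.ps ((c :: L).map D.cor) +
      D.ang ((c :: L).getLast (by simp)) c := by
    simp only [cs]
    have e1 : ((c :: L).map D.cor).getLast? = some (D.cor ((c :: L).getLast (by simp))) := by
      rw [List.getLast?_map, List.getLast?_eq_getLast_of_ne_nil (by simp)]
      rfl
    have e2 : ((c :: L).map D.cor).head? = some (D.cor c) := by simp
    rw [e1, e2]
    simp [av, cor]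
  rw [h2, ← add_assoc, h1]
  simp only [ang]
  split_ifs <;> ring

theorem corners_nonneg (C : List (ZMod D.n × Bool)) :
    0 ≤ D.nc (C.map D.cor) + D.cs (C.map D.cor) := by
  cases C with
  | nil => simp [cs, ps]
  | cons c L =>
    rw [corners_sum]
    have := D.Fl_ge L (D.up ((c :: L).getLast (by simp)) c) c
      (D.up ((c :: L).getLast (by simp)) c)
    simpa using this

/-- the flipped corner -/
def fc {n : ℕ} (c : ZMod n × Bool) : ZMod n × Bool := (c.1, !c.2)

theorem en_fc {n : ℕ} (c : ZMod n × Bool) : en (fc c) = ex c := by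
  rcases c with ⟨i, s⟩
  cases s <;> simp [en, ex, fc]

theorem ex_fc {n : ℕ} (c : ZMod n × Bool) : ex (fc c) = en c := by
  rcases c with ⟨i, s⟩
  cases s <;> simp [en, ex, fc]

theorem ltr_fc (c : ZMod D.n × Bool) : ltr D.h (fc c) = (ltr D.h c)⁻¹ := by
  rcases c with ⟨i, s⟩
  cases s <;> simp [ltr, fc]

theorem prod_fc (L : List (ZMod D.n × Bool)) :
    ((L.reverse.map fc).map (ltr D.h)).prod = ((L.map (ltr D.h)).prod)⁻¹ := by
  induction L with
  | nil => simp
  | cons c L ih =>
    rw [List.reverse_cons, List.map_append, List.map_append, List.prod_append, ih]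
    simp [ltr_fc]

/-- no loop of corners going down -/
theorem acyc_down (c : ZMod D.n × Bool) (L : List (ZMod D.n × Bool))
    (h1 : ((c :: L).map (ltr D.h)).prod = 1) :
    ¬ List.IsChain (fun c c' => (c.2 == D.e (ex c)) = !(c'.2 == D.e (en c')) ∧
      D.z (en c') < D.z (ex c)) (c :: (L ++ [c])) := by
  intro h2
  have h3 := List.isChain_reverse.mpr h2
  have h4 : (c :: (L ++ [c])).reverse = c :: (L.reverse ++ [c]) := by simp
  rw [h4] at h3
  have h5 : ((fc c :: (L.reverse.map fc)).map (ltr D.h)).prod = 1 := by
    rw [List.map_cons, List.prod_cons, prod_fc, ltr_fc]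
    rw [List.map_cons, List.prod_cons] at h1
    rw [← mul_inv_rev, inv_eq_one, eq_inv_of_mul_eq_one_left h1]
    simp
  refine D.acyc (fc c) (L.reverse.map fc) h5 ?_
  have h6 : fc c :: (L.reverse.map fc ++ [fc c]) = (c :: (L.reverse ++ [c])).map fc := by simp
  rw [h6, List.isChain_map]
  refine List.IsChain.imp ?_ h3
  intro a b hab
  rw [ex_fc, en_fc]
  refine ⟨?_, hab.2⟩
  have := hab.1
  simp only [fc]
  generalize D.e (en a) = x at this ⊢
  generalize D.e (ex b) = y at this ⊢
  rcases a with ⟨_, a2⟩
  rcases b with ⟨_, b2⟩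
  simp only at this ⊢
  revert this
  cases a2 <;> cases b2 <;> cases x <;> cases y <;> decide

theorem corners_two (C : List (ZMod D.n × Bool)) (hne : C ≠ [])
    (h1 : (C.map (ltr D.h)).prod = 1) (h2 : D.Chn (C.map D.cor)) :
    2 ≤ D.nc (C.map D.cor) + D.cs (C.map D.cor) := by
  cases C with
  | nil => exact absurd rfl hne
  | cons c L =>
    rw [corners_sum]
    by_contra h3
    rw [not_le] at h3
    have h4 := D.Fl_mixed L _ _ h3
    set u := D.up ((c :: L).getLast (by simp)) c with hu
    have h5 : List.IsChain (fun a b => D.up a b = u) (c :: (L ++ [c])) := by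
      rw [← List.cons_append, List.isChain_append]
      refine ⟨h4, by simp, ?_⟩
      intro a ha b hb
      rw [List.getLast?_eq_getLast_of_ne_nil (by simp)] at ha
      simp only [Option.mem_def, Option.some.injEq, List.head?_cons] at ha hb
      subst ha hb
      rfl
    have h6 : List.IsChain (fun a b => D.ok (D.cor a) (D.cor b)) (c :: (L ++ [c])) := by
      rw [← List.cons_append, List.isChain_append]
      refine ⟨?_, by simp, ?_⟩
      · have := h2.1
        rwa [List.isChain_map] at this
      · intro a ha b hb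
        apply h2.2
        · rw [List.getLast?_map]
          rw [Option.mem_def] at ha
          rw [ha]
          simp
        · simp only [List.head?_cons, Option.mem_def, Option.some.injEq] at hb
          subst hb
          simp
    have h7 : List.IsChain (fun a b => D.up a b = u ∧ D.ok (D.cor a) (D.cor b))
        (c :: (L ++ [c])) := by
      rw [List.isChain_iff_getElem] at h5 h6 ⊢
      intro i hi
      exact ⟨h5 i hi, h6 i hi⟩
    cases huv : u with
    | true =>
      refine D.acyc c L h1 (List.IsChain.imp ?_ h7)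
      intro a b hab
      rw [huv] at hab
      simp only [up, decide_eq_true_eq] at hab
      refine ⟨?_, hab.1⟩
      exact hab.2.2
    | false =>
      refine D.acyc_down c L h1 (List.IsChain.imp ?_ h7)
      intro a b hab
      rw [huv] at hab
      simp only [up, decide_eq_false_iff_not, not_lt] at hab
      refine ⟨hab.2.2, lt_of_le_of_ne hab.1 ?_⟩
      intro h8
      exact hab.2.1 (D.zinj h8).symm

/-! ### arcs -/

theorem kdiff {c c' : ZMod D.n × Bool} {p : ZMod D.n} {s : Bool}
    (h1 : D.ok (D.cor c) (.port p s)) (h2 : D.ok (.port p s) (D.cor c')) :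
    D.kap c' - D.kap c = D.tau p - D.tau (p - 1) := by
  rcases c with ⟨i, a⟩
  rcases c' with ⟨j, b⟩
  simp only [ok, cor, en, ex] at h1 h2
  obtain ⟨h1, rfl⟩ := h1
  obtain ⟨h2, h3⟩ := h2
  subst h3
  cases s
  · simp only [kap, Bool.false_eq_true, if_false] at h1 h2 ⊢
    subst h1
    rw [h2]
    simp
    ring
  · simp only [kap, if_true] at h1 h2 ⊢
    subst h2
    rw [h1]
    simp

theorem ang_def (c c' : ZMod D.n × Bool) : D.ang c c' =
    if D.z (ex c) < D.z (en c') then D.kap c' else - D.kap c := by
  simp only [ang, up, decide_eq_true_eq]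

open Classical in
theorem arc {c1 c2 c3 c4 : ZMod D.n × Bool} {p q : ZMod D.n} {s s' : Bool}
    (h1 : D.ok (D.cor c1) (.port p s)) (h4 : D.ok (.port p s) (D.cor c4))
    (h3 : D.ok (D.cor c3) (.port q s')) (h2 : D.ok (.port q s') (D.cor c2)) (hpq : p ≠ q) :
    D.av (D.cor c1) (D.cor c2) + D.av (D.cor c3) (D.cor c4) =
      -2 * (D.bc (.port p s) + D.bc (.port q s')) := by
  have k1 := D.kdiff h1 h4
  have k2 := D.kdiff h3 h2
  have e1 : ex c1 = p := h1.1.symm
  have e2 : en c2 = q := h2.1.symm
  have e3 : ex c3 = q := h3.1.symm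
  have e4 : en c4 = p := h4.1.symm
  have a1 : D.av (D.cor c1) (D.cor c2) = if D.z p < D.z q then D.kap c2 else - D.kap c1 := by
    rw [show D.av (D.cor c1) (D.cor c2) = D.ang c1 c2 from rfl, ang_def, e1, e2]
  have a2 : D.av (D.cor c3) (D.cor c4) = if D.z q < D.z p then D.kap c4 else - D.kap c3 := by
    rw [show D.av (D.cor c3) (D.cor c4) = D.ang c3 c4 from rfl, ang_def, e3, e4]
  rw [a1, a2]
  have hz : D.z p ≠ D.z q := fun h => hpq (D.zinj h)
  have key : ∀ a b : ZMod D.n, D.z a < D.z b →
      D.tau b - D.tau (b - 1) = -2 * ((if a = D.M then 1 else 0) + (if b = D.M then 1 else 0)) := by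
    intro a b hab
    have ha : a ≠ D.M := by
      rintro rfl
      exact absurd (D.M_spec b) (not_le.mpr hab)
    rw [if_neg ha]
    by_cases hb : b = D.M
    · rw [if_pos hb]
      subst hb
      rw [D.tau_M]; norm_num
    · rw [if_neg hb]
      rw [D.tau_other b hb]
      · norm_num
      · rintro rfl
        exact absurd (D.mu_spec a) (not_le.mpr hab)
  rcases lt_or_gt_of_ne hz with h | h
  · rw [if_pos h, if_neg (not_lt.mpr h.le)]
    have := key p q h
    simp only [bc]
    rw [← this, ← k2]
    ring
  · rw [if_neg (not_lt.mpr h.le), if_pos h]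
    have := key q p h
    simp only [bc]
    rw [add_comm (if p = D.M then (1 : ℤ) else 0), ← this, ← k1]
    ring

theorem ok_port_left {p : ZMod D.n} {s : Bool} {x : Sy D.n} (h : D.ok (.port p s) x) :
    ∃ c, x = D.cor c := by
  cases x with
  | port q s' => exact h.elim
  | corner i t => exact ⟨(i, t), rfl⟩

theorem ok_port_right {p : ZMod D.n} {s : Bool} {x : Sy D.n} (h : D.ok x (.port p s)) :
    ∃ c, x = D.cor c := by
  cases x with
  | port q s' => exact h.elim
  | corner i t => exact ⟨(i, t), rfl⟩

/-- what adjacency says on gluing two ports -/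
theorem ok_glue {c1 c2 : ZMod D.n × Bool} {p q : ZMod D.n} {s s' : Bool}
    (h1 : D.ok (D.cor c1) (.port p s)) (h2 : D.ok (.port q s') (D.cor c2)) (hpq : p ≠ q)
    (hc : D.cr p s = !D.cr q s') : D.ok (D.cor c1) (D.cor c2) := by
  obtain ⟨e1, f1⟩ := h1
  obtain ⟨e2, f2⟩ := h2
  refine ⟨?_, ?_⟩
  · rw [← e1, ← e2]; exact hpq
  · rw [← e1, ← e2, ← f1, ← f2]; exact hc

/-- ends of a cyclic chain with a port -/
theorem ends_of_chn {P : Sy D.n} {A : List (Sy D.n)} (h : D.Chn (A ++ [P])) {p : ZMod D.n}
    {s : Bool} (hP : P = .port p s) :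
    ∃ c1 c2, A.getLast? = some (D.cor c1) ∧ A.head? = some (D.cor c2) ∧
      D.ok (D.cor c1) P ∧ D.ok P (D.cor c2) ∧ List.IsChain D.ok A := by
  subst hP
  rcases List.eq_nil_or_concat A with rfl | ⟨A', a, rfl⟩
  · exfalso
    have := h.2 (Sy.port p s) (by simp) (Sy.port p s) (by simp)
    exact this
  · simp only [List.concat_eq_append] at h ⊢
    obtain ⟨h1, h2⟩ := h
    rw [List.isChain_append] at h1
    have h3 := h1.2.2 a (by simp) (Sy.port p s) (by simp)
    obtain ⟨c1, rfl⟩ := D.ok_port_right h3
    have h4 : ∃ b, (A' ++ [D.cor c1]).head? = some b ∧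
        (A' ++ [D.cor c1] ++ [Sy.port p s]).head? = some b := by
      cases A' with
      | nil => exact ⟨_, rfl, rfl⟩
      | cons b A' => exact ⟨b, rfl, rfl⟩
    obtain ⟨b, h5, h6⟩ := h4
    have h7 := h2 (Sy.port p s) (by simp) b h6
    obtain ⟨c2, rfl⟩ := D.ok_port_left h7
    exact ⟨c1, c2, by simp, h5, h3, h7, h1.1⟩

@[simp] theorem av_port_left (p : ZMod D.n) (s : Bool) (x : Sy D.n) :
    D.av (.port p s) x = 0 := by cases x <;> rfl
@[simp] theorem av_port_right (p : ZMod D.n) (s : Bool) (x : Sy D.n) :
    D.av x (.port p s) = 0 := by cases x <;> rfl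

theorem jn_port_left (p : ZMod D.n) (s : Bool) (o : Option (Sy D.n)) :
    D.jn (some (.port p s)) o = 0 := by cases o <;> simp
theorem jn_port_right (p : ZMod D.n) (s : Bool) (o : Option (Sy D.n)) :
    D.jn o (some (.port p s)) = 0 := by cases o <;> simp

theorem cs_port (A : List (Sy D.n)) (p : ZMod D.n) (s : Bool) :
    D.cs (A ++ [.port p s]) = D.ps A := by
  simp only [cs]
  rw [ps_append]
  have : (A ++ [Sy.port p s]).getLast? = some (.port p s) := by simp
  rw [this, List.head?_cons, jn_port_left, jn_port_right]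
  simp [ps]

variable {D}

/-- merging two clusters along a port -/
theorem Cl.merge {l l' : ℤ} {g : FF H Unit} {U U' : List (Sy D.n)} {p q : ZMod D.n} {s s' : Bool}
    (c : D.Cl l g (U ++ [.port p s])) (c' : D.Cl l' g (.port q s' :: U'))
    (hc : D.cr p s = !D.cr q s') (hpq : p ≠ q) : D.Cl (l + l') g (U ++ U') := by
  have hv : D.val (.port p s) = (D.val (.port q s'))⁻¹ := by
    simp only [val]
    rw [hc, tB_not]
  have hK : D.KK g (U ++ U') = D.KK g (U ++ [.port p s]) * D.KK g (.port q s' :: U') := by
    simp only [KK, pv_append, pv_cons, pv_nil, hv]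
    group
  have chn' : D.Chn (U' ++ [.port q s']) := D.Chn_comm [_] U' c'.chn
  obtain ⟨c1, c4, a1, a2, a3, a4, a5⟩ := D.ends_of_chn c.chn rfl
  obtain ⟨c3, c2, b1, b2, b3, b4, b5⟩ := D.ends_of_chn chn' rfl
  -- U ends with c1, starts with c4; U' ends with c3, starts with c2
  have o12 : D.ok (D.cor c1) (D.cor c2) := D.ok_glue a3 b4 hpq hc
  have o34 : D.ok (D.cor c3) (D.cor c4) := D.ok_glue b3 a4 hpq.symm (by rw [hc]; simp)
  have hU : U ≠ [] := by rintro rfl; simp at a1
  have hU' : U' ≠ [] := by rintro rfl; simp at b1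
  have hlast : (U ++ U').getLast? = some (D.cor c3) := by
    rw [List.getLast?_append, b1]; rfl
  have hhead : (U ++ U').head? = some (D.cor c4) := by
    rw [List.head?_append, a2]; rfl
  have hcs : D.cs (U ++ U') = D.ps U + D.ps U' + (D.av (D.cor c1) (D.cor c2) +
      D.av (D.cor c3) (D.cor c4)) := by
    simp only [cs]
    rw [hlast, hhead, ps_append, a1, b2]
    simp
    ring
  refine ⟨⟨?_, ?_⟩, ?_, ?_, ?_, ?_⟩
  · rw [List.isChain_append]
    refine ⟨a5, b5, ?_⟩
    intro x hx y hy
    rw [a1, Option.mem_def, Option.some.injEq] at hx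
    rw [b2, Option.mem_def, Option.some.injEq] at hy
    subst hx hy
    exact o12
  · intro x hx y hy
    rw [hlast, Option.mem_def, Option.some.injEq] at hx
    rw [hhead, Option.mem_def, Option.some.injEq] at hy
    subst hx hy
    exact o34
  · have i1 := c.inv
    have i2 := Inv_comm [_] U' c'.inv
    simp only [Inv, cs_port, nc_append, np_append, nb_append, nc_cons, np_cons, nb_cons, nc_nil,
      np_nil, nb_nil, cc, pc, Nat.cast_add] at i1 i2 ⊢
    rw [hcs, D.arc a3 a4 b3 b4 hpq]
    push_cast at i1 i2 ⊢
    linarith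
  · rw [hK]
    exact NN_mul c.mem c'.mem
  · intro i r t h
    rcases get_append_cases U U' i _ h with ⟨hi, h1, h2⟩ | ⟨k, hk, h1, h2⟩
    · have h3 := get_append_left U [Sy.port p s] i _ h1
      refine NN_of_eq (NN_mul (c.ext1 _ r t h3.1) c'.mem) (by ring) ?_
      rw [hK, h3.2, h2]
      simp only [mul_assoc]
    · have h3 := get_append_right [Sy.port q s'] U' k _ h1
      refine NN_of_eq (NN_mul c.mem (c'.ext1 _ r t h3.1)) (by ring) ?_
      have h4 : ([Sy.port q s'] ++ U').take ([Sy.port q s'].length + k) =
        [Sy.port q s'] ++ U'.take k := h3.2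
      rw [hK]
      rw [show (Sy.port q s' :: U') = [Sy.port q s'] ++ U' from rfl, h4, h2]
      simp only [KK, cj, pv_append, pv_cons, pv_nil, hv]
      group
  · intro i j r r' t hij h h'
    rcases get_append_cases U U' i _ h with ⟨hi, h1, h2⟩ | ⟨k, hk, h1, h2⟩
    · rcases get_append_cases U U' j _ h' with ⟨hi', h1', h2'⟩ | ⟨k', hk', h1', h2'⟩
      · have h3 := get_append_left U [Sy.port p s] i _ h1
        have h3' := get_append_left U [Sy.port p s] j _ h1'
        refine NN_of_eq (NN_mul (c.ext2 _ _ r r' t hij h3.1 h3'.1) c'.mem) (by ring) ?_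
        rw [hK, h3.2, h2, h3'.2, h2']
        simp only [mul_assoc]
      · have h3 := get_append_left U [Sy.port p s] i _ h1
        have h3' := get_append_right [Sy.port q s'] U' k' _ h1'
        refine NN_of_eq (NN_mul (c.ext1 _ r t h3.1) (c'.ext1 _ r' (!t) h3'.1)) (by ring) ?_
        have h4 : ([Sy.port q s'] ++ U').take ([Sy.port q s'].length + k') =
          [Sy.port q s'] ++ U'.take k' := h3'.2
        rw [hK]
        rw [show (Sy.port q s' :: U') = [Sy.port q s'] ++ U' from rfl, h4, h2', h2, h3.2]
        simp only [KK, cj, pv_append, pv_cons, pv_nil, hv]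
        group
    · rcases get_append_cases U U' j _ h' with ⟨hi', h1', h2'⟩ | ⟨k', hk', h1', h2'⟩
      · omega
      · have h3 := get_append_right [Sy.port q s'] U' k _ h1
        have h3' := get_append_right [Sy.port q s'] U' k' _ h1'
        refine NN_of_eq (NN_mul c.mem (c'.ext2 _ _ r r' t (by omega) h3.1 h3'.1)) (by ring) ?_
        have h4 : ([Sy.port q s'] ++ U').take ([Sy.port q s'].length + k) =
          [Sy.port q s'] ++ U'.take k := h3.2
        have h4' : ([Sy.port q s'] ++ U').take ([Sy.port q s'].length + k') =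
          [Sy.port q s'] ++ U'.take k' := h3'.2
        rw [hK]
        rw [show (Sy.port q s' :: U') = [Sy.port q s'] ++ U' from rfl, h4, h4', h2, h2']
        simp only [KK, cj, pv_append, pv_cons, pv_nil, hv]
        group

/-- equal positions with opposite crossings have opposite signs -/
theorem sign_of_cr {p : ZMod D.n} {s s' : Bool} (hc : D.cr p s = !D.cr p s') : s' = !s := by
  simp only [cr] at hc
  revert hc
  generalize D.e p = x
  cases s <;> cases s' <;> cases x <;> decide

/-- dipole cancellation -/
theorem th_dipole (p : ZMod D.n) (s : Bool) :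
    D.val (.port p s) * D.th (.port p (!s)) * (D.val (.port p s))⁻¹ =
      (D.th (.port p s))⁻¹ := by
  cases s
  · have : D.cr p false = !D.e p := by simp [cr]
    simp only [val, th, this, tB_not, Bool.not_false]
    group
  · have : D.cr p true = D.e p := by simp [cr]
    simp only [val, th, this, Bool.not_true]
    group

theorem Cl.merge_dipole {l l' : ℤ} {g : FF H Unit} {U U' : List (Sy D.n)} {p : ZMod D.n}
    {s s' : Bool} (c : D.Cl l g (U ++ [.port p s])) (c' : D.Cl l' g (.port p s' :: U'))
    (hc : D.cr p s = !D.cr p s') :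
    NN D.R (l + l' - 2) (D.KK g (U ++ [.port p s]) * D.KK g (.port p s' :: U')) := by
  have hs := sign_of_cr hc
  subst hs
  have h1 := get_append_right U [Sy.port p s] 0 (Sy.port p s) (by simp)
  have h2 := c.ext1 _ p s h1.1
  rw [h1.2] at h2
  have h3 := c'.ext1 0 p (!s) (by simp)
  refine NN_of_eq (NN_mul h2 h3) (by ring) ?_
  have h4 := th_dipole (D := D) p s
  have h5 : D.th (.port p (!s)) = (D.val (.port p s))⁻¹ * (D.th (.port p s))⁻¹ *
      D.val (.port p s) := by
    rw [← h4]; group
  rw [h5]
  simp only [KK, cj, pv_append, pv_cons, pv_nil, List.take_zero, List.append_nil]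
  generalize D.th (.port p s) = x
  generalize D.val (.port p s) = y
  generalize D.pv U = u
  group

/-- closing -/
theorem Cl.close {l : ℤ} {g : FF H Unit} {U : List (Sy D.n)} {C : List (ZMod D.n × Bool)}
    {p q : ZMod D.n} {s s' : Bool}
    (c : D.Cl l g (U ++ (.port p s :: C.map D.cor) ++ [.port q s']))
    (h1 : (C.map (ltr D.h)).prod = 1)
    (hc : D.cr p s = !D.cr q s') (hpq : p ≠ q) : D.Cl l g U := by
  have hC : D.pv (C.map D.cor) = 1 := by
    have : D.pv (C.map D.cor) = hh ((C.map (ltr D.h)).prod) := by
      clear c h1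
      induction C with
      | nil => simp
      | cons a C ih =>
        rw [List.map_cons, pv_cons, ih]
        simp [cor, val]
    rw [this, h1]; simp
  have hv : D.val (.port p s) = (D.val (.port q s'))⁻¹ := by
    simp only [val]
    rw [hc, tB_not]
  have hK : D.KK g (U ++ (.port p s :: C.map D.cor) ++ [.port q s']) = D.KK g U := by
    simp only [KK, pv_append, pv_cons, pv_nil, hv, hC]
    group
  have e0 := c.chn
  obtain ⟨c3, c2, a1, a2, a3, a4, a5⟩ := D.ends_of_chn e0 rfl
  have e1 : D.Chn ((C.map D.cor ++ [.port q s'] ++ U) ++ [.port p s]) := by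
    have := D.Chn_comm (U ++ [.port p s]) (C.map D.cor ++ [.port q s']) (by simpa using e0)
    simpa using this
  obtain ⟨c1, c4, b1, b2, b3, b4, b5⟩ := D.ends_of_chn e1 rfl
  -- C is nonempty and U is nonempty
  have hCne : C ≠ [] := by
    rintro rfl
    rw [List.isChain_append] at b5
    simp [cor] at b2
  have hUne : U ≠ [] := by
    rintro rfl
    simp [cor] at a2
  have hClast : (C.map D.cor).getLast? = some (D.cor c3) := by
    obtain ⟨C', x, rfl⟩ := List.eq_nil_or_concat C |>.resolve_left hCne
    simp only [List.concat_eq_append, List.map_append, List.map_cons, List.map_nil] at a1 ⊢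
    rw [List.getLast?_concat]
    rw [← List.cons_append, ← List.append_assoc, List.getLast?_concat] at a1
    exact a1
  have hChead : (C.map D.cor).head? = some (D.cor c4) := by
    obtain ⟨x, C', rfl⟩ := List.exists_cons_of_ne_nil hCne
    simpa using b2
  have hUlast : U.getLast? = some (D.cor c1) := by
    obtain ⟨U', x, rfl⟩ := List.eq_nil_or_concat U |>.resolve_left hUne
    simp only [List.concat_eq_append] at b1 ⊢
    rw [List.getLast?_concat]
    rw [← List.append_assoc, List.getLast?_concat] at b1
    exact b1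
  have hUhead : U.head? = some (D.cor c2) := by
    obtain ⟨x, U', rfl⟩ := List.exists_cons_of_ne_nil hUne
    simpa using a2
  have hUch : List.IsChain D.ok U := by
    rw [List.isChain_append] at a5
    exact a5.1
  have hCch : List.IsChain D.ok (C.map D.cor) := by
    rw [List.isChain_append, List.isChain_append] at b5
    exact b5.1.1
  have o12 : D.ok (D.cor c1) (D.cor c2) := D.ok_glue b3 a4 hpq hc
  have o34 : D.ok (D.cor c3) (D.cor c4) := D.ok_glue a3 b4 hpq.symm (by rw [hc]; simp)
  have hcsU : D.cs U = D.ps U + D.av (D.cor c1) (D.cor c2) := by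
    simp only [cs]
    rw [hUlast, hUhead]
    simp
  have hcsC : D.cs (C.map D.cor) = D.ps (C.map D.cor) + D.av (D.cor c3) (D.cor c4) := by
    simp only [cs]
    rw [hClast, hChead]
    simp
  have hcsX : D.cs (U ++ (.port p s :: C.map D.cor) ++ [.port q s']) =
      D.ps U + D.ps (C.map D.cor) := by
    rw [cs_port, ps_append, List.head?_cons, jn_port_right, ps_cons, jn_port_left]
    ring
  have hChC : D.Chn (C.map D.cor) := by
    refine ⟨hCch, ?_⟩
    intro x hx y hy
    rw [hClast, Option.mem_def, Option.some.injEq] at hx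
    rw [hChead, Option.mem_def, Option.some.injEq] at hy
    subst hx hy
    exact o34
  have h2 := D.corners_two C hCne h1 hChC
  have harc := D.arc b3 b4 a3 a4 hpq
  have hn1 : D.np (C.map D.cor) = 0 := by
    clear * -
    induction C with
    | nil => simp
    | cons a C ih =>
      rw [List.map_cons, np_cons, ih]
      simp [cor, pc]
  have hn2 : D.nb (C.map D.cor) = 0 := by
    clear * -
    induction C with
    | nil => simp
    | cons a C ih =>
      rw [List.map_cons, nb_cons, ih]
      simp [cor, bc]
  refine ⟨⟨hUch, ?_⟩, ?_, ?_, ?_, ?_⟩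
  · intro x hx y hy
    rw [hUlast, Option.mem_def, Option.some.injEq] at hx
    rw [hUhead, Option.mem_def, Option.some.injEq] at hy
    subst hx hy
    exact o12
  · have i1 := c.inv
    simp only [Inv, hcsX, nc_append, np_append, nb_append, nc_cons, np_cons, nb_cons, nc_nil,
      np_nil, nb_nil, cc, pc, Nat.cast_add, hn1, hn2] at i1 ⊢
    rw [hcsU]
    rw [hcsC] at h2
    push_cast at i1 ⊢
    linarith
  · rw [← hK]; exact c.mem
  · intro i r t h
    have h3 := get_append_left U ((.port p s :: C.map D.cor) ++ [.port q s']) i _ h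
    rw [← List.append_assoc] at h3
    have h4 := c.ext1 i r t h3.1
    rw [h3.2, hK] at h4
    exact h4
  · intro i j r r' t hij h h'
    have h3 := get_append_left U ((.port p s :: C.map D.cor) ++ [.port q s']) i _ h
    rw [← List.append_assoc] at h3
    have h3' := get_append_left U ((.port p s :: C.map D.cor) ++ [.port q s']) j _ h'
    rw [← List.append_assoc] at h3'
    have h4 := c.ext2 i j r r' t hij h3.1 h3'.1
    rw [h3.2, h3'.2, hK] at h4
    exact h4

theorem Cl.close_dipole {l : ℤ} {g : FF H Unit} {U : List (Sy D.n)} {L : List (Sy D.n)}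
    {p : ZMod D.n} {s s' : Bool}
    (c : D.Cl l g (U ++ (.port p s :: L) ++ [.port p s']))
    (h1 : D.pv L = 1)
    (hc : D.cr p s = !D.cr p s') :
    NN D.R (l - 2) (D.KK g (U ++ (.port p s :: L) ++ [.port p s'])) := by
  have hs := sign_of_cr hc
  subst hs
  have e1 := get_append_right (U ++ (.port p s :: L)) [Sy.port p (!s)] 0 (Sy.port p (!s))
    (by simp)
  have e2 := get_append_right U ((.port p s :: L) ++ [Sy.port p (!s)]) 0 (Sy.port p s) (by simp)
  rw [← List.append_assoc] at e2
  have h2 := c.ext2 _ _ p p s (by simp) e2.1 e1.1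
  rw [e1.2, e2.2] at h2
  refine NN_of_eq h2 rfl ?_
  have h4 := th_dipole (D := D) p s
  have h5 : D.th (.port p (!s)) = (D.val (.port p s))⁻¹ * (D.th (.port p s))⁻¹ *
      D.val (.port p s) := by
    rw [← h4]; group
  rw [h5]
  simp only [cj, pv_append, pv_cons, pv_nil, List.take_zero, List.append_nil, h1]
  generalize D.th (.port p s) = x
  generalize D.val (.port p s) = y
  generalize D.pv U = u
  group

/-- a cluster has a port -/
theorem Cl.np_pos {l : ℤ} {g : FF H Unit} {X : List (Sy D.n)} (c : D.Cl l g X) :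
    0 < D.np X := by
  by_contra h0
  have h1 : D.np X = 0 := by omega
  have h2 : ∃ C : List (ZMod D.n × Bool), X = C.map D.cor := by
    clear c h0
    induction X with
    | nil => exact ⟨[], rfl⟩
    | cons a X ih =>
      cases a with
      | port p s => simp [pc] at h1
      | corner i t =>
        simp only [np_cons, pc, zero_add] at h1
        obtain ⟨C, rfl⟩ := ih h1
        exact ⟨(i, t) :: C, rfl⟩
  obtain ⟨C, rfl⟩ := h2
  have h3 := D.corners_nonneg C
  have h4 : D.nb (C.map D.cor) = 0 := by
    clear * -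
    induction C with
    | nil => simp
    | cons a C ih =>
      rw [List.map_cons, nb_cons, ih]
      simp [cor, bc]
  have h5 := c.inv
  simp only [Inv, h1, h4] at h5
  push_cast at h5
  linarith

end Dat

end Run7.h847
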