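import Mathlib
import Pool.Agent.Run7.h847.Cluster2

set_option autoImplicit false
set_option linter.unusedSectionVars false
set_option linter.unusedSimpArgs false

namespace Run7.h847

open Monoid

open Sy

variable {H Ω : Type} [Group H] [LinearOrder Ω]

namespace Dat

variable (D : Dat H Ω)

/-! ### lengths -/

theorem len_pv_le (X : List (Sy D.n)) : len (D.pv X) ≤ D.np X := by
  induction X with
  | nil => simp
  | cons a X ih =>
    rw [pv_cons, np_cons]
    refine (len_mul_le _ _).trans ?_
    have : len (D.val a) ≤ D.pc a := by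
      cases a with
      | port p s => simp [val, pc, tB]
      | corner i t => simp [val, pc]
    omega

theorem pv_cor (C : List (ZMod D.n × Bool)) :
    D.pv (C.map D.cor) = hh ((C.map (ltr D.h)).prod) := by
  induction C with
  | nil => simp
  | cons a C ih =>
    rw [List.map_cons, pv_cons, ih]
    simp [cor, val]

theorem np_cor (C : List (ZMod D.n × Bool)) : D.np (C.map D.cor) = 0 := by
  induction C with
  | nil => simp
  | cons a C ih =>
    rw [List.map_cons, np_cons, ih]
    simp [cor, pc]

/-- initial corners of a list -/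
theorem split_corners (X : List (Sy D.n)) : ∃ C : List (ZMod D.n × Bool),
    X = C.map D.cor ∨ ∃ p s Y, X = C.map D.cor ++ Sy.port p s :: Y := by
  induction X with
  | nil => exact ⟨[], Or.inl rfl⟩
  | cons a X ih =>
    cases a with
    | port p s => exact ⟨[], Or.inr ⟨p, s, X, rfl⟩⟩
    | corner i t =>
      obtain ⟨C, h⟩ := ih
      refine ⟨(i, t) :: C, ?_⟩
      rcases h with h | ⟨p, s, Y, h⟩
      · left; rw [h]; rfl
      · right; exact ⟨p, s, Y, by rw [h]; rfl⟩

/-- final corners of a list -/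
theorem split_corners_last (X : List (Sy D.n)) : ∃ C : List (ZMod D.n × Bool),
    X = C.map D.cor ∨ ∃ A p s, X = A ++ Sy.port p s :: C.map D.cor := by
  induction X using List.reverseRecOn with
  | nil => exact ⟨[], Or.inl rfl⟩
  | append_singleton X a ih =>
    cases a with
    | port p s => exact ⟨[], Or.inr ⟨X, p, s, rfl⟩⟩
    | corner i t =>
      obtain ⟨C, h⟩ := ih
      refine ⟨C ++ [(i, t)], ?_⟩
      rcases h with h | ⟨A, p, s, h⟩
      · left; rw [h]; simp [cor]
      · right; exact ⟨A, p, s, by rw [h]; simp [cor]⟩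

theorem split_suffix (X : List (Sy D.n)) (i : ℕ) (hi : i < D.np X) :
    ∃ A p s Z, X = A ++ Sy.port p s :: Z ∧ D.np Z = i := by
  induction X with
  | nil => simp at hi
  | cons a X ih =>
    cases a with
    | corner j t =>
      simp only [np_cons, pc, zero_add] at hi
      obtain ⟨A, p, s, Z, h1, h2⟩ := ih hi
      exact ⟨_ :: A, p, s, Z, by rw [h1]; rfl, h2⟩
    | port p s =>
      simp only [np_cons, pc] at hi
      by_cases h : i = D.np X
      · exact ⟨[], p, s, X, rfl, h.symm⟩
      · obtain ⟨A, p', s', Z, h1, h2⟩ := ih (by omega)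
        exact ⟨_ :: A, p', s', Z, by rw [h1]; rfl, h2⟩

theorem split_initial (X : List (Sy D.n)) (i : ℕ) (hi : i < D.np X) :
    ∃ A p s Z, X = A ++ Sy.port p s :: Z ∧ D.np A = i := by
  obtain ⟨A, p, s, Z, h1, h2⟩ := D.split_suffix X (D.np X - 1 - i) (by omega)
  refine ⟨A, p, s, Z, h1, ?_⟩
  have : D.np X = D.np A + (1 + D.np Z) := by
    rw [h1]; simp [pc]
  omega

variable {D}

/-- rotation the other way -/
theorem Cl.rot' {l : ℤ} {g : FF H Unit} {U V : List (Sy D.n)} (c : D.Cl l g (U ++ V)) :
    D.Cl l (g * (D.pv V)⁻¹) (V ++ U) := by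
  have h := (c.rot).conj (D.KK g (U ++ V))⁻¹
  have : (D.KK g (U ++ V))⁻¹ * (g * D.pv U) = g * (D.pv V)⁻¹ := by
    simp only [KK, pv_append]; group
  rwa [this] at h

/-- starting with a port -/
def SP (X : List (Sy D.n)) : Prop := ∃ p s Y, X = Sy.port p s :: Y

/-- make the word start with a port -/
theorem Cl.start {l : ℤ} {g : FF H Unit} {X : List (Sy D.n)} (c : D.Cl l g X) :
    ∃ g' X', D.Cl l g' X' ∧ SP X' ∧ D.KK g' X' = D.KK g X ∧ D.np X' = D.np X := by
  obtain ⟨C, h⟩ := D.split_corners X
  rcases h with h | ⟨p, s, Y, h⟩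
  · exfalso
    have := c.np_pos
    rw [h, np_cor] at this
    exact lt_irrefl _ this
  · subst h
    refine ⟨_, _, c.rot, ⟨p, s, _, rfl⟩, ?_, ?_⟩
    · simp only [KK, pv_append]; group
    · simp only [np_append]; omega

variable (D)

/-- tuple entries -/
structure Tr where
  l : ℤ
  g : FF H Unit
  X : List (Sy D.n)

variable {D}

/-- good entries -/
def Tr.Good (c : D.Tr) : Prop := D.Cl c.l c.g c.X ∧ SP c.X

/-- the element -/
def Tr.K (c : D.Tr) : FF H Unit := D.KK c.g c.X

/-- reducible entries -/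
def Tr.Rdc (c : D.Tr) : Prop :=
  NN D.R (c.l - 2) c.K ∨ ∃ c' : D.Tr, c'.Good ∧ c'.l = c.l ∧ c'.K = c.K ∧
    (D.np c'.X < D.np c.X ∨ (D.np c'.X = D.np c.X ∧ len c'.g < len c.g))

theorem tight {c : D.Tr} (hc : c.Good) (hr : ¬ c.Rdc) :
    len c.K = 2 * len c.g + D.np c.X := by
  obtain ⟨hcl, hsp⟩ := hc
  -- Step 1
  have step1 : ∀ (A B : List (Sy D.n)) (C : List (ZMod D.n × Bool)) (p q : ZMod D.n)
      (s s' : Bool), c.X = A ++ Sy.port p s :: (C.map D.cor ++ Sy.port q s' :: B) →
      ¬ ((C.map (ltr D.h)).prod = 1 ∧ (((), D.cr q s') : Sg Unit) = fl ((), D.cr p s)) := by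
    rintro A B C p q s s' hX ⟨h1, h2⟩
    apply hr
    have hcr : D.cr p s = !D.cr q s' := by
      simp only [fl, Prod.mk.injEq, true_and] at h2
      rw [h2]; simp
    have e1 : c.X = (A ++ Sy.port p s :: C.map D.cor ++ [Sy.port q s']) ++ B := by
      rw [hX]; simp
    have h3 := hcl
    rw [e1] at h3
    have h4 := h3.rot'
    have e2 : B ++ (A ++ Sy.port p s :: C.map D.cor ++ [Sy.port q s']) =
      (B ++ A) ++ (Sy.port p s :: C.map D.cor) ++ [Sy.port q s'] := by simp
    rw [e2] at h4
    have hK : D.KK (c.g * (D.pv B)⁻¹) ((B ++ A) ++ (Sy.port p s :: C.map D.cor) ++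
        [Sy.port q s']) = c.K := by
      rw [Tr.K, e1]
      simp only [KK, pv_append, pv_cons, pv_nil]
      group
    by_cases hpq : p = q
    · left
      subst hpq
      have h5 := h4.close_dipole (by rw [pv_cor, h1]; simp) hcr
      rw [hK] at h5
      exact h5
    · right
      have h5 := h4.close h1 hcr hpq
      obtain ⟨g', X', h6, h7, h8, h9⟩ := h5.start
      refine ⟨⟨c.l, g', X'⟩, ⟨h6, h7⟩, rfl, ?_, ?_⟩
      · have hv : D.val (.port p s) = (D.val (.port q s'))⁻¹ := by
          simp only [val]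
          rw [hcr, tB_not]
        rw [← hK]
        simp only [Tr.K]
        rw [h8]
        simp only [KK, pv_append, pv_cons, pv_nil, pv_cor, h1, hv, map_one]
        group
      · left
        show D.np X' < D.np c.X
        rw [h9, e1]
        simp only [np_append, np_cons, np_nil, pc]
        omega
  -- Step 2
  have step2 : ∀ (k : ℕ) (A Y : List (Sy D.n)) (p : ZMod D.n) (s : Bool), Y.length ≤ k →
      c.X = A ++ Sy.port p s :: Y → len (tB (D.cr p s) * D.pv Y) = len (D.pv Y) + 1 ∧
        len (D.pv Y) = D.np Y := by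
    intro k
    induction k with
    | zero =>
      intro A Y p s hY hX
      have : Y = [] := List.length_eq_zero_iff.mp (by omega)
      subst this
      simp [tB]
    | succ k ih =>
      intro A Y p s hY hX
      obtain ⟨C, h⟩ := D.split_corners Y
      rcases h with h | ⟨q, s', Y', h⟩
      · subst h
        rw [pv_cor, np_cor]
        have := len_mul_hh (tB (D.cr p s) : FF H Unit) ((C.map (ltr D.h)).prod)
        rw [this]
        simp [tB]
      · subst h
        have h2 := ih (A ++ Sy.port p s :: C.map D.cor) Y' q s' (by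
          simp only [List.length_append, List.length_map, List.length_cons] at hY
          omega) (by rw [hX]; simp)
        have h3 : D.pv (C.map D.cor ++ Sy.port q s' :: Y') =
            hh ((C.map (ltr D.h)).prod) * (tB (D.cr q s') * D.pv Y') := by
          rw [pv_append, pv_cons, pv_cor]; rfl
        have h4 := step1 A Y' C p q s s' hX
        have h5 := len_two (H := H) ((), D.cr p s) ((), D.cr q s') _ h4
        have h6 : len (tB (D.cr p s) * hh ((C.map (ltr D.h)).prod) : FF H Unit) = 1 := by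
          rw [len_mul_hh]; simp [tB]
        have h7 : len (D.pv (C.map D.cor ++ Sy.port q s' :: Y')) = D.np Y' + 1 := by
          rw [h3, len_hh_mul, h2.1, h2.2]
        refine ⟨?_, ?_⟩
        · rw [h7, h3, ← mul_assoc]
          have h8 := len_lg (tB (D.cr p s) * hh ((C.map (ltr D.h)).prod) : FF H Unit)
            (D.pv Y') ((), D.cr q s') (by rw [h6]; exact h5) h2.1
          rw [show (tB (D.cr q s') : FF H Unit) = tt ((), D.cr q s') from rfl, h8, h6, h2.2]
          omega
        · rw [h7, np_append, np_cor, np_cons]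
          simp only [pc]; omega
  -- Step 3
  obtain ⟨p, s, Y, hX⟩ := hsp
  have s2 := step2 Y.length [] Y p s le_rfl (by simpa using hX)
  have step3 : len (c.g * tB (D.cr p s)) = len c.g + 1 := by
    rcases len_mul_tt c.g ((), D.cr p s) with h | h
    · exact h
    · exfalso
      apply hr
      right
      obtain ⟨C, h1⟩ := D.split_corners Y
      have key : ∀ V : List (Sy D.n), Y = C.map D.cor ++ V → SP (V ++ (Sy.port p s ::
          C.map D.cor)) → c.Rdc := by
        intro V hV hsp
        right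
        have e1 : c.X = (Sy.port p s :: C.map D.cor) ++ V := by rw [hX, hV]; rfl
        have h3 := hcl
        rw [e1] at h3
        refine ⟨⟨c.l, c.g * D.pv (Sy.port p s :: C.map D.cor), V ++ (Sy.port p s ::
          C.map D.cor)⟩, ⟨h3.rot, hsp⟩, rfl, ?_, Or.inr ⟨?_, ?_⟩⟩
        · simp only [Tr.K]
          rw [e1]
          simp only [KK, pv_append]; group
        · show D.np (V ++ (Sy.port p s :: C.map D.cor)) = D.np c.X
          rw [e1]
          simp only [np_append]; omega
        · show len (c.g * D.pv (Sy.port p s :: C.map D.cor)) < len c.g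
          have e2 : c.g * D.pv (Sy.port p s :: C.map D.cor) =
              (c.g * tt ((), D.cr p s)) * hh ((C.map (ltr D.h)).prod) := by
            rw [pv_cons, pv_cor, mul_assoc]; rfl
          rw [e2, len_mul_hh]
          omega
      rcases h1 with h1 | ⟨q, s', Y', h1⟩
      · exact absurd (key [] (by simpa using h1) ⟨p, s, _, rfl⟩) hr
      · exact absurd (key (Sy.port q s' :: Y') h1 ⟨q, s', _, rfl⟩) hr
  -- prefix lengths
  have hfull : len (c.g * D.pv c.X) = len c.g + D.np c.X := by
    have := len_lg c.g (D.pv Y) ((), D.cr p s) step3 s2.1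
    rw [hX, pv_cons, np_cons]
    rw [show D.val (Sy.port p s) = tt ((), D.cr p s) from rfl, this, s2.2]
    simp only [pc]; omega
  have hpre : ∀ A B : List (Sy D.n), c.X = A ++ B → len (c.g * D.pv A) = len c.g + D.np A := by
    intro A B hAB
    have h1 := len_mul_le c.g (D.pv A)
    have h2 := D.len_pv_le A
    have h3 := len_mul_le (c.g * D.pv A) (D.pv B)
    have h4 := D.len_pv_le B
    have h5 : c.g * D.pv A * D.pv B = c.g * D.pv c.X := by rw [hAB]; simp [mul_assoc]
    have h6 : D.np c.X = D.np A + D.np B := by rw [hAB]; simp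
    rw [h5, hfull] at h3
    omega
  -- last port
  obtain ⟨C, h1⟩ := D.split_corners_last c.X
  rcases h1 with h1 | ⟨A, q, t, h1⟩
  · exfalso
    have := hcl.np_pos
    rw [h1, np_cor] at this
    exact lt_irrefl _ this
  have hlen1 := hpre A (Sy.port q t :: C.map D.cor) h1
  have hlen2 := hpre (A ++ [Sy.port q t]) (C.map D.cor) (by rw [h1]; simp)
  have hlen3 : len (tt ((), D.cr q t) * (hh ((C.map (ltr D.h)).prod) * c.g⁻¹)) =
      len (hh ((C.map (ltr D.h)).prod) * c.g⁻¹) + 1 := by
    rcases len_tt_mul ((), D.cr q t) (hh ((C.map (ltr D.h)).prod) * c.g⁻¹) with h | h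
    · exact h
    · exfalso
      apply hr
      right
      have h3 := hcl
      rw [h1] at h3
      refine ⟨⟨c.l, c.g * (D.pv (Sy.port q t :: C.map D.cor))⁻¹, (Sy.port q t ::
        C.map D.cor) ++ A⟩, ⟨h3.rot', ⟨q, t, _, rfl⟩⟩, rfl, ?_, Or.inr ⟨?_, ?_⟩⟩
      · simp only [Tr.K]
        rw [h1]
        simp only [KK, pv_append]; group
      · show D.np ((Sy.port q t :: C.map D.cor) ++ A) = D.np c.X
        rw [h1]
        simp only [np_append]; omega
      · show len (c.g * (D.pv (Sy.port q t :: C.map D.cor))⁻¹) < len c.g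
        rw [← len_inv]
        have e2 : (c.g * (D.pv (Sy.port q t :: C.map D.cor))⁻¹)⁻¹ =
            tt ((), D.cr q t) * (hh ((C.map (ltr D.h)).prod) * c.g⁻¹) := by
          rw [pv_cons, pv_cor, mul_inv_rev, inv_inv, mul_assoc]; rfl
        rw [e2]
        rw [len_hh_mul, len_inv] at h
        omega
  have hK : c.K = (c.g * D.pv A) * (tt ((), D.cr q t) * (hh ((C.map (ltr D.h)).prod) *
      c.g⁻¹)) := by
    rw [Tr.K, KK, h1, pv_append, pv_cons, pv_cor]
    simp only [mul_assoc]
    rfl
  have hfin := len_lg (c.g * D.pv A) (hh ((C.map (ltr D.h)).prod) * c.g⁻¹) ((), D.cr q t)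
    (by
      have : c.g * D.pv A * tt ((), D.cr q t) = c.g * D.pv (A ++ [Sy.port q t]) := by
        rw [pv_append, pv_cons, pv_nil, mul_one, mul_assoc]; rfl
      rw [this, hlen2, hlen1]
      simp only [np_append, np_cons, np_nil, pc]
      omega) hlen3
  rw [hK, hfin, hlen1, len_hh_mul, len_inv, h1]
  simp only [np_append, np_cons, pc, np_cor]
  omega

/-! ### vertex facts -/

theorem vertex_left {c : D.Tr} (ht : len c.K = 2 * len c.g + D.np c.X) {A Z : List (Sy D.n)}
    {p : ZMod D.n} {s : Bool} (hX : c.X = A ++ Sy.port p s :: Z) :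
    (lst c.K⁻¹).take (len c.g + D.np Z) = lst (c.g * (D.pv Z)⁻¹) ∧
    (lst c.K⁻¹).take (len c.g + D.np Z + 1) =
      lst (c.g * (D.pv Z)⁻¹ * tt (fl ((), D.cr p s))) ∧
    len (c.g * (D.pv Z)⁻¹) = len c.g + D.np Z ∧
    len (c.g * (D.pv Z)⁻¹ * tt (fl ((), D.cr p s))) = len (c.g * (D.pv Z)⁻¹) + 1 := by
  have hK : c.K⁻¹ = (c.g * (D.pv Z)⁻¹) * (tt (fl ((), D.cr p s)) * ((D.pv A)⁻¹ * c.g⁻¹)) := by
    rw [Tr.K, KK, hX, pv_append, pv_cons, tt_fl]
    rw [show D.val (Sy.port p s) = tt ((), D.cr p s) from rfl]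
    simp only [mul_inv_rev, inv_inv, mul_assoc]
  have hN : D.np c.X = D.np A + (1 + D.np Z) := by rw [hX]; simp [pc]
  have a1 : len (c.g * (D.pv Z)⁻¹) ≤ len c.g + D.np Z := by
    refine (len_mul_le _ _).trans ?_
    rw [len_inv]
    have := D.len_pv_le Z
    omega
  have a2 : len ((D.pv A)⁻¹ * c.g⁻¹) ≤ D.np A + len c.g := by
    refine (len_mul_le _ _).trans ?_
    rw [len_inv, len_inv]
    have := D.len_pv_le A
    omega
  have a3 : len (tt (fl ((), D.cr p s)) * ((D.pv A)⁻¹ * c.g⁻¹) : FF H Unit) ≤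
      1 + len ((D.pv A)⁻¹ * c.g⁻¹) := by
    refine (len_mul_le _ _).trans ?_
    rw [len_tt]
  have a4 := len_mul_le (c.g * (D.pv Z)⁻¹) (tt (fl ((), D.cr p s)) * ((D.pv A)⁻¹ * c.g⁻¹))
  have a5 : len (c.g * (D.pv Z)⁻¹ * tt (fl ((), D.cr p s))) ≤ len (c.g * (D.pv Z)⁻¹) + 1 := by
    refine (len_mul_le _ _).trans ?_
    rw [len_tt]
  have a6 := len_mul_le (c.g * (D.pv Z)⁻¹ * tt (fl ((), D.cr p s))) ((D.pv A)⁻¹ * c.g⁻¹)
  have e6 : (c.g * (D.pv Z)⁻¹ * tt (fl ((), D.cr p s))) * ((D.pv A)⁻¹ * c.g⁻¹) = c.K⁻¹ := by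
    rw [hK]; simp only [mul_assoc]
  rw [e6, len_inv, ht, hN] at a6
  rw [← hK, len_inv, ht, hN] at a4
  have b1 : len (c.g * (D.pv Z)⁻¹) = len c.g + D.np Z := by omega
  have b2 : len (c.g * (D.pv Z)⁻¹ * tt (fl ((), D.cr p s))) = len c.g + D.np Z + 1 := by omega
  have c1 := lst_take_of_len (c.g * (D.pv Z)⁻¹) (tt (fl ((), D.cr p s)) *
    ((D.pv A)⁻¹ * c.g⁻¹)) (by
      rw [← hK, len_inv, ht, hN]; omega)
  have c2 := lst_take_of_len (c.g * (D.pv Z)⁻¹ * tt (fl ((), D.cr p s)))
    ((D.pv A)⁻¹ * c.g⁻¹) (by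
      rw [e6, len_inv, ht, hN]; omega)
  rw [← hK, b1] at c1
  rw [e6, b2] at c2
  exact ⟨c1, c2, b1, by omega⟩

theorem vertex_right {c : D.Tr} (ht : len c.K = 2 * len c.g + D.np c.X) {A Z : List (Sy D.n)}
    {p : ZMod D.n} {s : Bool} (hX : c.X = A ++ Sy.port p s :: Z) :
    (lst c.K).take (len c.g + D.np A) = lst (c.g * D.pv A) ∧
    (lst c.K).take (len c.g + D.np A + 1) = lst (c.g * D.pv A * tt ((), D.cr p s)) ∧
    len (c.g * D.pv A) = len c.g + D.np A ∧
    len (c.g * D.pv A * tt ((), D.cr p s)) = len (c.g * D.pv A) + 1 := by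
  have hK : c.K = (c.g * D.pv A) * (tt ((), D.cr p s) * (D.pv Z * c.g⁻¹)) := by
    rw [Tr.K, KK, hX, pv_append, pv_cons]
    rw [show D.val (Sy.port p s) = tt ((), D.cr p s) from rfl]
    simp only [mul_assoc]
  have hN : D.np c.X = D.np A + (1 + D.np Z) := by rw [hX]; simp [pc]
  have a1 : len (c.g * D.pv A) ≤ len c.g + D.np A := by
    refine (len_mul_le _ _).trans ?_
    have := D.len_pv_le A
    omega
  have a2 : len (D.pv Z * c.g⁻¹) ≤ D.np Z + len c.g := by
    refine (len_mul_le _ _).trans ?_
    rw [len_inv]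
    have := D.len_pv_le Z
    omega
  have a3 : len (tt ((), D.cr p s) * (D.pv Z * c.g⁻¹) : FF H Unit) ≤
      1 + len (D.pv Z * c.g⁻¹) := by
    refine (len_mul_le _ _).trans ?_
    rw [len_tt]
  have a4 := len_mul_le (c.g * D.pv A) (tt ((), D.cr p s) * (D.pv Z * c.g⁻¹))
  have a5 : len (c.g * D.pv A * tt ((), D.cr p s)) ≤ len (c.g * D.pv A) + 1 := by
    refine (len_mul_le _ _).trans ?_
    rw [len_tt]
  have a6 := len_mul_le (c.g * D.pv A * tt ((), D.cr p s)) (D.pv Z * c.g⁻¹)
  have e6 : (c.g * D.pv A * tt ((), D.cr p s)) * (D.pv Z * c.g⁻¹) = c.K := by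
    rw [hK]; simp only [mul_assoc]
  rw [e6, ht, hN] at a6
  rw [← hK, ht, hN] at a4
  have b1 : len (c.g * D.pv A) = len c.g + D.np A := by omega
  have b2 : len (c.g * D.pv A * tt ((), D.cr p s)) = len c.g + D.np A + 1 := by omega
  have c1 := lst_take_of_len (c.g * D.pv A) (tt ((), D.cr p s) * (D.pv Z * c.g⁻¹)) (by
      rw [← hK, ht, hN]; omega)
  have c2 := lst_take_of_len (c.g * D.pv A * tt ((), D.cr p s)) (D.pv Z * c.g⁻¹) (by
      rw [e6, ht, hN]; omega)
  rw [← hK, b1] at c1
  rw [e6, b2] at c2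
  exact ⟨c1, c2, b1, by omega⟩

/-- merging two consecutive entries at an index -/
theorem merge_at {c c' : D.Tr} (hc : c.Good) (hc' : c'.Good)
    (ht : len c.K = 2 * len c.g + D.np c.X) (ht' : len c'.K = 2 * len c'.g + D.np c'.X)
    {A Z A' Z' : List (Sy D.n)} {p p' : ZMod D.n} {s s' : Bool}
    (hX : c.X = A ++ Sy.port p s :: Z) (hX' : c'.X = A' ++ Sy.port p' s' :: Z')
    (hj : len c.g + D.np Z = len c'.g + D.np A')
    (hd : len c.g + D.np Z + 1 ≤ lcp (lst c.K⁻¹) (lst c'.K)) :
    NN D.R (c.l + c'.l - 2) (c.K * c'.K) ∨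
      ∃ c'' : D.Tr, c''.Good ∧ c''.l = c.l + c'.l ∧ c''.K = c.K * c'.K := by
  obtain ⟨a1, a2, a3, a4⟩ := vertex_left ht hX
  obtain ⟨b1, b2, b3, b4⟩ := vertex_right ht' hX'
  have h1 := (le_lcp_iff _ _ _).mp hd
  have h2 : len c.g + D.np Z ≤ lcp (lst c.K⁻¹) (lst c'.K) := by omega
  have h2' := (le_lcp_iff _ _ _).mp h2
  have e1 : lst (c.g * (D.pv Z)⁻¹) = lst (c'.g * D.pv A') := by
    rw [← a1, ← b1, h2'.1, hj]
  have e2 : lst (c.g * (D.pv Z)⁻¹ * tt (fl ((), D.cr p s))) =
      lst (c'.g * D.pv A' * tt ((), D.cr p' s')) := by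
    rw [← a2, ← b2, h1.1, hj]
  obtain ⟨f1, f2⟩ := eq_of_edges _ _ _ _ e1 e2 a4
  have hcr : D.cr p s = !D.cr p' s' := by
    simp only [fl, Prod.mk.injEq, true_and] at f2
    rw [← f2]; simp
  have g1 := hc.1
  rw [hX] at g1
  have e3 : A ++ Sy.port p s :: Z = (A ++ [Sy.port p s]) ++ Z := by simp
  rw [e3] at g1
  have g2 := g1.rot'
  rw [← List.append_assoc] at g2
  have g1' := hc'.1
  rw [hX'] at g1'
  have g2' := g1'.rot
  rw [List.cons_append, ← f1] at g2'
  have hK1 : D.KK (c.g * (D.pv Z)⁻¹) (Z ++ A ++ [Sy.port p s]) = c.K := by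
    rw [Tr.K, hX]
    simp only [KK, pv_append, pv_cons, pv_nil]; group
  have hK2 : D.KK (c.g * (D.pv Z)⁻¹) (Sy.port p' s' :: (Z' ++ A')) = c'.K := by
    rw [Tr.K, hX', f1]
    simp only [KK, pv_append, pv_cons, pv_nil]; group
  by_cases hpq : p = p'
  · left
    subst hpq
    have := g2.merge_dipole g2' hcr
    rwa [hK1, hK2] at this
  · right
    have h5 := g2.merge g2' hcr hpq
    obtain ⟨g', X', h6, h7, h8, h9⟩ := h5.start
    refine ⟨⟨c.l + c'.l, g', X'⟩, ⟨h6, h7⟩, rfl, ?_⟩
    have hv : D.val (.port p s) = (D.val (.port p' s'))⁻¹ := by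
      simp only [val]
      rw [hcr, tB_not]
    rw [← hK1, ← hK2]
    show D.KK g' X' = _
    rw [h8]
    simp only [KK, pv_append, pv_cons, pv_nil, hv]
    group

/-- junction -/
theorem junction (Q : List (FF H Unit)) : ∀ (a k : FF H Unit), len a < len (a * k) →
    len (a * k * Q.prod) < len (a * k) →
    ∃ Q1 k1 k2 Q2, k :: Q = Q1 ++ k1 :: k2 :: Q2 ∧
      len (a * Q1.prod) < len (a * Q1.prod * k1) ∧
      len (a * Q1.prod * k1 * k2) ≤ len (a * Q1.prod * k1) := by
  induction Q with
  | nil =>
    intro a k h1 h2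
    simp at h2
  | cons b Q ih =>
    intro a k h1 h2
    by_cases h3 : len (a * k * b) ≤ len (a * k)
    · exact ⟨[], k, b, Q, rfl, by simpa using h1, by simpa using h3⟩
    · rw [not_le] at h3
      have h4 : len (a * k * b * Q.prod) < len (a * k * b) := by
        rw [List.prod_cons, ← mul_assoc] at h2
        omega
      obtain ⟨Q1, k1, k2, Q2, e, f1, f2⟩ := ih (a * k) b h3 h4
      refine ⟨k :: Q1, k1, k2, Q2, by rw [e]; rfl, ?_, ?_⟩
      · simpa [mul_assoc] using f1
      · simpa [mul_assoc] using f2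

/-- total number of ports -/
def nsum (Q : List D.Tr) : ℕ := (Q.map fun c => D.np c.X).sum
/-- total length of conjugators -/
noncomputable def dsum (Q : List D.Tr) : ℕ := (Q.map fun c => len c.g).sum
/-- weighted sum of lengths -/
noncomputable def wt : List D.Tr → ℕ
  | [] => 0
  | c :: Q => (Q.length + 1) * len c.g + wt Q

theorem wt_append (Q Q' : List D.Tr) : wt (Q ++ Q') = wt Q + Q'.length * dsum Q + wt Q' := by
  induction Q with
  | nil => simp [wt, dsum]
  | cons c Q ih =>
    simp only [List.cons_append, wt, ih, List.length_append]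
    have : dsum (c :: Q) = len c.g + dsum Q := by simp [dsum]
    rw [this]
    ring

/-- good tuples -/
structure GT (n0 : ℤ) (x : FF H Unit) (Q : List D.Tr) : Prop where
  good : ∀ c ∈ Q, c.Good
  area : (Q.map fun c => c.l).sum = n0
  prod : (Q.map fun c => c.K).prod = x

theorem GT_NN (Q : List D.Tr) (h : ∀ c ∈ Q, c.Good) :
    NN D.R ((Q.map fun c => c.l).sum) ((Q.map fun c => c.K).prod) := by
  induction Q with
  | nil => simpa using NN_one D.R
  | cons c Q ih =>
    simp only [List.map_cons, List.sum_cons, List.prod_cons]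
    exact NN_mul (h c (by simp)).1.mem (ih fun c' hc' => h c' (by simp [hc']))

/-- replacing a part of a tuple -/
theorem GT.replace {n0 : ℤ} {x : FF H Unit} {Q1 P Q2 P' : List D.Tr}
    (h : GT n0 x (Q1 ++ P ++ Q2)) (hg : ∀ c ∈ P', c.Good)
    (h1 : (P'.map fun c => c.l).sum = (P.map fun c => c.l).sum)
    (h2 : (P'.map fun c => c.K).prod = (P.map fun c => c.K).prod) :
    GT n0 x (Q1 ++ P' ++ Q2) := by
  refine ⟨?_, ?_, ?_⟩
  · intro c hc
    rw [List.mem_append, List.mem_append] at hc
    rcases hc with (hc | hc) | hc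
    · exact h.good c (by simp [hc])
    · exact hg c hc
    · exact h.good c (by simp [hc])
  · rw [← h.area]
    simp only [List.map_append, List.sum_append, h1]
  · rw [← h.prod]
    simp only [List.map_append, List.prod_append, h2]

/-- a shorter expression for a part -/
theorem GT.shorten {n0 : ℤ} {x : FF H Unit} {Q1 P Q2 : List D.Tr}
    (h : GT n0 x (Q1 ++ P ++ Q2))
    (h1 : NN D.R ((P.map fun c => c.l).sum - 2) ((P.map fun c => c.K).prod)) :
    NN D.R (n0 - 2) x := by
  have a1 := GT_NN Q1 (fun c hc => h.good c (by simp [hc]))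
  have a2 := GT_NN Q2 (fun c hc => h.good c (by simp [hc]))
  refine NN_of_eq (NN_mul (NN_mul a1 h1) a2) ?_ ?_
  · rw [← h.area]
    simp only [List.map_append, List.sum_append]; ring
  · rw [← h.prod]
    simp only [List.map_append, List.prod_append]

theorem Tr.Good.conj {c : D.Tr} (hc : c.Good) (a : FF H Unit) :
    (⟨c.l, a * c.g, c.X⟩ : D.Tr).Good := ⟨hc.1.conj a, hc.2⟩

theorem Tr.K_conj (c : D.Tr) (a : FF H Unit) :
    (⟨c.l, a * c.g, c.X⟩ : D.Tr).K = a * c.K * a⁻¹ := by
  simp only [Tr.K, KK]; group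

/-- the recursion -/
theorem no_tuple (n0 : ℤ) (x : FF H Unit) (hx : len x = 0) (hx1 : x ≠ 1)
    (hmin : ¬ NN D.R (n0 - 2) x) :
    ∀ (s N d w : ℕ) (Q : List D.Tr), Q.length = s → nsum Q = N → dsum Q = d → wt Q = w →
      ¬ GT n0 x Q := by
  intro s
  induction s using Nat.strong_induction_on with
  | _ s ihs =>
  intro N
  induction N using Nat.strong_induction_on with
  | _ N ihN =>
  intro d
  induction d using Nat.strong_induction_on with
  | _ d ihd =>
  intro w
  induction w using Nat.strong_induction_on with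
  | _ w ihw =>
  intro Q hs hN hd hw hQ
  -- all entries are tight
  have htight : ∀ c ∈ Q, len c.K = 2 * len c.g + D.np c.X := by
    intro c hc
    refine tight (hQ.good c hc) ?_
    intro hr
    obtain ⟨Q1, Q2, rfl⟩ := List.append_of_mem hc
    have hQ' : GT n0 x (Q1 ++ [c] ++ Q2) := by simpa using hQ
    rcases hr with hr | ⟨c', h1, h2, h3, h4⟩
    · apply hmin
      refine hQ'.shorten ?_
      simpa using hr
    · have hQ2 := hQ'.replace (P' := [c']) (by simpa using h1) (by simp [h2]) (by simp [h3])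
      have hlen : (Q1 ++ [c'] ++ Q2).length = s := by rw [← hs]; simp
      rcases h4 with h4 | ⟨h4, h5⟩
      · refine ihN (nsum (Q1 ++ [c'] ++ Q2)) ?_ _ _ _ hlen rfl rfl rfl hQ2
        rw [← hN]
        simp [nsum]
        exact h4
      · refine ihd (dsum (Q1 ++ [c'] ++ Q2)) ?_ _ _ hlen ?_ rfl rfl hQ2
        · rw [← hd]
          simp [dsum]
          exact h5
        · rw [← hN]
          simp [nsum]
          exact h4
  cases Q with
  | nil =>
    apply hx1
    rw [← hQ.prod]; simp
  | cons c0 Q0 =>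
    have hpos : ∀ c ∈ c0 :: Q0, 0 < D.np c.X := fun c hc => (hQ.good c hc).1.np_pos
    have h0 := htight c0 (by simp)
    have h0' := hpos c0 (by simp)
    have hj := junction (Q0.map fun c => c.K) 1 c0.K (by simp; omega) (by
      have : (1 : FF H Unit) * c0.K * (Q0.map fun c => c.K).prod = x := by
        rw [← hQ.prod]; simp
      rw [this, hx]
      simp; omega)
    obtain ⟨L1, k1, k2, L2, e, f1, f2⟩ := hj
    rw [← List.map_cons (f := fun c : D.Tr => c.K)] at e
    obtain ⟨Q1, R1, hQ1, rfl, e2⟩ := List.map_eq_append_iff.mp e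
    obtain ⟨c, R2, rfl, rfl, e3⟩ := List.map_eq_cons_iff.mp e2
    obtain ⟨c', Q2, rfl, rfl, rfl⟩ := List.map_eq_cons_iff.mp e3
    rw [hQ1] at hQ htight hpos hs hN hd hw
    clear h0 h0' e e2 e3 hQ1
    simp only [one_mul] at f1 f2
    set a := (Q1.map fun c => c.K).prod with ha
    have hQ' : GT n0 x (Q1 ++ [c, c'] ++ Q2) := by simpa using hQ
    have gc := hQ.good c (by simp)
    have gc' := hQ.good c' (by simp)
    have tc := htight c (by simp)
    have tc' := htight c' (by simp)
    have pc := hpos c (by simp)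
    have pc' := hpos c' (by simp)
    -- distances
    have l1 := len_mul (a * c.K) c.K⁻¹
    have l2 := len_mul (a * c.K) c'.K
    have e1 : a * c.K * c.K⁻¹ = a := by group
    rw [e1, len_inv] at l1
    have hmn := lcp_min (lst c.K⁻¹) (lst c'.K) (lst (a * c.K)⁻¹)
    rw [lcp_comm (lst c.K⁻¹) (lst (a * c.K)⁻¹), lcp_comm (lst c'.K) (lst (a * c.K)⁻¹)] at hmn
    set P := lcp (lst (a * c.K)⁻¹) (lst c.K⁻¹) with hP
    set Qr := lcp (lst (a * c.K)⁻¹) (lst c'.K) with hQr
    set δ := lcp (lst c.K⁻¹) (lst c'.K) with hδ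
    have m1 : len c.K < 2 * P := by omega
    have m2 : len c'.K ≤ 2 * Qr := by omega
    -- merging
    have hmerge : ∀ (A Z A' Z' : List (Sy D.n)) (p p' : ZMod D.n) (s s' : Bool),
        c.X = A ++ Sy.port p s :: Z → c'.X = A' ++ Sy.port p' s' :: Z' →
        len c.g + D.np Z = len c'.g + D.np A' → len c.g + D.np Z + 1 ≤ δ → False := by
      intro A Z A' Z' p p' s1 s1' hX hX' hj hd1
      rcases merge_at gc gc' tc tc' hX hX' hj hd1 with h | ⟨c'', g1, g2, g3⟩
      · apply hmin
        refine hQ'.shorten ?_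
        simpa using h
      · have hQ2 := hQ'.replace (P' := [c'']) (by simpa using g1) (by simp [g2])
          (by simp [g3])
        refine ihs _ ?_ _ _ _ _ rfl rfl rfl rfl hQ2
        rw [← hs]; simp
    -- swaps
    have lenX : ∀ c1 c2 : D.Tr, (Q1 ++ [c1, c2] ++ Q2).length = s := by
      intro c1 c2
      rw [← hs]; simp
    rcases le_or_gt (len c.g) (len c'.g) with hdd | hdd
    · by_cases hsw : len c.K < 2 * min δ (len c'.g)
      · -- swap to (K K' K⁻¹, K)
        set c1 : D.Tr := ⟨c'.l, c.K * c'.g, c'.X⟩ with hc1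
        have k1 := gc'.conj c.K
        have k2 := Tr.K_conj c' c.K
        have hQ2 := hQ'.replace (P' := [c1, c]) (by
            intro b hb
            simp only [List.mem_cons, List.not_mem_nil, or_false] at hb
            rcases hb with rfl | rfl
            · exact k1
            · exact gc) (by simp [hc1, add_comm]) (by
            simp only [List.map_cons, List.map_nil, List.prod_cons, List.prod_nil, mul_one]
            rw [hc1, k2]; group)
        have hlen : len c1.g < len c'.g := by
          show len (c.K * c'.g) < len c'.g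
          have l3 := len_mul c.K c'.g
          obtain ⟨A0, p0, s0, Z0, hX0, hA0⟩ := D.split_initial c'.X 0 pc'
          have v := (vertex_right tc' hX0)
          have hA1 : len (D.pv A0) = 0 := by
            have := D.len_pv_le A0
            omega
          obtain ⟨h', hh'⟩ := (len_eq_zero _).mp hA1
          rw [hh'] at v
          have hv := v.1
          rw [lst_mul_hh, hA0, add_zero] at hv
          have hl : min δ (len c'.g) ≤ lcp (lst c.K⁻¹) (lst c'.g) := by
            rw [le_lcp_iff]
            have h5 : min δ (len c'.g) ≤ lcp (lst c.K⁻¹) (lst c'.K) := min_le_left _ _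
            rw [le_lcp_iff] at h5
            refine ⟨?_, h5.2.1, min_le_right _ _⟩
            rw [h5.1, ← hv, List.take_take]
            congr 1
            omega
          omega
        refine ihd (dsum (Q1 ++ [c1, c] ++ Q2)) ?_ _ _ (lenX _ _) ?_ rfl rfl hQ2
        · rw [← hd]
          simp [dsum]
          omega
        · rw [← hN]
          simp [nsum, hc1]
          omega
      · rw [not_lt] at hsw
        have h6 : len c'.g < δ := by
          by_contra h7
          rw [not_lt] at h7
          rw [min_eq_left h7] at hsw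
          omega
        rw [min_eq_right h6.le] at hsw
        obtain ⟨A, p, s1, Z, hX, hZ⟩ := D.split_suffix c.X (len c'.g - len c.g) (by omega)
        obtain ⟨A', p', s1', Z', hX', hA'⟩ := D.split_initial c'.X 0 pc'
        exact hmerge A Z A' Z' p p' s1 s1' hX hX' (by omega) (by omega)
    · by_cases hsw : len c'.K ≤ 2 * min δ (len c.g)
      · set c1 : D.Tr := ⟨c.l, c'.K⁻¹ * c.g, c.X⟩ with hc1
        have k1 := gc.conj c'.K⁻¹
        have k2 := Tr.K_conj c c'.K⁻¹
        have hQ2 := hQ'.replace (P' := [c', c1]) (by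
            intro b hb
            simp only [List.mem_cons, List.not_mem_nil, or_false] at hb
            rcases hb with rfl | rfl
            · exact gc'
            · exact k1) (by simp [hc1, add_comm]) (by
            simp only [List.map_cons, List.map_nil, List.prod_cons, List.prod_nil, mul_one]
            rw [hc1, k2]; group)
        have hlen : len c1.g ≤ len c.g := by
          show len (c'.K⁻¹ * c.g) ≤ len c.g
          have l3 := len_mul c'.K⁻¹ c.g
          rw [inv_inv, len_inv] at l3
          obtain ⟨A0, p0, s0, Z0, hX0, hZ0⟩ := D.split_suffix c.X 0 pc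
          have v := (vertex_left tc hX0)
          have hA1 : len (D.pv Z0)⁻¹ = 0 := by
            rw [len_inv]
            have := D.len_pv_le Z0
            omega
          obtain ⟨h', hh'⟩ := (len_eq_zero _).mp hA1
          rw [hh'] at v
          have hv := v.1
          rw [lst_mul_hh, hZ0, add_zero] at hv
          have hl : min δ (len c.g) ≤ lcp (lst c'.K) (lst c.g) := by
            rw [le_lcp_iff]
            have h5 : min δ (len c.g) ≤ lcp (lst c.K⁻¹) (lst c'.K) := min_le_left _ _
            rw [le_lcp_iff] at h5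
            refine ⟨?_, h5.2.2, min_le_right _ _⟩
            rw [← h5.1, ← hv, List.take_take]
            congr 1
            omega
          omega
        rcases lt_or_eq_of_le hlen with hlen | hlen
        · refine ihd (dsum (Q1 ++ [c', c1] ++ Q2)) ?_ _ _ (lenX _ _) ?_ rfl rfl hQ2
          · rw [← hd]
            simp [dsum]
            omega
          · rw [← hN]
            simp [nsum, hc1]
            omega
        · refine ihw (wt (Q1 ++ [c', c1] ++ Q2)) ?_ _ (lenX _ _) ?_ ?_ rfl hQ2
          · rw [← hw]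
            have : Q1 ++ c :: c' :: Q2 = Q1 ++ [c, c'] ++ Q2 := by simp
            rw [this, wt_append, wt_append, wt_append, wt_append]
            have e4 : dsum (Q1 ++ [c', c1]) = dsum (Q1 ++ [c, c']) := by
              simp only [dsum, List.map_append, List.sum_append, List.map_cons, List.map_nil,
                List.sum_cons, List.sum_nil]
              omega
            rw [e4]
            simp only [wt, List.length_cons, List.length_nil]
            rw [hlen]
            omega
          · rw [← hN]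
            simp [nsum, hc1]
            omega
          · rw [← hd]
            simp only [dsum, List.map_append, List.sum_append, List.map_cons, List.map_nil,
                List.sum_cons, List.sum_nil]
            omega
      · rw [not_le] at hsw
        have h6 : len c.g < δ := by
          by_contra h7
          rw [not_lt] at h7
          rw [min_eq_left h7] at hsw
          omega
        rw [min_eq_right h6.le] at hsw
        obtain ⟨A, p, s1, Z, hX, hZ⟩ := D.split_suffix c.X 0 pc
        obtain ⟨A', p', s1', Z', hX', hA'⟩ := D.split_initial c'.X (len c.g - len c'.g)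
          (by omega)
        exact hmerge A Z A' Z' p p' s1 s1' hX hX' (by omega) (by omega)

end Dat

end Run7.h847
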