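import Mathlib
import Pool.Agent.Run7.h847.Nielsen

set_option autoImplicit false
set_option linter.unusedSectionVars false
set_option linter.unusedSimpArgs false

namespace Run7.h847

open Monoid

open Sy

variable {H Ω : Type} [Group H] [LinearOrder Ω]

namespace Dat

variable (D : Dat H Ω)

theorem Bz_zero (p : ZMod D.n) : D.Bz p 0 = 1 := by simp [Bz]

theorem Bz_one (p : ZMod D.n) : D.Bz p 1 = D.blk p := by simp [Bz]

theorem Bz_succ (p : ZMod D.n) (k : ℕ) : D.Bz p (k + 1) = D.blk p * D.Bz (p + 1) k := by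
  have := D.Bz_add p 1 k
  rw [Bz_one, add_comm 1 k] at this
  simpa using this

theorem Bz_succ' (p : ZMod D.n) (k : ℕ) : D.Bz p (k + 1) = D.Bz p k * D.blk (p + k) := by
  have := D.Bz_add p k 1
  rwa [Bz_one] at this

/-- positive word -/
def Xp : ℕ → ZMod D.n → List (Sy D.n)
  | 0, _ => []
  | k + 1, p => .port p true :: .corner p true :: Xp k (p + 1)

/-- negative word -/
def Xm : ℕ → ZMod D.n → List (Sy D.n)
  | 0, _ => []
  | k + 1, p => .corner (p + (k : ℕ)) false :: .port (p + (k : ℕ)) false :: Xm k p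

theorem val_port_true (p : ZMod D.n) : D.val (.port p true) = tB (D.e p) := by
  simp [val, cr]

theorem val_port_false (p : ZMod D.n) : D.val (.port p false) = (tB (D.e p))⁻¹ := by
  rw [← tB_not]
  simp [val, cr]

theorem pv_Xp (k : ℕ) : ∀ p, D.pv (D.Xp k p) = D.Bz p k := by
  induction k with
  | zero => intro p; simp [Xp, Bz_zero]
  | succ k ih =>
    intro p
    rw [Xp, pv_cons, pv_cons, ih, Bz_succ, val_port_true, blk]
    simp [val, ltr, mul_assoc]

theorem pv_Xm (k : ℕ) : ∀ p, D.pv (D.Xm k p) = (D.Bz p k)⁻¹ := by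
  induction k with
  | zero => intro p; simp [Xm, Bz_zero]
  | succ k ih =>
    intro p
    rw [Xm, pv_cons, pv_cons, ih, Bz_succ', val_port_false, blk]
    simp [val, ltr, mul_assoc]

theorem head_Xp (k : ℕ) (p : ZMod D.n) : (D.Xp (k + 1) p).head? = some (.port p true) := rfl

theorem head_Xm (k : ℕ) (p : ZMod D.n) :
    (D.Xm (k + 1) p).head? = some (.corner (p + (k : ℕ)) false) := rfl

theorem last_Xp (k : ℕ) : ∀ p, (D.Xp (k + 1) p).getLast? = some (.corner (p + (k : ℕ)) true) := by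
  induction k with
  | zero => intro p; simp [Xp]
  | succ k ih =>
    intro p
    rw [Xp, Xp, List.getLast?_cons_cons, List.getLast?_cons_cons]
    have := ih (p + 1)
    rw [Xp] at this
    rw [this]
    push_cast
    congr 2
    ring

theorem last_Xm (k : ℕ) (p : ZMod D.n) : (D.Xm (k + 1) p).getLast? = some (.port p false) := by
  induction k with
  | zero => simp [Xm]
  | succ k ih =>
    rw [Xm, Xm, List.getLast?_cons_cons, List.getLast?_cons_cons]
    rw [Xm] at ih
    rw [ih]

theorem chain_Xp (k : ℕ) : ∀ p, List.IsChain D.ok (D.Xp k p) := by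
  induction k with
  | zero => intro p; simp [Xp]
  | succ k ih =>
    intro p
    cases k with
    | zero =>
      simp [Xp, ok, en]
    | succ k =>
      have := ih (p + 1)
      rw [Xp] at this ⊢
      rw [Xp]
      rw [List.isChain_cons_cons, List.isChain_cons_cons]
      exact ⟨by simp [ok, en], by simp [ok, ex], this⟩

theorem chain_Xm (k : ℕ) (p : ZMod D.n) : List.IsChain D.ok (D.Xm k p) := by
  induction k with
  | zero => simp [Xm]
  | succ k ih =>
    cases k with
    | zero =>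
      simp [Xm, ok, ex]
    | succ k =>
      rw [Xm] at ih ⊢
      rw [Xm]
      rw [List.isChain_cons_cons, List.isChain_cons_cons]
      refine ⟨by simp [ok, ex], ?_, ih⟩
      simp [ok, en]
      ring

theorem mn_cast : ((D.m * D.n : ℕ) : ZMod D.n) = 0 := by simp

theorem mn_pos : 0 < D.m * D.n := Nat.mul_pos D.hm (by have := D.hn; omega)

theorem Chn_Xp : D.Chn (D.Xp (D.m * D.n) 0) := by
  refine ⟨D.chain_Xp _ _, ?_⟩
  obtain ⟨k, hk⟩ : ∃ k, D.m * D.n = k + 1 := ⟨D.m * D.n - 1, by have := D.mn_pos; omega⟩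
  have hc := D.mn_cast
  rw [hk] at hc
  rw [hk, last_Xp, head_Xp]
  intro a ha b hb
  rw [Option.mem_def, Option.some.injEq] at ha hb
  subst ha hb
  refine ⟨?_, rfl⟩
  simp only [ex]
  push_cast at hc
  simp [hc]

theorem Chn_Xm : D.Chn (D.Xm (D.m * D.n) 0) := by
  refine ⟨D.chain_Xm _ _, ?_⟩
  obtain ⟨k, hk⟩ : ∃ k, D.m * D.n = k + 1 := ⟨D.m * D.n - 1, by have := D.mn_pos; omega⟩
  have hc := D.mn_cast
  rw [hk] at hc
  rw [hk, last_Xm, head_Xm]
  intro a ha b hb
  rw [Option.mem_def, Option.some.injEq] at ha hb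
  subst ha hb
  refine ⟨?_, rfl⟩
  simp only [en]
  push_cast at hc
  simp [hc]

theorem nc_Xp (k : ℕ) : ∀ p, D.nc (D.Xp k p) = k := by
  induction k with
  | zero => intro p; simp [Xp]
  | succ k ih => intro p; rw [Xp, nc_cons, nc_cons, ih]; simp [cc]; ring

theorem nc_Xm (k : ℕ) (p : ZMod D.n) : D.nc (D.Xm k p) = k := by
  induction k with
  | zero => simp [Xm]
  | succ k ih => rw [Xm, nc_cons, nc_cons, ih]; simp [cc]; ring

theorem np_Xp (k : ℕ) : ∀ p, D.np (D.Xp k p) = k := by
  induction k with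
  | zero => intro p; simp [Xp]
  | succ k ih => intro p; rw [Xp, np_cons, np_cons, ih]; simp [pc]; ring

theorem np_Xm (k : ℕ) (p : ZMod D.n) : D.np (D.Xm k p) = k := by
  induction k with
  | zero => simp [Xm]
  | succ k ih => rw [Xm, np_cons, np_cons, ih]; simp [pc]; ring

theorem bc_nonneg (a : Sy D.n) : 0 ≤ D.bc a := by
  cases a with
  | corner i t => simp [bc]
  | port p s => simp only [bc]; split_ifs <;> norm_num

theorem nb_nonneg (X : List (Sy D.n)) : 0 ≤ D.nb X := by
  induction X with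
  | nil => simp
  | cons a X ih =>
    rw [nb_cons]
    have := D.bc_nonneg a
    linarith

theorem nb_pos (X : List (Sy D.n)) (s : Bool) (h : Sy.port D.M s ∈ X) : 1 ≤ D.nb X := by
  obtain ⟨A, B, rfl⟩ := List.append_of_mem h
  rw [nb_append, nb_cons]
  have h1 := D.nb_nonneg A
  have h2 := D.nb_nonneg B
  have h3 : D.bc (Sy.port D.M s) = 1 := by simp [bc]
  linarith

theorem mem_Xp (k : ℕ) : ∀ (p : ZMod D.n) (j : ℕ), j < k →
    Sy.port (p + (j : ZMod D.n)) true ∈ D.Xp k p := by
  induction k with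
  | zero => intro p j hj; omega
  | succ k ih =>
    intro p j hj
    rw [Xp]
    cases j with
    | zero => simp
    | succ j =>
      have := ih (p + 1) j (by omega)
      have e : p + 1 + (j : ℕ) = p + ((j + 1 : ℕ) : ZMod D.n) := by push_cast; ring
      rw [e] at this
      exact List.mem_cons_of_mem _ (List.mem_cons_of_mem _ this)

theorem mem_Xm (k : ℕ) (p : ZMod D.n) : ∀ j : ℕ, j < k →
    Sy.port (p + (j : ZMod D.n)) false ∈ D.Xm k p := by
  induction k with
  | zero => intro j hj; omega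
  | succ k ih =>
    intro j hj
    rw [Xm]
    by_cases h : j = k
    · subst h; simp
    · have := ih j (by omega)
      simp [this]

theorem ps_Xp (k : ℕ) : ∀ p, D.ps (D.Xp k p) = 0 := by
  induction k with
  | zero => intro p; simp [Xp, ps]
  | succ k ih =>
    intro p
    rw [Xp, ps_cons, ps_cons, ih, jn_port_left]
    cases k with
    | zero => simp [Xp]
    | succ k => rw [head_Xp, jn_port_right]; simp

theorem ps_Xm (k : ℕ) (p : ZMod D.n) : D.ps (D.Xm k p) = 0 := by
  induction k with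
  | zero => simp [Xm, ps]
  | succ k ih =>
    rw [Xm, ps_cons, ps_cons, ih, jn_port_left, List.head?_cons, jn_port_right]
    simp

theorem M_val : D.M.val < D.m * D.n := by
  have h1 := ZMod.val_lt D.M
  have h2 : D.n ≤ D.m * D.n := Nat.le_mul_of_pos_left _ D.hm
  omega

theorem Inv_Xp : D.Inv (D.Xp (D.m * D.n) 0) := by
  have h1 : D.cs (D.Xp (D.m * D.n) 0) = 0 := by
    obtain ⟨k, hk⟩ : ∃ k, D.m * D.n = k + 1 := ⟨D.m * D.n - 1, by have := D.mn_pos; omega⟩
    rw [hk]
    simp only [cs]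
    rw [ps_Xp, head_Xp, jn_port_right]
    simp
  have h2 : 1 ≤ D.nb (D.Xp (D.m * D.n) 0) := by
    apply D.nb_pos _ true
    have := D.mem_Xp (D.m * D.n) 0 D.M.val D.M_val
    simpa using this
  simp only [Inv]
  rw [h1, nc_Xp, np_Xp]
  linarith

theorem Inv_Xm : D.Inv (D.Xm (D.m * D.n) 0) := by
  have h1 : D.cs (D.Xm (D.m * D.n) 0) = 0 := by
    obtain ⟨k, hk⟩ : ∃ k, D.m * D.n = k + 1 := ⟨D.m * D.n - 1, by have := D.mn_pos; omega⟩
    rw [hk]
    simp only [cs]
    rw [ps_Xm, last_Xm, jn_port_left]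
    simp
  have h2 : 1 ≤ D.nb (D.Xm (D.m * D.n) 0) := by
    apply D.nb_pos _ false
    have := D.mem_Xm (D.m * D.n) 0 D.M.val D.M_val
    simpa using this
  simp only [Inv]
  rw [h1, nc_Xm, np_Xm]
  linarith

theorem take_Xp (k : ℕ) : ∀ (p : ZMod D.n) (i : ℕ) (q : ZMod D.n) (s : Bool),
    (D.Xp k p)[i]? = some (.port q s) →
    ∃ j, j < k ∧ q = p + (j : ℕ) ∧ s = true ∧ D.pv ((D.Xp k p).take i) = D.Bz p j := by
  induction k with
  | zero => intro p i q s h; simp [Xp] at h
  | succ k ih =>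
    intro p i q s h
    rw [Xp] at h
    match i, h with
    | 0, h =>
      simp only [List.getElem?_cons_zero, Option.some.injEq, Sy.port.injEq] at h
      obtain ⟨rfl, rfl⟩ := h
      exact ⟨0, by omega, by simp, rfl, by simp [Bz_zero]⟩
    | 1, h => simp at h
    | i + 2, h =>
      have h' : (D.Xp k (p + 1))[i]? = some (.port q s) := by simpa using h
      obtain ⟨j, h1, h2, h3, h4⟩ := ih (p + 1) i q s h'
      refine ⟨j + 1, by omega, by rw [h2]; push_cast; ring, h3, ?_⟩
      rw [Xp, List.take_succ_cons, List.take_succ_cons, pv_cons, pv_cons, h4, Bz_succ,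
        val_port_true, blk]
      simp [val, ltr, mul_assoc]

theorem take_Xm (k : ℕ) (p : ZMod D.n) : ∀ (i : ℕ) (q : ZMod D.n) (s : Bool),
    (D.Xm k p)[i]? = some (.port q s) →
    ∃ j, j < k ∧ q = p + (j : ℕ) ∧ s = false ∧
      D.pv ((D.Xm k p).take i) = (D.Bz q (k - j))⁻¹ * tB (D.e q) := by
  induction k with
  | zero => intro i q s h; simp [Xm] at h
  | succ k ih =>
    intro i q s h
    rw [Xm] at h
    match i, h with
    | 0, h => simp at h
    | 1, h =>
      simp only [List.getElem?_cons_succ, List.getElem?_cons_zero, Option.some.injEq,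
        Sy.port.injEq] at h
      obtain ⟨rfl, rfl⟩ := h
      refine ⟨k, by omega, rfl, rfl, ?_⟩
      have : k + 1 - k = 1 := by omega
      rw [this, Bz_one, blk, Xm]
      simp [val, ltr]
    | i + 2, h =>
      have h' : (D.Xm k p)[i]? = some (.port q s) := by simpa using h
      obtain ⟨j, h1, h2, h3, h4⟩ := ih i q s h'
      refine ⟨j, by omega, h2, h3, ?_⟩
      rw [Xm, List.take_succ_cons, List.take_succ_cons, pv_cons, pv_cons, h4,
        val_port_false]
      have e1 : k + 1 - j = (k - j) + 1 := by omega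
      have e2 : q + ((k - j : ℕ) : ZMod D.n) = p + (k : ℕ) := by
        rw [h2, Nat.cast_sub h1.le]; ring
      rw [e1, Bz_succ', e2, blk]
      simp [val, ltr, mul_assoc]

theorem cl_Xp (g : FF H Unit) : D.Cl 1 g (D.Xp (D.m * D.n) 0) where
  chn := D.Chn_Xp
  inv := D.Inv_Xp
  mem := by
    simp only [KK]
    rw [pv_Xp]
    exact NN_pos g
  ext1 := by
    intro i p s h
    obtain ⟨j, h1, h2, h3, h4⟩ := D.take_Xp _ _ i p s h
    subst h3
    rw [zero_add] at h2
    have e : D.Bz 0 j * D.Bz p (D.m * D.n) = D.Bz 0 (D.m * D.n) * D.Bz 0 j := by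
      have a1 := D.Bz_add 0 j (D.m * D.n)
      have a2 := D.Bz_add 0 (D.m * D.n) j
      rw [zero_add, ← h2] at a1
      rw [zero_add, mn_cast] at a2
      rw [← a1, ← a2, add_comm]
    refine NN_of_eq (NN_one D.R) (by ring) ?_
    simp only [KK, cj, th]
    rw [h4, pv_Xp]
    have e2 : D.Bz p (D.m * D.n) = (D.Bz 0 j)⁻¹ * (D.Bz 0 (D.m * D.n) * D.Bz 0 j) := by
      rw [← e]; group
    rw [e2]
    group
  ext2 := by
    intro i j p q s hij h h'
    obtain ⟨j, h1, h2, h3, h4⟩ := D.take_Xp _ _ i p s h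
    obtain ⟨j', h1', h2', h3', h4'⟩ := D.take_Xp _ _ _ q (!s) h'
    subst h3
    simp at h3'

theorem cl_Xm (g : FF H Unit) : D.Cl 1 g (D.Xm (D.m * D.n) 0) where
  chn := D.Chn_Xm
  inv := D.Inv_Xm
  mem := by
    simp only [KK]
    rw [pv_Xm]
    exact NN_neg g
  ext1 := by
    intro i p s h
    obtain ⟨j, h1, h2, h3, h4⟩ := D.take_Xm _ _ i p s h
    subst h3
    rw [zero_add] at h2
    have e : D.Bz p (D.m * D.n) * D.Bz p (D.m * D.n - j) =
        D.Bz p (D.m * D.n - j) * D.Bz 0 (D.m * D.n) := by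
      have a1 := D.Bz_add p (D.m * D.n) (D.m * D.n - j)
      have a2 := D.Bz_add p (D.m * D.n - j) (D.m * D.n)
      rw [mn_cast, add_zero] at a1
      have e3 : p + ((D.m * D.n - j : ℕ) : ZMod D.n) = 0 := by
        rw [h2, Nat.cast_sub h1.le, mn_cast]; ring
      rw [e3] at a2
      rw [← a1, ← a2, add_comm]
    refine NN_of_eq (NN_one D.R) (by ring) ?_
    simp only [KK, cj, th]
    rw [h4, pv_Xm]
    have e2 : D.Bz p (D.m * D.n) = D.Bz p (D.m * D.n - j) * D.Bz 0 (D.m * D.n) *
        (D.Bz p (D.m * D.n - j))⁻¹ := by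
      rw [← e]; group
    rw [e2]
    group
  ext2 := by
    intro i j p q s hij h h'
    obtain ⟨j, h1, h2, h3, h4⟩ := D.take_Xm _ _ i p s h
    obtain ⟨j', h1', h2', h3', h4'⟩ := D.take_Xm _ _ _ q (!s) h'
    subst h3
    simp at h3'

/-- Theorem A: the orientation test -/
theorem thmA (a : H) (ha : (hh a : FF H Unit) ∈ Subgroup.normalClosure ({D.R} : Set (FF H Unit))) :
    a = 1 := by
  classical
  by_contra hne
  have hex := NN_of_mem ha
  have hspec := Nat.find_spec hex
  have hmin := fun k => Nat.find_min hex (m := k)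
  set k := Nat.find hex with hk
  obtain ⟨L, h1, h2, h3⟩ := hspec
  have key : ∀ L : List (FF H Unit), (∀ y ∈ L, ∃ c : FF H Unit, y = c * D.R * c⁻¹ ∨
      y = c * D.R⁻¹ * c⁻¹) → ∃ Q : List D.Tr, GT (L.length : ℤ) L.prod Q := by
    intro L
    induction L with
    | nil => intro _; exact ⟨[], by simp, by simp, by simp⟩
    | cons y L ih =>
      intro hL
      obtain ⟨Q, g1, g2, g3⟩ := ih fun y' hy' => hL y' (by simp [hy'])
      have hy : ∃ c : D.Tr, c.Good ∧ c.l = 1 ∧ c.K = y := by
        obtain ⟨c, hc | hc⟩ := hL y (by simp)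
        · obtain ⟨g', X', h6, h7, h8, h9⟩ := (D.cl_Xp c).start
          refine ⟨⟨1, g', X'⟩, ⟨h6, h7⟩, rfl, ?_⟩
          rw [hc]
          show D.KK g' X' = _
          rw [h8, KK, pv_Xp]; rfl
        · obtain ⟨g', X', h6, h7, h8, h9⟩ := (D.cl_Xm c).start
          refine ⟨⟨1, g', X'⟩, ⟨h6, h7⟩, rfl, ?_⟩
          rw [hc]
          show D.KK g' X' = _
          rw [h8, KK, pv_Xm]; rfl
      obtain ⟨c, hc1, hc2, hc3⟩ := hy
      refine ⟨c :: Q, ?_, ?_, ?_⟩
      · intro c' hc'
        rcases List.mem_cons.mp hc' with rfl | hc'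
        · exact hc1
        · exact g1 c' hc'
      · simp only [List.map_cons, List.sum_cons, List.length_cons]
        rw [g2, hc2]; push_cast; ring
      · simp only [List.map_cons, List.prod_cons]
        rw [g3, hc3]
  obtain ⟨Q, hQ⟩ := key L h1
  rw [h2, h3] at hQ
  refine no_tuple (D := D) (k : ℤ) (hh a) (by simp) ?_ ?_ _ _ _ _ Q rfl rfl rfl rfl hQ
  · intro h
    apply hne
    have : (Coprod.inl a : FF H Unit) = Coprod.inl 1 := by rw [map_one]; exact h
    exact Coprod.inl_injective this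
  · rintro ⟨L', h1', h2', h3'⟩
    refine hmin L'.length (by omega) ⟨L', h1', h2', rfl⟩

end Dat

end Run7.h847
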