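import Mathlib
import Pool.Agent.Run7.h847.Words

set_option autoImplicit false
set_option linter.unusedSectionVars false
set_option linter.unusedSimpArgs false

/-!
# Order automorphisms of the rationals
-/

namespace Run7.h847

open Monoid

/-! ### extending finite monotone partial maps -/

section Ext

open Order Order.PartialIso

variable {α β : Type} [LinearOrder α] [LinearOrder β]

theorem ext_iso [Countable α] [DenselyOrdered α] [NoMinOrder α] [NoMaxOrder α]
    [Nonempty α] [Countable β] [DenselyOrdered β] [NoMinOrder β] [NoMaxOrder β] [Nonempty β]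
    (p : PartialIso α β) : ∃ e : α ≃o β, ∀ x ∈ p.val, e x.1 = x.2 := by
  cases nonempty_encodable α
  cases nonempty_encodable β
  let to_cofinal : α ⊕ β → Cofinal (PartialIso α β) := fun p ↦
    Sum.recOn p (definedAtLeft β) (definedAtRight α)
  let our_ideal : Ideal (PartialIso α β) := idealOfCofinals p to_cofinal
  let F a := funOfIdeal a our_ideal (cofinal_meets_idealOfCofinals _ to_cofinal (Sum.inl a))
  let G b := invOfIdeal b our_ideal (cofinal_meets_idealOfCofinals _ to_cofinal (Sum.inr b))
  have hp : p ∈ our_ideal := mem_idealOfCofinals p to_cofinal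
  refine ⟨OrderIso.ofCmpEqCmp (fun a ↦ (F a).val) (fun b ↦ (G b).val) fun a b ↦ by
      rcases (F a).prop with ⟨f, hf, ha⟩
      rcases (G b).prop with ⟨g, hg, hb⟩
      rcases our_ideal.directed _ hf _ hg with ⟨m, _, fm, gm⟩
      exact m.prop (a, _) (fm ha) (_, b) (gm hb), ?_⟩
  intro x hx
  rcases (F x.1).prop with ⟨f, hf, ha⟩
  rcases our_ideal.directed _ hf _ hp with ⟨m, _, fm, gm⟩
  have h1 := m.prop (x.1, _) (fm ha) x (gm hx)
  simp only [cmp_self_eq_eq] at h1
  exact cmp_eq_eq_iff _ _ |>.mp h1.symm

/-- extension from a list of increasing pairs -/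
theorem ext_list [Countable α] [DenselyOrdered α] [NoMinOrder α] [NoMaxOrder α]
    [Nonempty α] [Countable β] [DenselyOrdered β] [NoMinOrder β] [NoMaxOrder β] [Nonempty β]
    (S : Set ℕ) (f : ℕ → α) (g : ℕ → β) (k : ℕ)
    (h : ∀ i j, i < j → j < k → i ∈ S → j ∈ S → f i < f j ∧ g i < g j) :
    ∃ e : α ≃o β, ∀ i, i < k → i ∈ S → e (f i) = g i := by
  classical
  let s : Finset (α × β) := ((Finset.range k).filter (· ∈ S)).image fun i => (f i, g i)
  have hs : ∀ x, x ∈ s ↔ ∃ i, i < k ∧ i ∈ S ∧ (f i, g i) = x := by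
    intro x
    simp only [s, Finset.mem_image, Finset.mem_filter, Finset.mem_range, and_assoc]
  let p : PartialIso α β := ⟨s, by
    intro x hx y hy
    obtain ⟨i, hi1, hi2, rfl⟩ := (hs x).mp hx
    obtain ⟨j, hj1, hj2, rfl⟩ := (hs y).mp hy
    simp only
    rcases lt_trichotomy i j with hij | hij | hij
    · have := h i j hij hj1 hi2 hj2
      rw [(cmp_eq_lt_iff _ _).mpr this.1, (cmp_eq_lt_iff _ _).mpr this.2]
    · subst hij
      rw [(cmp_eq_eq_iff _ _).mpr rfl, (cmp_eq_eq_iff _ _).mpr rfl]
    · have := h j i hij hi1 hj2 hi2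
      rw [(cmp_eq_gt_iff _ _).mpr this.1, (cmp_eq_gt_iff _ _).mpr this.2]⟩
  obtain ⟨e, he⟩ := ext_iso p
  refine ⟨e, ?_⟩
  intro i hi hiS
  exact he (f i, g i) ((hs _).mpr ⟨i, hi, hiS, rfl⟩)

end Ext

/-! ### transport -/

/-- conjugation by an order isomorphism -/
def conjHom {α β : Type} [LinearOrder α] [LinearOrder β] (e : α ≃o β) :
    (α ≃o α) →* (β ≃o β) where
  toFun f := e.symm.trans (f.trans e)
  map_one' := by ext x; simp
  map_mul' f g := by ext x; simp

/-- the lexicographic twisted product -/
def lexIso {α β : Type} [LinearOrder α] [LinearOrder β] (e : α ≃o α) (f : α → (β ≃o β)) :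
    (α ×ₗ β) ≃o (α ×ₗ β) where
  toFun p := toLex (e (ofLex p).1, f (ofLex p).1 (ofLex p).2)
  invFun p := toLex (e.symm (ofLex p).1, (f (e.symm (ofLex p).1)).symm (ofLex p).2)
  left_inv p := by simp
  right_inv p := by simp
  map_rel_iff' := by
    intro p q
    simp only [Equiv.coe_fn_mk, Prod.Lex.le_iff, ofLex_toLex, OrderIso.lt_iff_lt,
      EmbeddingLike.apply_eq_iff_eq]
    constructor
    · rintro (h | ⟨h1, h2⟩)
      · exact Or.inl h
      · right
        refine ⟨h1, ?_⟩
        rw [h1] at h2
        exact (f (ofLex q).1).le_iff_le.mp h2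
    · rintro (h | ⟨h1, h2⟩)
      · exact Or.inl h
      · right
        refine ⟨h1, ?_⟩
        rw [h1]
        exact (f (ofLex q).1).le_iff_le.mpr h2

theorem lexIso_apply {α β : Type} [LinearOrder α] [LinearOrder β] (e : α ≃o α)
    (f : α → (β ≃o β)) (a : α) (b : β) :
    lexIso e f (toLex (a, b)) = toLex (e a, f a b) := rfl

theorem lexIso_symm_apply {α β : Type} [LinearOrder α] [LinearOrder β] (e : α ≃o α)
    (f : α → (β ≃o β)) (a : α) (b : β) :
    (lexIso e f).symm (toLex (a, b)) = toLex (e.symm a, (f (e.symm a)).symm b) := rfl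

/-- action on the product by a family of actions -/
def lexHom {G α β : Type} [Group G] [LinearOrder α] [LinearOrder β] (r : α → (G →* (β ≃o β))) :
    G →* ((α ×ₗ β) ≃o (α ×ₗ β)) where
  toFun g := lexIso (OrderIso.refl α) (fun a => r a g)
  map_one' := by
    ext p
    obtain ⟨a, b⟩ := p
    show lexIso _ _ (toLex (a, b)) = _
    rw [lexIso_apply]
    simp
    rfl
  map_mul' g g' := by
    ext p
    rw [RelIso.mul_apply]
    obtain ⟨a, b⟩ := p
    show lexIso _ _ (toLex (a, b)) = lexIso _ _ (lexIso _ _ (toLex (a, b)))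
    rw [lexIso_apply, lexIso_apply, lexIso_apply]
    simp

theorem lexHom_apply {G α β : Type} [Group G] [LinearOrder α] [LinearOrder β]
    (r : α → (G →* (β ≃o β))) (g : G) (a : α) (b : β) :
    lexHom r g (toLex (a, b)) = toLex (a, r a g b) := rfl

/-- every nontrivial element moves a rational up in some action -/
def OA (G : Type) [Group G] : Prop :=
  ∀ g : G, g ≠ 1 → ∃ (ρ : G →* (ℚ ≃o ℚ)) (q : ℚ), q < ρ g q

/-- negation of the order -/
def negHom : (ℚ ≃o ℚ) →* (ℚ ≃o ℚ) where
  toFun f :=
    { toFun := fun x => - f (-x)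
      invFun := fun x => - f.symm (-x)
      left_inv := by intro x; simp
      right_inv := by intro x; simp
      map_rel_iff' := by intro x y; simp }
  map_one' := by ext x; simp
  map_mul' f g := by ext x; simp

theorem OA_of {G : Type} [Group G] {g : G} {Ω : Type} [LinearOrder Ω] [Countable Ω]
    [DenselyOrdered Ω] [NoMinOrder Ω] [NoMaxOrder Ω] (ρ : G →* (Ω ≃o Ω)) (x : Ω)
    (h : ρ g x ≠ x) : ∃ (ρ : G →* (ℚ ≃o ℚ)) (q : ℚ), q < ρ g q := by
  have : Nonempty Ω := ⟨x⟩
  obtain ⟨e⟩ := Order.iso_of_countable_dense Ω ℚ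
  have h1 : (((conjHom e).comp ρ) g) (e x) = e (ρ g x) := by
    show e ((ρ g) (e.symm (e x))) = _
    rw [e.symm_apply_apply]
  rcases lt_or_gt_of_ne h with h2 | h2
  · refine ⟨negHom.comp ((conjHom e).comp ρ), - e x, ?_⟩
    have h3 : ((negHom.comp ((conjHom e).comp ρ)) g) (- e x) = - e (ρ g x) := by
      show - (((conjHom e).comp ρ) g) (- - e x) = _
      rw [neg_neg, h1]
    rw [h3]
    exact neg_lt_neg (e.lt_iff_lt.mpr h2)
  · refine ⟨(conjHom e).comp ρ, e x, ?_⟩
    rw [h1]
    exact e.lt_iff_lt.mpr h2

instance {α β : Type} [Countable α] [Countable β] [LinearOrder α] [LinearOrder β] :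
    Countable (α ×ₗ β) := inferInstanceAs (Countable (α × β))

theorem OA_of_LO {G : Type} [Group G] [Countable G] [LinearOrder G]
    (hG : ∀ c a b : G, a < b → c * a < c * b) : OA G := by
  intro g hg
  let ρ : G →* (G ≃o G) :=
    { toFun := fun c =>
        { toFun := fun x => c * x
          invFun := fun x => c⁻¹ * x
          left_inv := by intro x; simp
          right_inv := by intro x; simp
          map_rel_iff' := by
            intro a b
            simp only [Equiv.coe_fn_mk]
            constructor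
            · intro h
              by_contra h'
              rw [not_le] at h'
              exact absurd (hG c b a h') (not_lt.mpr h)
            · intro h
              rcases lt_or_eq_of_le h with h | h
              · exact (hG c a b h).le
              · rw [h] }
      map_one' := by ext x; simp
      map_mul' := by intro a b; ext x; simp [mul_assoc] }
  let r : G →* ((G ×ₗ ℚ) ≃o (G ×ₗ ℚ)) :=
    { toFun := fun c => lexIso (ρ c) (fun _ => OrderIso.refl ℚ)
      map_one' := by
        ext p
        obtain ⟨a, b⟩ := p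
        show lexIso _ _ (toLex (a, b)) = _
        rw [lexIso_apply]
        simp
        rfl
      map_mul' := by
        intro c c'
        ext p
        rw [RelIso.mul_apply]
        obtain ⟨a, b⟩ := p
        show lexIso _ _ (toLex (a, b)) = lexIso _ _ (lexIso _ _ (toLex (a, b)))
        rw [lexIso_apply, lexIso_apply, lexIso_apply]
        simp }
  refine OA_of r (toLex ((1 : G), (0 : ℚ))) ?_
  intro h
  have h1 : r g (toLex ((1 : G), (0 : ℚ))) = toLex (g * 1, (0 : ℚ)) := rfl
  rw [h1] at h
  have h2 := congrArg (fun p => (ofLex p).1) h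
  simp at h2
  exact hg h2

/-- free products with a free group -/
theorem OA_FF {H T : Type} [Group H] (hH : OA H) : OA (FF H T) := by
  classical
  intro g hg
  obtain ⟨h', e⟩ := lst_spec g
  have hred := red_lst g
  set l := lst g with hl
  clear_value l
  have hH' : ∀ h : H, ∃ (ρ : H →* (ℚ ≃o ℚ)) (q : ℚ), q ≤ ρ h q ∧ (h ≠ 1 → q < ρ h q) := by
    intro h
    by_cases h1 : h = 1
    · subst h1
      exact ⟨1, 0, by simp, by simp⟩
    · obtain ⟨ρ, q, hq⟩ := hH h h1
      exact ⟨ρ, q, hq.le, fun _ => hq⟩
  choose R q hR1 hR2 using hH'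
  rcases Nat.eq_zero_or_pos l.length with hk | hk
  · have : l = [] := List.length_eq_zero_iff.mp hk
    subst this
    rw [pr_nil, one_mul] at e
    have hne : h' ≠ 1 := by
      rintro rfl
      apply hg
      rw [e]; simp
    refine ⟨Coprod.lift (R h') 1, q h', ?_⟩
    rw [e]
    simpa using hR2 h' hne
  · -- letters
    let c : ℕ → H := fun j => ((l[j]?).map (fun a => a.1⁻¹)).getD 1
    let x : ℕ → Option (Sg T) := fun j => (l[j]?).map (fun a => a.2)
    have hc : ∀ j (hj : j < l.length), c j = (l[j]).1⁻¹ := by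
      intro j hj
      simp [c, hj]
    let U : ℕ → ℕ ×ₗ ℚ := fun j => toLex (j, q (c j))
    let V : ℕ → ℕ ×ₗ ℚ := fun j => toLex (j, R (c j) (c j) (q (c j)))
    have hlev : ∀ (a b : ℕ) (s t : ℚ), a < b → (toLex (a, s) : ℕ ×ₗ ℚ) < toLex (b, t) := by
      intro a b s t hab
      rw [Prod.Lex.lt_iff]
      exact Or.inl hab
    have hUV : ∀ a b : ℕ, a < b → (b < l.length → a + 1 = b → c b ≠ 1) → b < l.length →
        U (a + 1) < V b := by
      intro a b hab h1 hb
      rcases Nat.lt_or_eq_of_le (Nat.succ_le_of_lt hab) with h2 | h2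
      · exact hlev _ _ _ _ h2
      · have h3 : a + 1 = b := h2
        subst h3
        show (toLex (a + 1, q (c (a + 1))) : ℕ ×ₗ ℚ) <
          toLex (a + 1, R (c (a + 1)) (c (a + 1)) (q (c (a + 1))))
        rw [Prod.Lex.lt_iff]
        exact Or.inr ⟨rfl, hR2 _ (h1 hb rfl)⟩
    -- stable letters
    have hex : ∀ σ : T, ∃ τ : (ℕ ×ₗ ℚ) ≃o (ℕ ×ₗ ℚ), ∀ j (hj : j < l.length), (l[j]).2.1 = σ →
        ((l[j]).2.2 = true → τ (U (j + 1)) = V j) ∧
        ((l[j]).2.2 = false → τ (V j) = U (j + 1)) := by
      intro σ
      obtain ⟨τ, hτ⟩ := ext_list {j | ∃ hj : j < l.length, (l[j]).2.1 = σ}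
        (fun j => if (l[j]?).map (fun a => a.2.2) = some true then U (j + 1) else V j)
        (fun j => if (l[j]?).map (fun a => a.2.2) = some true then V j else U (j + 1))
        l.length (by
          rintro i j hij hj ⟨hi', hi⟩ ⟨hj', hjj⟩
          have hne : ((l[i]).2.2 ≠ (l[j]).2.2) → i + 1 = j → c j ≠ 1 := by
            intro hs hij2
            subst hij2
            have hr := (List.isChain_iff_getElem.mp hred) i (by omega)
            intro hc1
            apply hr
            rw [hc (i + 1) hj', inv_eq_one] at hc1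
            refine ⟨hc1, ?_⟩
            apply Prod.ext
            · rw [hjj, ← hi]; rfl
            · simp only [fl]
              revert hs
              cases (l[i]).2.2 <;> cases (l[i + 1]).2.2 <;> simp
          simp only [List.getElem?_eq_getElem hi', List.getElem?_eq_getElem hj', Option.map_some,
            Option.some.injEq]
          cases hsi : (l[i]).2.2 <;> cases hsj : (l[j]).2.2
          · simp only [Bool.false_eq_true, if_false]
            exact ⟨hlev _ _ _ _ hij, hlev _ _ _ _ (by omega)⟩
          · simp only [Bool.false_eq_true, if_false, if_true]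
            exact ⟨hlev _ _ _ _ (by omega), hUV i j hij (fun _ h => hne (by simp [hsi, hsj]) h)
              hj'⟩
          · simp only [Bool.false_eq_true, if_false, if_true]
            exact ⟨hUV i j hij (fun _ h => hne (by simp [hsi, hsj]) h) hj',
              hlev _ _ _ _ (by omega)⟩
          · simp only [if_true]
            exact ⟨hlev _ _ _ _ (by omega), hlev _ _ _ _ hij⟩)
      refine ⟨τ, ?_⟩
      intro j hj hjs
      have h1 := hτ j hj ⟨hj, hjs⟩
      simp only [List.getElem?_eq_getElem hj, Option.map_some, Option.some.injEq] at h1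
      refine ⟨?_, ?_⟩
      · intro h2
        rw [h2] at h1
        simpa using h1
      · intro h2
        rw [h2] at h1
        simpa using h1
    choose τ hτ using hex
    let ρ : FF H T →* ((ℕ ×ₗ ℚ) ≃o (ℕ ×ₗ ℚ)) :=
      Coprod.lift (lexHom fun j => R (c j)) (FreeGroup.lift τ)
    have hρh : ∀ (h : H), ρ (hh h) = lexHom (fun j => R (c j)) h := by
      intro h; simp [ρ, hh]
    have hρt : ∀ σ : T, ρ (tt (σ, true)) = τ σ := by
      intro σ; simp [ρ, tt]
    have hρt' : ∀ σ : T, ρ (tt (σ, false)) = (τ σ)⁻¹ := by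
      intro σ; simp [ρ, tt]
    have hpath : ∀ j, j ≤ l.length → ρ ((pr (l.take j))⁻¹) (U 0) = U j := by
      intro j
      induction j with
      | zero => intro _; simp
      | succ j ih =>
        intro hj
        have hj' : j < l.length := by omega
        have e1 : l.take (j + 1) = l.take j ++ [l[j]] := by
          rw [List.take_succ_eq_append_getElem hj']
        rw [e1, pr_append, pr_cons, pr_nil, mul_one, mul_inv_rev, mul_inv_rev, map_mul,
          RelIso.mul_apply, ih (by omega), map_mul, RelIso.mul_apply]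
        have e2 : ρ ((hh (l[j]).1)⁻¹) (U j) = V j := by
          rw [← map_inv (Coprod.inl : H →* FF H T)]
          show ρ (hh (l[j].1)⁻¹) (U j) = V j
          rw [← hc j hj', hρh]
          rfl
        rw [e2]
        have h3 := hτ (l[j]).2.1 j hj' rfl
        rcases hb : (l[j]).2 with ⟨σ, b⟩
        rw [hb] at h3
        cases b
        · have h4 := h3.2 rfl
          rw [map_inv, hρt', inv_inv]
          exact h4
        · have h4 := h3.1 rfl
          rw [map_inv, hρt, ← h4]
          exact (τ σ).symm_apply_apply _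
    refine OA_of ρ (U 0) ?_
    intro hfix
    have h1 : ρ g⁻¹ (U 0) = U 0 := by
      conv_lhs => rw [← hfix]
      rw [map_inv]
      exact (ρ g).symm_apply_apply _
    rw [e, mul_inv_rev, map_mul, RelIso.mul_apply] at h1
    have h2 := hpath l.length le_rfl
    rw [List.take_length] at h2
    rw [h2, ← map_inv (Coprod.inl : H →* FF H T)] at h1
    have h3 : ρ (hh h'⁻¹) (U l.length) = U 0 := h1
    rw [hρh] at h3
    have h4 : lexHom (fun j => R (c j)) h'⁻¹ (U l.length) =
      toLex (l.length, R (c l.length) h'⁻¹ (q (c l.length))) := rfl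
    rw [h4] at h3
    have h5 : l.length = 0 := congrArg (fun p => (ofLex p).1) h3
    omega

end Run7.h847
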