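import Mathlib
import Pool.Agent.Run7.h847.QOrd

set_option autoImplicit false
set_option linter.unusedSectionVars false
set_option linter.unusedSimpArgs false

/-!
# The overlap lemma
-/

namespace Run7.h847

open Monoid

/-! ### extension by the identity -/

section ExtOC

variable (S : Set ℚ) [hS : S.OrdConnected]

open Classical in
/-- extension by the identity -/
noncomputable def eoc (f : S ≃o S) (x : ℚ) : ℚ := if h : x ∈ S then (f ⟨x, h⟩ : ℚ) else x

theorem eoc_mem (f : S ≃o S) (x : S) : eoc S f x = f x := by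
  simp [eoc]

theorem eoc_not (f : S ≃o S) (x : ℚ) (h : x ∉ S) : eoc S f x = x := by
  simp [eoc, h]

theorem eoc_one (x : ℚ) : eoc S (1 : S ≃o S) x = x := by
  by_cases h : x ∈ S
  · exact eoc_mem S _ ⟨x, h⟩
  · exact eoc_not S _ x h

theorem eoc_mul (f g : S ≃o S) (x : ℚ) : eoc S (f * g) x = eoc S f (eoc S g x) := by
  by_cases h : x ∈ S
  · have h1 := eoc_mem S (f * g) ⟨x, h⟩
    have h2 := eoc_mem S g ⟨x, h⟩
    simp only at h1 h2
    rw [h1, h2, eoc_mem]
    rfl
  · rw [eoc_not S _ x h, eoc_not S _ x h, eoc_not S _ x h]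

theorem eoc_mono (f : S ≃o S) : StrictMono (eoc S f) := by
  intro x y hxy
  by_cases hx : x ∈ S
  · have h1 := eoc_mem S f ⟨x, hx⟩
    simp only at h1
    rw [h1]
    by_cases hy : y ∈ S
    · have h2 := eoc_mem S f ⟨y, hy⟩
      simp only at h2
      rw [h2]
      have : (⟨x, hx⟩ : S) < ⟨y, hy⟩ := hxy
      exact f.lt_iff_lt.mpr this
    · rw [eoc_not S f y hy]
      by_contra h3
      rw [not_lt] at h3
      exact hy (hS.out hx (f ⟨x, hx⟩).2 ⟨hxy.le, h3⟩)
  · rw [eoc_not S f x hx]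
    by_cases hy : y ∈ S
    · have h2 := eoc_mem S f ⟨y, hy⟩
      simp only at h2
      rw [h2]
      by_contra h3
      rw [not_lt] at h3
      exact hx (hS.out (f ⟨y, hy⟩).2 hy ⟨h3, hxy.le⟩)
    · rw [eoc_not S f y hy]
      exact hxy

/-- extension by the identity as a homomorphism -/
noncomputable def eocHom : (S ≃o S) →* (ℚ ≃o ℚ) where
  toFun f :=
    { toFun := eoc S f
      invFun := eoc S f⁻¹
      left_inv := by
        intro x
        rw [← eoc_mul, inv_mul_cancel, eoc_one]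
      right_inv := by
        intro x
        rw [← eoc_mul, mul_inv_cancel, eoc_one]
      map_rel_iff' := by
        intro x y
        exact (eoc_mono S f).le_iff_le }
  map_one' := by
    ext x
    exact eoc_one S x
  map_mul' f g := by
    ext x
    exact eoc_mul S f g x

end ExtOC

/-- action on cuts -/
def lsHom : (ℚ ≃o ℚ) →* (LowerSet ℚ ≃o LowerSet ℚ) where
  toFun f := LowerSet.map f
  map_one' := by
    refine DFunLike.ext _ _ ?_
    intro s
    show LowerSet.map (OrderIso.refl ℚ) s = s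
    simp
  map_mul' f g := by
    refine DFunLike.ext _ _ ?_
    intro s
    show LowerSet.map (g.trans f) s = LowerSet.map f (LowerSet.map g s)
    simp

theorem mem_lsHom (f : ℚ ≃o ℚ) (s : LowerSet ℚ) (x : ℚ) : f x ∈ lsHom f s ↔ x ∈ s := by
  show f x ∈ LowerSet.map f s ↔ x ∈ s
  rw [LowerSet.mem_map]
  simp

section OL

variable {A B : Type} [Group A] [Group B]

/-- product of the `A`-letters -/
def prA (l : List (A ⊕ B)) : A := (l.map (Sum.elim id (fun _ => 1))).prod

theorem prA_nil : prA ([] : List (A ⊕ B)) = 1 := rfl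
theorem prA_inl (a : A) (l : List (A ⊕ B)) : prA (Sum.inl a :: l) = a * prA l := by simp [prA]
theorem prA_inr (b : B) (l : List (A ⊕ B)) : prA (Sum.inr b :: l) = prA l := by simp [prA]

theorem exists_max_suffix {α : Type} (l : List α) (f : List α → ℚ) :
    ∃ V, V <:+ l ∧ ∀ W, W <:+ l → f W ≤ f V := by
  classical
  obtain ⟨V, h1, h2⟩ := Finset.exists_max_image l.tails.toFinset f ⟨l, by simp⟩
  refine ⟨V, by simpa using h1, ?_⟩
  intro W hW
  exact h2 W (by simpa using hW)

/-- one side of the construction: `A` acts on an order-connected set `S` isomorphic to `ℚ` -/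
structure Side (G : Type) [Group G] (S : Set ℚ) [S.OrdConnected] where
  r : G →* (ℚ ≃o ℚ)
  o : ℚ
  φ : ℚ ≃o S

/-- the action of a side -/
noncomputable def Side.act {G : Type} [Group G] {S : Set ℚ} [S.OrdConnected] (d : Side G S) :
    G →* (ℚ ≃o ℚ) :=
  (eocHom S).comp ((conjHom d.φ).comp d.r)

theorem Side.act_in {G : Type} [Group G] {S : Set ℚ} [S.OrdConnected] (d : Side G S)
    (g : G) (x : ℚ) : d.act g (d.φ x) = d.φ (d.r g x) := by
  show eoc S (conjHom d.φ (d.r g)) (d.φ x) = _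
  rw [eoc_mem]
  show ((d.φ ((d.r g) (d.φ.symm (d.φ x))) : S) : ℚ) = _
  rw [d.φ.symm_apply_apply]

theorem Side.act_out {G : Type} [Group G] {S : Set ℚ} [S.OrdConnected] (d : Side G S)
    (g : G) (x : ℚ) (hx : x ∉ S) : d.act g x = x := by
  exact eoc_not S _ x hx

/-- isomorphism with two prescribed values -/
theorem iso_two (S : Set ℚ) [DenselyOrdered S] [NoMinOrder S] [NoMaxOrder S]
    (a b : ℚ) (hab : a < b) (u v : S) (huv : u < v) : ∃ φ : ℚ ≃o S, φ a = u ∧ φ b = v := by
  have : Nonempty S := ⟨u⟩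
  obtain ⟨e, he⟩ := ext_list (α := ℚ) (β := S) Set.univ (fun i => if i = 0 then a else b)
    (fun i => if i = 0 then u else v) 2 (by
      intro i j hij hj _ _
      have h1 : i = 0 := by omega
      have h2 : j = 1 := by omega
      subst h1 h2
      simpa using ⟨hab, huv⟩)
  refine ⟨e, ?_, ?_⟩
  · simpa using he 0 (by norm_num) (Set.mem_univ _)
  · simpa using he 1 (by norm_num) (Set.mem_univ _)

/-- the overlap lemma -/
theorem OL (hA : OA A) (hB : OA B) (l : List (A ⊕ B))
    (ha : ∃ a, a ≠ 1 ∧ Sum.inl a ∈ l) (hb : ∃ b, b ≠ 1 ∧ Sum.inr b ∈ l) :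
    ∃ (Ω : Type) (_ : LinearOrder Ω) (ρA : A →* (Ω ≃o Ω)) (ρB : B →* (Ω ≃o Ω)) (ξ : Ω),
      (l.map (Sum.elim ρA ρB)).prod ξ = ξ ∧ ∃ c ∈ l, Sum.elim ρA ρB c ξ ≠ ξ := by
  obtain ⟨a0, ha0, ha1⟩ := ha
  obtain ⟨b0, hb0, hb1⟩ := hb
  by_cases hα : prA l = 1
  · obtain ⟨ρ, q, hq⟩ := hA a0 ha0
    refine ⟨ℚ, inferInstance, ρ, 1, q, ?_, Sum.inl a0, ha1, hq.ne'⟩
    have h1 : ∀ l : List (A ⊕ B), (l.map (Sum.elim ρ (1 : B →* (ℚ ≃o ℚ)))).prod = ρ (prA l) := by
      intro l
      induction l with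
      | nil => simp [prA]
      | cons c l ih =>
        cases c with
        | inl a => simp [prA_inl, ih]
        | inr b => simp [prA_inr, ih]
    rw [h1, hα]
    simp
  let sw : List (A ⊕ B) → List (B ⊕ A) := fun l => l.map Sum.swap
  by_cases hβ : prA (sw l) = 1
  · obtain ⟨ρ, q, hq⟩ := hB b0 hb0
    refine ⟨ℚ, inferInstance, 1, ρ, q, ?_, Sum.inr b0, hb1, hq.ne'⟩
    have h1 : ∀ l : List (A ⊕ B), (l.map (Sum.elim (1 : A →* (ℚ ≃o ℚ)) ρ)).prod =
        ρ (prA (sw l)) := by
      intro l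
      induction l with
      | nil => simp [prA, sw]
      | cons c l ih =>
        cases c with
        | inl a => simpa [sw, prA_inr] using ih
        | inr b => simpa [sw, prA_inl] using ih
    rw [h1, hβ]
    simp
  -- the general case
  obtain ⟨rA, oA, hoA⟩ := hA _ hα
  obtain ⟨rB, oB, hoB'⟩ := hB (prA (sw l))⁻¹ (inv_ne_one.mpr hβ)
  have hoB : rB (prA (sw l)) oB < oB := by
    have := (rB (prA (sw l))).lt_iff_lt.mpr hoB'
    rwa [← RelIso.mul_apply, ← map_mul, mul_inv_cancel, map_one] at this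
  obtain ⟨VA, hVA1, hVA2⟩ := exists_max_suffix l (fun V => rA (prA V) oA)
  obtain ⟨VB, hVB1, hVB2⟩ := exists_max_suffix l (fun V => - rB (prA (sw V)) oB)
  -- isomorphisms
  have hk : rA (prA VA) oA < rA (prA VA * prA l) oA := by
    rw [map_mul, RelIso.mul_apply]
    exact (rA (prA VA)).lt_iff_lt.mpr hoA
  have hk' : rB (prA (sw VB) * prA (sw l)) oB < rB (prA (sw VB)) oB := by
    rw [map_mul, RelIso.mul_apply]
    exact (rB (prA (sw VB))).lt_iff_lt.mpr hoB
  obtain ⟨φ, hφ1, hφ2⟩ := iso_two (Set.Iio (0 : ℚ)) _ _ hk ⟨-2, by norm_num⟩ ⟨-1/3, by norm_num⟩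
    (by
      show (-2 : ℚ) < -1/3
      norm_num)
  obtain ⟨ψ, hψ1, hψ2⟩ := iso_two (Set.Ioi (-1 : ℚ)) _ _ hk' ⟨-2/3, by norm_num⟩
    ⟨1, by norm_num⟩ (by
      show (-2/3 : ℚ) < 1
      norm_num)
  let dA : Side A (Set.Iio (0 : ℚ)) := ⟨rA, oA, φ⟩
  let dB : Side B (Set.Ioi (-1 : ℚ)) := ⟨rB, oB, ψ⟩
  -- paths
  have pathA : ∀ V, V <:+ l → (V.map (Sum.elim dA.act dB.act)).prod (φ oA) =
      φ (rA (prA V) oA) := by
    intro V
    induction V with
    | nil => intro _; simp [prA]
    | cons c V ih =>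
      intro hV
      have hV' : V <:+ l := (List.suffix_cons c V).trans hV
      rw [List.map_cons, List.prod_cons, RelIso.mul_apply, ih hV']
      cases c with
      | inl a =>
        rw [prA_inl, map_mul, RelIso.mul_apply]
        exact dA.act_in a _
      | inr b =>
        rw [prA_inr]
        apply dB.act_out b
        have h1 : φ (rA (prA V) oA) ≤ φ (rA (prA VA) oA) := φ.le_iff_le.mpr (hVA2 V hV')
        rw [hφ1] at h1
        have h2 : ((φ (rA (prA V) oA) : Set.Iio (0 : ℚ)) : ℚ) ≤ -2 := h1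
        simp only [Set.mem_Ioi, not_lt]
        linarith
  have pathB : ∀ V, V <:+ l → (V.map (Sum.elim dA.act dB.act)).prod (ψ oB) =
      ψ (rB (prA (sw V)) oB) := by
    intro V
    induction V with
    | nil => intro _; simp [prA, sw]
    | cons c V ih =>
      intro hV
      have hV' : V <:+ l := (List.suffix_cons c V).trans hV
      rw [List.map_cons, List.prod_cons, RelIso.mul_apply, ih hV']
      cases c with
      | inl a =>
        have e : prA (sw (Sum.inl a :: V)) = prA (sw V) := by simp [sw, prA_inr]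
        rw [e]
        apply dA.act_out a
        have h1 : ψ (rB (prA (sw VB)) oB) ≤ ψ (rB (prA (sw V)) oB) :=
          ψ.le_iff_le.mpr (by have := hVB2 V hV'; linarith)
        rw [hψ2] at h1
        have h2 : (1 : ℚ) ≤ ((ψ (rB (prA (sw V)) oB) : Set.Ioi (-1 : ℚ)) : ℚ) := h1
        simp only [Set.mem_Iio, not_lt]
        linarith
      | inr b =>
        have e : prA (sw (Sum.inr b :: V)) = b * prA (sw V) := by simp [sw, prA_inl]
        rw [e, map_mul, RelIso.mul_apply]
        exact dB.act_in b _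
  set w : ℚ ≃o ℚ := (l.map (Sum.elim dA.act dB.act)).prod with hw
  have w1 : ((φ oA : Set.Iio (0 : ℚ)) : ℚ) < w (φ oA) := by
    rw [hw, pathA l (List.suffix_refl l)]
    exact φ.lt_iff_lt.mpr hoA
  have w2 : w (ψ oB) < (ψ oB : Set.Ioi (-1 : ℚ)) := by
    rw [hw, pathB l (List.suffix_refl l)]
    exact ψ.lt_iff_lt.mpr hoB
  have w3 : ((φ oA : Set.Iio (0 : ℚ)) : ℚ) < (ψ oB : Set.Ioi (-1 : ℚ)) := by
    have h1 : ((φ oA : Set.Iio (0 : ℚ)) : ℚ) < 0 := (φ oA).2
    have h2 : ψ (rB (prA (sw VB)) oB) ≤ ψ oB := ψ.le_iff_le.mpr (by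
      have := hVB2 [] (List.nil_suffix)
      simp [sw, prA] at this
      simpa [sw, prA] using this)
    rw [hψ2] at h2
    have h3 : (1 : ℚ) ≤ ((ψ oB : Set.Ioi (-1 : ℚ)) : ℚ) := h2
    linarith
  have w4 : ∀ n : ℕ, (w ^ n) (φ oA) < (ψ oB : Set.Ioi (-1 : ℚ)) := by
    intro n
    induction n with
    | zero => simpa using w3
    | succ n ih =>
      rw [pow_succ', RelIso.mul_apply]
      exact (w.lt_iff_lt.mpr ih).trans w2
  have w5 : ∀ n : ℕ, (w ^ n) (φ oA) < (w ^ (n + 1)) (φ oA) := by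
    intro n
    rw [pow_succ, RelIso.mul_apply]
    exact (w ^ n).lt_iff_lt.mpr w1
  let ξ : LowerSet ℚ := ⟨{q | ∃ n : ℕ, q ≤ (w ^ n) (φ oA)}, by
    rintro a b hab ⟨n, hn⟩
    exact ⟨n, hab.trans hn⟩⟩
  have memξ : ∀ q, q ∈ ξ ↔ ∃ n : ℕ, q ≤ (w ^ n) (φ oA) := fun q => Iff.rfl
  refine ⟨LowerSet ℚ, inferInstance, lsHom.comp dA.act, lsHom.comp dB.act, ξ, ?_, ?_⟩
  · have h1 : (l.map (Sum.elim (lsHom.comp dA.act) (lsHom.comp dB.act))).prod = lsHom w := by
      rw [hw, map_list_prod, List.map_map]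
      congr 1
      apply List.map_congr_left
      intro c _
      cases c <;> rfl
    rw [h1]
    apply SetLike.ext
    intro x
    obtain ⟨y, rfl⟩ := w.surjective x
    rw [mem_lsHom, memξ, memξ]
    constructor
    · rintro ⟨n, hn⟩
      refine ⟨n + 1, ?_⟩
      rw [pow_succ', RelIso.mul_apply]
      exact w.le_iff_le.mpr hn
    · rintro ⟨n, hn⟩
      refine ⟨n, ?_⟩
      have h2 := hn.trans (w5 n).le
      rw [pow_succ', RelIso.mul_apply] at h2
      exact w.le_iff_le.mp h2
  · by_contra hcon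
    push Not at hcon
    have fixA : ∀ V, V <:+ l → lsHom (dA.act (prA V)) ξ = ξ := by
      intro V
      induction V with
      | nil => intro _; simp [prA]
      | cons c V ih =>
        intro hV
        have hV' : V <:+ l := (List.suffix_cons c V).trans hV
        cases c with
        | inl a =>
          rw [prA_inl, map_mul, map_mul, RelIso.mul_apply, ih hV']
          exact hcon (Sum.inl a) (hV.subset (by simp))
        | inr b => rw [prA_inr]; exact ih hV'
    have fixB : ∀ V, V <:+ l → lsHom (dB.act (prA (sw V))) ξ = ξ := by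
      intro V
      induction V with
      | nil => intro _; simp [prA, sw]
      | cons c V ih =>
        intro hV
        have hV' : V <:+ l := (List.suffix_cons c V).trans hV
        cases c with
        | inl a =>
          have e : prA (sw (Sum.inl a :: V)) = prA (sw V) := by simp [sw, prA_inr]
          rw [e]; exact ih hV'
        | inr b =>
          have e : prA (sw (Sum.inr b :: V)) = b * prA (sw V) := by simp [sw, prA_inl]
          rw [e, map_mul, map_mul, RelIso.mul_apply, ih hV']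
          exact hcon (Sum.inr b) (hV.subset (by simp))
    have kA : lsHom (dA.act (prA VA * prA l)) ξ = ξ := by
      rw [map_mul, map_mul, RelIso.mul_apply, fixA l (List.suffix_refl l), fixA VA hVA1]
    have kB : lsHom (dB.act (prA (sw VB) * prA (sw l))) ξ = ξ := by
      rw [map_mul, map_mul, RelIso.mul_apply, fixB l (List.suffix_refl l), fixB VB hVB1]
    have m1 : ((φ oA : Set.Iio (0 : ℚ)) : ℚ) ∈ ξ := ⟨0, by simp⟩
    have m2 : ((ψ oB : Set.Ioi (-1 : ℚ)) : ℚ) ∉ ξ := by
      rintro ⟨n, hn⟩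
      exact absurd (w4 n) (not_lt.mpr hn)
    have m3 : (-1/3 : ℚ) ∈ ξ := by
      have h1 := (mem_lsHom (dA.act (prA VA * prA l)) ξ (φ oA)).mpr m1
      rw [kA] at h1
      have h2 : dA.act (prA VA * prA l) (φ oA) = φ (rA (prA VA * prA l) oA) :=
        dA.act_in _ _
      rw [h2, hφ2] at h1
      exact h1
    have m4 : (-2/3 : ℚ) ∉ ξ := by
      intro h0
      apply m2
      have h2 : dB.act (prA (sw VB) * prA (sw l)) (ψ oB) = ψ (rB (prA (sw VB) * prA (sw l)) oB) :=
        dB.act_in _ _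
      rw [hψ1] at h2
      have h3 : dB.act (prA (sw VB) * prA (sw l)) (ψ oB) = -2/3 := h2
      have h1 := (mem_lsHom (dB.act (prA (sw VB) * prA (sw l))) ξ (ψ oB))
      rw [kB, h3] at h1
      exact h1.mp h0
    exact m4 (ξ.lower (by norm_num) m3)

end OL

end Run7.h847
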