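import Mathlib
import Pool.Agent.Run7.h847.Overlap

set_option autoImplicit false
set_option linter.unusedSectionVars false
set_option linter.unusedSimpArgs false

/-!
# Closed loops with two different crossing points
-/

namespace Run7.h847

open Monoid

/-! ### cyclic chains -/

section CC

variable {α : Type}

/-- cyclic chain condition -/
def CC (R : α → α → Prop) (l : List α) : Prop :=
  List.IsChain R l ∧ ∀ a ∈ l.getLast?, ∀ b ∈ l.head?, R a b

theorem CC_comm {R : α → α → Prop} (U V : List α) (h : CC R (U ++ V)) : CC R (V ++ U) := by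
  rcases List.eq_nil_or_concat U with rfl | ⟨U', u, rfl⟩
  · simpa using h
  rcases List.eq_nil_or_concat V with rfl | ⟨V', v, rfl⟩
  · simpa using h
  have e1 : ∀ (A B : List α) (a : α), (A ++ [a] ++ B).head? = (A ++ [a]).head? := by
    intro A B a
    cases A <;> simp
  have e2 : ∀ (A B : List α) (a : α),
      (B ++ (A ++ [a])).getLast? = (A ++ [a]).getLast? := by
    intro A B a
    simp [List.getLast?_append]
  simp only [CC, List.concat_eq_append] at h ⊢
  rw [List.isChain_append, e1, e2] at h ⊢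
  exact ⟨⟨h.1.2.1, h.1.1, h.2⟩, h.1.2.2⟩

theorem CC_dbl {R : α → α → Prop} (l : List α) (h : CC R l) : List.IsChain R (l ++ l) := by
  rw [List.isChain_append]
  exact ⟨h.1, h.1, h.2⟩

theorem CC_of_dbl {R : α → α → Prop} (l : List α) (h : List.IsChain R (l ++ l)) : CC R l := by
  rw [List.isChain_append] at h
  exact ⟨h.1, h.2.2⟩

theorem exists_not_chain {R : α → α → Prop} (l : List α) (h : ¬ List.IsChain R l) :
    ∃ U a b V, l = U ++ a :: b :: V ∧ ¬ R a b := by
  induction l with
  | nil => exact absurd List.isChain_nil h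
  | cons a l ih =>
    cases l with
    | nil => exact absurd (List.isChain_singleton a) h
    | cons b l =>
      by_cases h1 : R a b
      · rw [List.isChain_cons_cons] at h
        obtain ⟨U, c, d, V, h2, h3⟩ := ih (fun h4 => h ⟨h1, h4⟩)
        exact ⟨a :: U, c, d, V, by rw [h2]; rfl, h3⟩
      · exact ⟨[], a, b, l, rfl, h1⟩

end CC

/-! ### crossing points -/

section zl

variable {G T : Type} [Group G] {Ω : Type} [LinearOrder Ω]

/-- the crossing point -/
def zpt (ρ : FF G T →* (Ω ≃o Ω)) (x : Sg T) (v : Ω) : Ω := if x.2 then ρ (tt x) v else v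

/-- list of crossing points -/
def zl (ρ : FF G T →* (Ω ≃o Ω)) : List (Ent G T) → Ω → List (T × Ω)
  | [], _ => []
  | a :: V, ξ => (a.2.1, zpt ρ a.2 (ρ (pr V) ξ)) :: zl ρ V ξ

theorem zl_append (ρ : FF G T →* (Ω ≃o Ω)) (U V : List (Ent G T)) (ξ : Ω) :
    zl ρ (U ++ V) ξ = zl ρ U (ρ (pr V) ξ) ++ zl ρ V ξ := by
  induction U with
  | nil => rfl
  | cons a U ih =>
    simp only [List.cons_append, zl]
    rw [ih, pr_append, map_mul, RelIso.mul_apply]

theorem zl_types (ρ : FF G T →* (Ω ≃o Ω)) (l : List (Ent G T)) (ξ : Ω) :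
    (zl ρ l ξ).map Prod.fst = l.map (fun a => a.2.1) := by
  induction l with
  | nil => rfl
  | cons a V ih => simp [zl, ih]

theorem zl_length (ρ : FF G T →* (Ω ≃o Ω)) (l : List (Ent G T)) (ξ : Ω) :
    (zl ρ l ξ).length = l.length := by
  have := congrArg List.length (zl_types ρ l ξ)
  simpa using this

/-- a closed loop with two different crossing points of the same type -/
def HasS (l : List (Ent G T)) : Prop :=
  ∃ (Ω : Type) (_ : LinearOrder Ω) (ρ : FF G T →* (Ω ≃o Ω)) (ξ : Ω), ρ (pr l) ξ = ξ ∧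
    ∃ p ∈ zl ρ l ξ, ∃ p' ∈ zl ρ l ξ, p.1 = p'.1 ∧ p.2 ≠ p'.2

/-- a closed loop with all crossing points different -/
def HasN (l : List (Ent G T)) : Prop :=
  ∃ (Ω : Type) (_ : LinearOrder Ω) (ρ : FF G T →* (Ω ≃o Ω)) (ξ : Ω), ρ (pr l) ξ = ξ ∧
    (zl ρ l ξ).Nodup

theorem HasS.rot {U V : List (Ent G T)} (h : HasS (V ++ U)) : HasS (U ++ V) := by
  obtain ⟨Ω, _, ρ, ξ, h1, p, hp, p', hp', h2⟩ := h
  rw [pr_append, map_mul, RelIso.mul_apply] at h1
  refine ⟨Ω, _, ρ, ρ (pr U) ξ, ?_, ?_⟩
  · rw [pr_append, map_mul, RelIso.mul_apply, h1]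
  · rw [zl_append] at hp hp'
    refine ⟨p, ?_, p', ?_, h2⟩
    · rw [zl_append, h1]
      rw [List.mem_append] at hp ⊢
      exact hp.symm
    · rw [zl_append, h1]
      rw [List.mem_append] at hp' ⊢
      exact hp'.symm

end zl

/-! ### one stable letter -/

section one

variable {G : Type} [Group G]

/-- change the sign of the stable letter -/
def flipE (a : Ent G Unit) : Ent G Unit := (a.1, fl a.2)

/-- the automorphism inverting the stable letter -/
def flipHom : FF G Unit →* FF G Unit :=
  Coprod.lift Coprod.inl (FreeGroup.lift fun _ => tt ((), false))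

theorem flipHom_hh (g : G) : flipHom (hh g) = hh g := by simp [flipHom, hh]

theorem flipHom_tt (x : Sg Unit) : flipHom (tt x : FF G Unit) = tt (fl x) := by
  rcases x with ⟨a, b⟩
  cases b <;> simp [flipHom, tt, fl]

theorem flipHom_pr (l : List (Ent G Unit)) : flipHom (pr l) = pr (l.map flipE) := by
  induction l with
  | nil => simp
  | cons a l ih =>
    rw [pr_cons, map_mul, map_mul, ih, flipHom_hh, flipHom_tt, List.map_cons, pr_cons]
    rfl

theorem HasS.flip {l : List (Ent G Unit)} (h : HasS (l.map flipE)) : HasS l := by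
  obtain ⟨Ω, _, ρ, ξ, h1, p, hp, p', hp', h2, h3⟩ := h
  have key : ∀ l : List (Ent G Unit), zl (ρ.comp flipHom) l ξ =
      (zl ρ (l.map flipE) ξ).map (fun p => (p.1, ρ (tt ((), false)) p.2)) := by
    intro l
    induction l with
    | nil => rfl
    | cons a l ih =>
      simp only [zl, List.map_cons]
      rw [ih]
      congr 1
      refine Prod.ext rfl ?_
      simp only
      have e1 : (ρ.comp flipHom) (pr l) = ρ (pr (l.map flipE)) := by
        rw [MonoidHom.comp_apply, flipHom_pr]
      rw [e1]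
      rcases a with ⟨g, ⟨u, b⟩⟩
      cases b
      · have e2 : zpt ρ (flipE (g, (u, false))).2 ((ρ (pr (l.map flipE))) ξ) =
            ρ (tt ((), true)) ((ρ (pr (l.map flipE))) ξ) := rfl
        rw [e2, ← RelIso.mul_apply, ← map_mul]
        have e3 : (tt ((), false) : FF G Unit) = (tt ((), true))⁻¹ := by
          rw [← tt_fl]; rfl
        rw [e3, inv_mul_cancel, map_one]
        rfl
      · have e2 : zpt ρ (flipE (g, (u, true))).2 ((ρ (pr (l.map flipE))) ξ) =
            ((ρ (pr (l.map flipE))) ξ) := rfl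
        rw [e2]
        have e3 : zpt (ρ.comp flipHom) (u, true) ((ρ (pr (l.map flipE))) ξ) =
          ρ (flipHom (tt (u, true))) ((ρ (pr (l.map flipE))) ξ) := rfl
        rw [e3, flipHom_tt]
        rfl
  refine ⟨Ω, _, ρ.comp flipHom, ξ, ?_, ?_⟩
  · rw [MonoidHom.comp_apply, flipHom_pr]
    exact h1
  · rw [key]
    refine ⟨_, List.mem_map_of_mem hp, _, List.mem_map_of_mem hp', h2, ?_⟩
    intro h4
    exact h3 ((ρ (tt ((), false))).injective h4)

/-- last sign -/
def lsg : Bool → List (Ent G Unit) → Bool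
  | p, [] => p
  | _, a :: V => lsg a.2.2 V

theorem lsg_append (p : Bool) (U V : List (Ent G Unit)) : lsg p (U ++ V) = lsg (lsg p U) V := by
  induction U generalizing p with
  | nil => rfl
  | cons a U ih => simp only [List.cons_append, lsg]; exact ih _

/-- the transformed word -/
def trf (gb : G) : Bool → List (Ent G Unit) → List (Ent G Unit)
  | _, [] => []
  | p, a :: V => ((if p then gb⁻¹ else 1) * a.1 * (if a.2.2 then 1 else gb), a.2) ::
      trf gb a.2.2 V

/-- the transformed action -/
def trho (gb : G) {Ω : Type} [LinearOrder Ω] (ρ : FF G Unit →* (Ω ≃o Ω)) :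
    FF G Unit →* (Ω ≃o Ω) :=
  Coprod.lift (ρ.comp Coprod.inl) (FreeGroup.lift fun _ => ρ (tt ((), true) * hh gb⁻¹))

section

variable (gb : G) {Ω : Type} [LinearOrder Ω] (ρ : FF G Unit →* (Ω ≃o Ω))

theorem trho_hh (g : G) : trho gb ρ (hh g) = ρ (hh g) := by simp [trho, hh]

theorem trho_true (u : Unit) : trho gb ρ (tt (u, true)) = ρ (tt ((), true)) * ρ (hh gb⁻¹) := by
  simp [trho, tt, hh]

theorem trho_false (u : Unit) :
    trho gb ρ (tt (u, false)) = ρ (hh gb) * ρ (tt ((), false)) := by
  have : (tt (u, false) : FF G Unit) = (tt (u, true))⁻¹ := by rw [← tt_fl]; rfl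
  have e1 : (ρ (hh gb⁻¹))⁻¹ = ρ (hh gb) := by
    rw [← map_inv, hh, ← map_inv (Coprod.inl : G →* FF G Unit), inv_inv]
  have e2 : (ρ (tt ((), true)))⁻¹ = ρ (tt ((), false)) := by
    rw [← map_inv, ← tt_fl]; rfl
  have e3 : trho gb ρ (tt (u, false)) = (trho gb ρ (tt (u, true)))⁻¹ := by
    rw [this]; exact map_inv _ _
  rw [e3, trho_true, mul_inv_rev, e1, e2]

theorem trf_claim1 (ξ : Ω) (V : List (Ent G Unit)) : ∀ p, lsg p V = true →
    ρ (hh (if p then gb⁻¹ else 1)) (trho gb ρ (pr V) (ρ (hh gb) ξ)) =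
      ρ (pr (trf gb p V)) ξ := by
  induction V with
  | nil =>
    intro p hp
    simp only [lsg] at hp
    subst hp
    simp only [if_true, pr_nil, map_one, trf]
    rw [RelIso.one_apply, RelIso.one_apply, ← RelIso.mul_apply, ← map_mul, hh, hh, ← map_mul]
    simp
  | cons a V ih =>
    intro p hp
    simp only [lsg] at hp
    have h1 := ih _ hp
    rw [pr_cons, map_mul, map_mul, RelIso.mul_apply, RelIso.mul_apply, trho_hh]
    simp only [trf]
    rw [pr_cons, map_mul, map_mul, RelIso.mul_apply, RelIso.mul_apply, ← h1]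
    rcases a with ⟨g, ⟨u, b⟩⟩
    cases b
    · simp only [Bool.false_eq_true, if_false]
      rw [trho_false, RelIso.mul_apply]
      simp only [map_mul, map_one, RelIso.mul_apply, RelIso.one_apply]
    · simp only [if_true]
      rw [trho_true, RelIso.mul_apply]
      simp only [map_mul, map_one, RelIso.mul_apply, RelIso.one_apply]

theorem trf_claim2 (ξ : Ω) (V : List (Ent G Unit)) : ∀ p, lsg p V = true →
    zl (trho gb ρ) V (ρ (hh gb) ξ) = zl ρ (trf gb p V) ξ := by
  induction V with
  | nil => intro p _; rfl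
  | cons a V ih =>
    intro p hp
    simp only [lsg] at hp
    have h1 := ih _ hp
    have h2 := trf_claim1 gb ρ ξ V _ hp
    simp only [trf, zl]
    rw [h1]
    congr 1
    refine Prod.ext rfl ?_
    simp only
    rw [← h2]
    rcases a with ⟨g, ⟨u, b⟩⟩
    cases b
    · simp [zpt]
    · simp only [zpt, if_true]
      rw [trho_true, RelIso.mul_apply]

end

theorem HasS_of_trf (gb : G) (l : List (Ent G Unit)) (hl : lsg true l = true)
    (h : HasS (trf gb true l)) : HasS l := by
  obtain ⟨Ω, _, ρ, ξ, h1, h2⟩ := h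
  refine ⟨Ω, _, trho gb ρ, ρ (hh gb) ξ, ?_, ?_⟩
  · have h3 := trf_claim1 gb ρ ξ l true hl
    rw [h1] at h3
    simp only [if_true] at h3
    have h4 := congrArg (ρ (hh gb)) h3
    rw [← RelIso.mul_apply, ← map_mul, hh, hh, ← map_mul] at h4
    simpa using h4
  · rw [trf_claim2 gb ρ ξ l true hl]
    exact h2

theorem OA_int : OA (Multiplicative ℤ) := by
  intro g hg
  let ρ : Multiplicative ℤ →* (ℚ ≃o ℚ) :=
    { toFun := fun n => OrderIso.addRight ((Multiplicative.toAdd n : ℤ) : ℚ)
      map_one' := by ext x; simp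
      map_mul' := by
        intro a b
        ext x
        simp
        ring }
  refine OA_of ρ 0 ?_
  intro h
  have h1 : ρ g 0 = 0 + ((Multiplicative.toAdd g : ℤ) : ℚ) := rfl
  rw [h1, zero_add] at h
  apply hg
  have h2 : Multiplicative.toAdd g = 0 := by exact_mod_cast h
  exact Multiplicative.toAdd.injective h2

/-- the main case: the stable letter occurs as a square -/
theorem HasS_square (hG : OA G) (u : Unit) (V : List (Ent G Unit))
    (hl : lsg true V = true) (hne : ∃ a ∈ V, a.1 ≠ 1) :
    HasS (((1 : G), (u, true)) :: V) := by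
  set L : List (Ent G Unit) := ((1 : G), (u, true)) :: V with hL
  let let2 : Ent G Unit → List (G ⊕ Multiplicative ℤ) := fun a =>
    [Sum.inl a.1, Sum.inr (Multiplicative.ofAdd (if a.2.2 then (1 : ℤ) else -1))]
  have mem2 : ∀ (l : List (Ent G Unit)) (c : G ⊕ Multiplicative ℤ), c ∈ l.flatMap let2 →
      ∃ a ∈ l, c = Sum.inl a.1 ∨
        c = Sum.inr (Multiplicative.ofAdd (if a.2.2 then (1 : ℤ) else -1)) := by
    intro l c hc
    rw [List.mem_flatMap] at hc
    obtain ⟨a, ha, hc⟩ := hc
    refine ⟨a, ha, ?_⟩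
    simpa [let2] using hc
  obtain ⟨Ω, _, ρA, ρB, ξ, h1, h2⟩ := OL hG OA_int (L.flatMap let2) (by
    obtain ⟨a, ha, ha1⟩ := hne
    refine ⟨a.1, ha1, ?_⟩
    rw [List.mem_flatMap]
    exact ⟨a, by simp [hL, ha], by simp [let2]⟩) (by
    refine ⟨Multiplicative.ofAdd (1 : ℤ), by decide, ?_⟩
    rw [List.mem_flatMap]
    exact ⟨((1 : G), (u, true)), by simp [hL], by simp [let2]⟩)
  let ρ : FF G Unit →* (Ω ≃o Ω) :=
    Coprod.lift ρA (FreeGroup.lift fun _ => ρB (Multiplicative.ofAdd (1 : ℤ)))
  have hρh : ∀ g : G, ρ (hh g) = ρA g := by intro g; simp [ρ, hh]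
  have hρt : ∀ u : Unit, ρ (tt (u, true)) = ρB (Multiplicative.ofAdd (1 : ℤ)) := by
    intro u; simp [ρ, tt]
  have hρf : ∀ u : Unit, ρ (tt (u, false)) = ρB (Multiplicative.ofAdd (-1 : ℤ)) := by
    intro u
    have : (tt (u, false) : FF G Unit) = (tt (u, true))⁻¹ := by rw [← tt_fl]; rfl
    rw [this, map_inv, hρt, ← map_inv, ← ofAdd_neg]
  have hpr : ∀ l : List (Ent G Unit), ((l.flatMap let2).map (Sum.elim ρA ρB)).prod = ρ (pr l) := by
    intro l
    induction l with
    | nil => simp
    | cons a l ih =>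
      rw [List.flatMap_cons, List.map_append, List.prod_append, ih, pr_cons, map_mul, map_mul,
        hρh]
      rcases a with ⟨g, ⟨u, b⟩⟩
      cases b
      · rw [hρf]; simp [let2]
      · rw [hρt]; simp [let2]
  rw [hpr] at h1
  refine ⟨Ω, _, ρ, ξ, h1, ?_⟩
  by_contra hcon
  push Not at hcon
  have hall : ∀ p ∈ zl ρ L ξ, ∀ p' ∈ zl ρ L ξ, p.2 = p'.2 := fun p hp p' hp' =>
    hcon p hp p' hp' (Subsingleton.elim _ _)
  -- first crossing
  have hfirst : ((u, ξ) : Unit × Ω) ∈ zl ρ L ξ := by
    have : zl ρ L ξ = (u, ξ) :: zl ρ V ξ := by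
      rw [hL]
      simp only [zl, zpt, if_true]
      congr 2
      have h3 := h1
      rw [hL, pr_cons, map_mul, map_mul, RelIso.mul_apply, RelIso.mul_apply] at h3
      simpa using h3
    rw [this]; simp
  have hz : ∀ p ∈ zl ρ L ξ, p.2 = ξ := fun p hp => hall p hp _ hfirst
  -- last crossing
  have hlast : ρ (tt ((), true)) ξ = ξ := by
    rcases List.eq_nil_or_concat L with h3 | ⟨W, a, h3⟩
    · rw [hL] at h3; exact absurd h3 (by simp)
    · simp only [List.concat_eq_append] at h3
      have h4 : a.2.2 = true := by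
        have h5 : lsg true L = true := by rw [hL]; exact hl
        rw [h3, lsg_append] at h5
        exact h5
      have h6 : ((a.2.1, zpt ρ a.2 ξ) : Unit × Ω) ∈ zl ρ L ξ := by
        rw [h3, zl_append]
        simp [zl]
      have h7 := hz _ h6
      simp only [zpt, h4, if_true] at h7
      rcases a with ⟨g, ⟨u', b⟩⟩
      simp only at h4 h7
      rw [h4] at h7
      exact h7
  have hlast' : ρ (tt ((), false)) ξ = ξ := by
    have : (tt ((), false) : FF G Unit) = (tt ((), true))⁻¹ := by rw [← tt_fl]; rfl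
    rw [this, map_inv]
    conv_lhs => rw [← hlast]
    exact (ρ (tt ((), true))).symm_apply_apply _
  have hsuf : ∀ W V' : List (Ent G Unit), L = W ++ V' → ρ (pr V') ξ = ξ := by
    intro W V' h3
    rcases List.eq_nil_or_concat W with rfl | ⟨W', a, rfl⟩
    · rw [List.nil_append] at h3
      rw [← h3]; exact h1
    · simp only [List.concat_eq_append, List.append_assoc, List.singleton_append] at h3
      have h6 : ((a.2.1, zpt ρ a.2 (ρ (pr V') ξ)) : Unit × Ω) ∈ zl ρ L ξ := by
        rw [h3, zl_append]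
        simp [zl]
      have h7 := hz _ h6
      rcases a with ⟨g, ⟨u', b⟩⟩
      cases b
      · simpa [zpt] using h7
      · simp only [zpt, if_true] at h7
        have h8 : ρ (tt ((), true)) (ρ (pr V') ξ) = ρ (tt ((), true)) ξ := by
          rw [hlast]; exact h7
        exact (ρ (tt ((), true))).injective h8
  obtain ⟨c, hc, hc2⟩ := h2
  apply hc2
  obtain ⟨a, ha, hca⟩ := mem2 _ c hc
  rcases hca with rfl | rfl
  · show ρA a.1 ξ = ξ
    obtain ⟨W, V', h3⟩ := List.append_of_mem ha
    have h4 := hsuf W (a :: V') h3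
    have h5 := hsuf (W ++ [a]) V' (by rw [h3]; simp)
    rw [pr_cons, map_mul, map_mul, RelIso.mul_apply, RelIso.mul_apply, h5, hρh] at h4
    rcases a with ⟨g, ⟨u', b⟩⟩
    cases b
    · rw [show ρ (tt (u', false)) ξ = ξ from hlast'] at h4
      exact h4
    · rw [show ρ (tt (u', true)) ξ = ξ from hlast] at h4
      exact h4
  · show ρB (Multiplicative.ofAdd (if a.2.2 then (1 : ℤ) else -1)) ξ = ξ
    cases h6 : a.2.2
    · simp only [Bool.false_eq_true, if_false]
      rw [← hρf ()]
      exact hlast'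
    · simp only [if_true]
      rw [← hρt ()]
      exact hlast

/-- first and last sign positive -/
theorem HasS_caseB (hG : OA G) (b : Ent G Unit) (V : List (Ent G Unit)) (hb : b.2.2 = true)
    (hl : lsg true V = true) (hred : List.IsChain RedRel (b :: V))
    (hne : ∃ a ∈ V, a ≠ b) : HasS (b :: V) := by
  apply HasS_of_trf b.1 (b :: V) (by simp only [lsg, hb, hl])
  rcases b with ⟨g, ⟨u, s⟩⟩
  simp only at hb
  subst hb
  simp only [trf, if_true]
  have e : g⁻¹ * g * 1 = 1 := by group
  rw [e]
  have hl2 : ∀ (p : Bool) (V : List (Ent G Unit)), lsg p (trf g p V) = lsg p V := by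
    intro p V
    suffices h : ∀ (V : List (Ent G Unit)) (p q : Bool), lsg q (trf g p V) = lsg q V from h V p p
    intro V
    induction V with
    | nil => intro p q; rfl
    | cons a V ih => intro p q; simp only [trf, lsg]; exact ih _ _
  refine HasS_square hG u _ (by rw [hl2]; exact hl) ?_
  by_contra hcon
  push Not at hcon
  have key : ∀ (V : List (Ent G Unit)) (a0 : Ent G Unit), a0.2.2 = true →
      List.IsChain RedRel (a0 :: V) → (∀ a ∈ trf g true V, a.1 = 1) →
      ∀ a ∈ V, a = (g, (u, true)) := by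
    intro V
    induction V with
    | nil => intro a0 _ _ _ a ha; exact absurd ha (by simp)
    | cons c V ih =>
      intro a0 ha0 hch hall
      rw [List.isChain_cons_cons] at hch
      simp only [trf, if_true] at hall
      have h1 := hall _ (List.mem_cons_self)
      simp only at h1
      rcases c with ⟨g', ⟨u', s⟩⟩
      cases s
      · exfalso
        simp only [Bool.false_eq_true, if_false] at h1
        apply hch.1
        refine ⟨?_, ?_⟩
        · have h2 : g' = g * (g⁻¹ * g' * g) * g⁻¹ := by group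
          rw [h1] at h2
          simpa using h2
        · refine Prod.ext (Subsingleton.elim _ _) ?_
          simp [fl, ha0]
      · simp only [if_true, mul_one] at h1
        have h3 : g' = g := by
          have h2 : g' = g * (g⁻¹ * g') := by group
          rw [h1] at h2
          simpa using h2
        have h4 := ih (g', (u', true)) rfl hch.2 (by
          intro a ha
          exact hall a (List.mem_cons_of_mem _ ha))
        intro a ha
        rcases List.mem_cons.mp ha with rfl | ha
        · rw [h3]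
        · exact h4 a ha
  obtain ⟨a, ha, hab⟩ := hne
  exact hab (key V (g, (u, true)) rfl hred hcon a ha)

/-- level of a sign -/
def lev (b : Bool) : ℤ := if b then 1 else 0

/-- the alternating case -/
theorem HasS_caseA (hG : OA G) (L : List (Ent G Unit)) (hL : L ≠ [])
    (halt : CC (fun a b : Ent G Unit => a.2.2 ≠ b.2.2) L) (hred : CC RedRel L) : HasS L := by
  let let1 : Ent G Unit → G ⊕ G := fun a => if a.2.2 then Sum.inl a.1 else Sum.inr a.1
  -- first two entries
  obtain ⟨W, a0, hW⟩ : ∃ W a0, L = W ++ [a0] := by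
    rcases List.eq_nil_or_concat L with h | ⟨W, a, h⟩
    · exact absurd h hL
    · exact ⟨W, a, by simpa using h⟩
  have hlastL : L.getLast? = some a0 := by rw [hW]; simp
  obtain ⟨a, b, V, hab⟩ : ∃ a b V, L = a :: b :: V := by
    cases L with
    | nil => exact absurd rfl hL
    | cons a L =>
      cases L with
      | nil => exact absurd rfl (halt.2 a (by simp) a (by simp))
      | cons b V => exact ⟨a, b, V, rfl⟩
  have h1 : a.2.2 ≠ b.2.2 := by
    have := halt.1
    rw [hab, List.isChain_cons_cons] at this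
    exact this.1
  have nt : ∀ c d : Ent G Unit, c.2.2 ≠ d.2.2 → RedRel c d → d.1 ≠ 1 := by
    intro c d h2 h3 h4
    apply h3
    refine ⟨h4, Prod.ext (Subsingleton.elim _ _) ?_⟩
    simp only [fl]
    revert h2
    cases c.2.2 <;> cases d.2.2 <;> simp
  have hb1 : b.1 ≠ 1 := by
    have := hred.1
    rw [hab, List.isChain_cons_cons] at this
    exact nt a b h1 this.1
  have ha1 : a.1 ≠ 1 := nt a0 a (halt.2 a0 (by rw [hlastL]; simp) a (by rw [hab]; simp))
    (hred.2 a0 (by rw [hlastL]; simp) a (by rw [hab]; simp))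
  have hma : a ∈ L := by rw [hab]; simp
  have hmb : b ∈ L := by rw [hab]; simp
  have hboth : (∃ c ∈ L, c.2.2 = true ∧ c.1 ≠ 1) ∧ (∃ c ∈ L, c.2.2 = false ∧ c.1 ≠ 1) := by
    cases h2 : a.2.2 <;> cases h3 : b.2.2
    · exact absurd (h2.trans h3.symm) h1
    · exact ⟨⟨b, hmb, h3, hb1⟩, ⟨a, hma, h2, ha1⟩⟩
    · exact ⟨⟨a, hma, h2, ha1⟩, ⟨b, hmb, h3, hb1⟩⟩
    · exact absurd (h2.trans h3.symm) h1
  obtain ⟨Ω, _, ρA, ρB, ξ, hfix, hmove⟩ := OL hG hG (L.map let1) (by
    obtain ⟨⟨c, h2, h3, h4⟩, _⟩ := hboth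
    exact ⟨c.1, h4, List.mem_map.mpr ⟨c, h2, by simp [let1, h3]⟩⟩) (by
    obtain ⟨_, ⟨c, h2, h3, h4⟩⟩ := hboth
    exact ⟨c.1, h4, List.mem_map.mpr ⟨c, h2, by simp [let1, h3]⟩⟩)
  let ρ : FF G Unit →* ((ℤ ×ₗ Ω) ≃o (ℤ ×ₗ Ω)) :=
    Coprod.lift (lexHom fun j : ℤ => if j = 1 then ρA else ρB)
      (FreeGroup.lift fun _ => lexIso (OrderIso.addRight (1 : ℤ)) (fun _ => OrderIso.refl Ω))
  have hρh : ∀ (g : G) (b : Bool) (x : Ω), ρ (hh g) (toLex (lev b, x)) =
      toLex (lev b, Sum.elim ρA ρB (if b then Sum.inl g else Sum.inr g) x) := by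
    intro g b x
    have : ρ (hh g) = lexHom (fun j : ℤ => if j = 1 then ρA else ρB) g := by simp [ρ, hh]
    rw [this, lexHom_apply]
    cases b <;> simp [lev]
  have hρt : ∀ (u : Unit) (x : Ω), ρ (tt (u, true)) (toLex (0, x)) = toLex ((1 : ℤ), x) := by
    intro u x
    have : ρ (tt (u, true)) =
      lexIso (OrderIso.addRight (1 : ℤ)) (fun _ => OrderIso.refl Ω) := by simp [ρ, tt]
    rw [this, lexIso_apply]
    simp
  have hρf : ∀ (u : Unit) (x : Ω), ρ (tt (u, false)) (toLex ((1 : ℤ), x)) = toLex (0, x) := by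
    intro u x
    rw [← hρt u x, ← RelIso.mul_apply, ← map_mul]
    have : (tt (u, false) : FF G Unit) = (tt (u, true))⁻¹ := by rw [← tt_fl]; rfl
    rw [this, inv_mul_cancel, map_one]
    rfl
  have hρs : ∀ (x : Sg Unit) (y : Ω), ρ (tt x) (toLex (lev (!x.2), y)) = toLex (lev x.2, y) := by
    rintro ⟨u, s⟩ y
    cases s
    · exact hρf u y
    · exact hρt u y
  set ξ' : ℤ ×ₗ Ω := toLex (lev (!a0.2.2), ξ) with hξ'
  -- the sign read by a suffix
  let σ : List (Ent G Unit) → Bool := fun V => (V.head?.map (fun a => a.2.2)).getD (!a0.2.2)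
  have hσ : ∀ (W : List (Ent G Unit)) (c : Ent G Unit) (V : List (Ent G Unit)),
      L = W ++ c :: V → σ V = !c.2.2 := by
    intro W c V h2
    cases V with
    | nil =>
      have h3 : L.getLast? = some c := by rw [h2]; simp
      rw [hlastL, Option.some.injEq] at h3
      subst h3
      simp [σ]
    | cons d V =>
      have h3 := halt.1
      rw [h2, List.isChain_append, List.isChain_cons_cons] at h3
      have h4 := h3.2.1.1
      simp only [σ, List.head?_cons, Option.map_some, Option.getD_some]
      revert h4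
      cases c.2.2 <;> cases d.2.2 <;> simp
  have hpath : ∀ (V W : List (Ent G Unit)), L = W ++ V →
      ρ (pr V) ξ' = toLex (lev (σ V), ((V.map let1).map (Sum.elim ρA ρB)).prod ξ) := by
    intro V
    induction V with
    | nil => intro W _; simp [hξ', σ]
    | cons c V ih =>
      intro W h2
      have h3 := ih (W ++ [c]) (by rw [h2]; simp)
      rw [pr_cons, map_mul, map_mul, RelIso.mul_apply, RelIso.mul_apply, h3, hσ W c V h2, hρs,
        hρh]
      simp only [List.map_cons, List.prod_cons, RelIso.mul_apply]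
      rfl
  have hfull : ρ (pr L) ξ' = ξ' := by
    rw [hpath L [] rfl, hfix, hξ']
    congr 2
    have h2 : σ L = a.2.2 := by rw [hab]; simp [σ]
    rw [h2]
    have h3 : a0.2.2 ≠ a.2.2 := halt.2 a0 (by rw [hlastL]; simp) a (by rw [hab]; simp)
    revert h3
    cases a0.2.2 <;> cases a.2.2 <;> simp
  refine ⟨ℤ ×ₗ Ω, inferInstance, ρ, ξ', hfull, ?_⟩
  by_contra hcon
  push Not at hcon
  have hz : ∀ (W : List (Ent G Unit)) (c : Ent G Unit) (V : List (Ent G Unit)),
      L = W ++ c :: V →
      ((c.2.1, toLex ((1 : ℤ), ((V.map let1).map (Sum.elim ρA ρB)).prod ξ)) : Unit × (ℤ ×ₗ Ω)) ∈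
        zl ρ L ξ' := by
    intro W c V h2
    have h3 := hpath V (W ++ [c]) (by rw [h2]; simp)
    rw [h2, zl_append, List.mem_append]
    right
    simp only [zl]
    rw [h3, hσ W c V h2, List.mem_cons]
    left
    rcases c with ⟨g, ⟨u, s⟩⟩
    cases s
    · rfl
    · simp only [zpt, if_true]
      rw [hρs (u, true)]
      rfl
  have hsuf : ∀ W V : List (Ent G Unit), L = W ++ V →
      ((V.map let1).map (Sum.elim ρA ρB)).prod ξ = ξ := by
    intro W V h2
    rcases List.eq_nil_or_concat W with rfl | ⟨W', c, rfl⟩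
    · rw [List.nil_append] at h2
      rw [← h2]; exact hfix
    · simp only [List.concat_eq_append, List.append_assoc, List.singleton_append] at h2
      have h3 := hz W' c V h2
      obtain ⟨W2, a2, hW2⟩ : ∃ W a0, L = W ++ [a0] := ⟨W, a0, hW⟩
      have h4 := hz W2 a2 [] hW2
      have h5 := hcon _ h3 _ h4 (Subsingleton.elim _ _)
      simp only [List.map_nil, List.prod_nil] at h5
      have h6 := congrArg (fun p => (ofLex p).2) h5
      simpa using h6
  obtain ⟨c, hc, hc2⟩ := hmove
  apply hc2
  rw [List.mem_map] at hc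
  obtain ⟨d, hd, rfl⟩ := hc
  obtain ⟨W1, V1, h3⟩ := List.append_of_mem hd
  have h4 := hsuf W1 (d :: V1) h3
  have h5 := hsuf (W1 ++ [d]) V1 (by rw [h3]; simp)
  rw [List.map_cons, List.map_cons, List.prod_cons, RelIso.mul_apply, h5] at h4
  exact h4

/-- one stable letter: separation of two crossing points -/
theorem HasS_one (hG : OA G) (L : List (Ent G Unit)) (hred : CC RedRel L)
    (hne : ∃ a ∈ L, ∃ b ∈ L, a ≠ b) : HasS L := by
  have hL : L ≠ [] := by
    rintro rfl
    obtain ⟨a, ha, _⟩ := hne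
    exact absurd ha (by simp)
  by_cases halt : CC (fun a b : Ent G Unit => a.2.2 ≠ b.2.2) L
  · exact HasS_caseA hG L hL halt hred
  -- both ends with the same sign
  have main : ∀ L : List (Ent G Unit), CC RedRel L → (∃ a ∈ L, ∃ b ∈ L, a ≠ b) →
      (∃ a ∈ L.getLast?, ∃ b ∈ L.head?, a.2.2 = b.2.2) → HasS L := by
    intro L hred hne hends
    have pos : ∀ L : List (Ent G Unit), CC RedRel L → (∃ a ∈ L, ∃ b ∈ L, a ≠ b) →
        (∃ a ∈ L.getLast?, ∃ b ∈ L.head?, a.2.2 = true ∧ b.2.2 = true) → HasS L := by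
      intro L hred hne hends
      obtain ⟨a, ha, b, hb, ha2, hb2⟩ := hends
      cases L with
      | nil => exact absurd ha (by simp)
      | cons c V =>
        simp only [List.head?_cons, Option.mem_def, Option.some.injEq] at hb
        subst hb
        have hl : lsg true V = true := by
          rcases List.eq_nil_or_concat V with rfl | ⟨W, d, rfl⟩
          · rfl
          · simp only [List.concat_eq_append] at ha ⊢
            rw [← List.cons_append, List.getLast?_concat, Option.mem_def,
              Option.some.injEq] at ha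
            subst ha
            rw [lsg_append]
            exact ha2
        apply HasS_caseB hG c V hb2 hl hred.1
        by_contra hcon
        push Not at hcon
        obtain ⟨x, hx, y, hy, hxy⟩ := hne
        apply hxy
        have hall : ∀ x ∈ c :: V, x = c := by
          intro x hx
          rcases List.mem_cons.mp hx with h0 | h0
          · exact h0
          · exact hcon x h0
        rw [hall x hx, hall y hy]
    obtain ⟨a, ha, b, hb, hab⟩ := hends
    cases hs : a.2.2
    · -- flip
      apply HasS.flip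
      have hrel : ∀ c d : Ent G Unit, RedRel c d → RedRel (flipE c) (flipE d) := by
        rintro ⟨g, ⟨u, s⟩⟩ ⟨g', ⟨u', s'⟩⟩ h3 h4
        apply h3
        refine ⟨h4.1, ?_⟩
        have := h4.2
        simp only [flipE, fl, Prod.mk.injEq] at this ⊢
        refine ⟨trivial, ?_⟩
        have h5 := this.2
        revert h5
        cases s <;> cases s' <;> decide
      apply pos
      · refine ⟨?_, ?_⟩
        · rw [List.isChain_map]
          exact hred.1.imp hrel
        · intro c hc d hd
          rw [List.getLast?_map, Option.mem_def, Option.map_eq_some_iff] at hc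
          rw [List.head?_map, Option.mem_def, Option.map_eq_some_iff] at hd
          obtain ⟨c', hc', rfl⟩ := hc
          obtain ⟨d', hd', rfl⟩ := hd
          exact hrel _ _ (hred.2 c' hc' d' hd')
      · obtain ⟨x, hx, y, hy, hxy⟩ := hne
        refine ⟨flipE x, List.mem_map_of_mem hx, flipE y, List.mem_map_of_mem hy, ?_⟩
        intro h
        apply hxy
        have h2 := congrArg flipE h
        simpa [flipE] using h2
      · refine ⟨flipE a, ?_, flipE b, ?_, ?_, ?_⟩
        · rw [List.getLast?_map, Option.mem_def, Option.map_eq_some_iff]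
          exact ⟨a, ha, rfl⟩
        · rw [List.head?_map, Option.mem_def, Option.map_eq_some_iff]
          exact ⟨b, hb, rfl⟩
        · simp [flipE, fl, hs]
        · simp [flipE, fl, ← hab, hs]
    · exact pos L hred hne ⟨a, ha, b, hb, hs, by rw [← hab, hs]⟩
  by_cases hch : List.IsChain (fun a b : Ent G Unit => a.2.2 ≠ b.2.2) L
  · apply main L hred hne
    by_contra hcon
    push Not at hcon
    exact halt ⟨hch, hcon⟩
  · obtain ⟨U, a, b, V, h1, h2⟩ := exists_not_chain L hch
    have h3 : L = (U ++ [a]) ++ (b :: V) := by rw [h1]; simp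
    rw [h3]
    apply HasS.rot
    apply main
    · apply CC_comm
      rw [← h3]; exact hred
    · obtain ⟨x, hx, y, hy, hxy⟩ := hne
      refine ⟨x, ?_, y, ?_, hxy⟩
      · rw [h3] at hx
        rw [List.mem_append] at hx ⊢
        exact hx.symm
      · rw [h3] at hy
        rw [List.mem_append] at hy ⊢
        exact hy.symm
    · refine ⟨a, ?_, b, ?_, ?_⟩
      · rw [← List.append_assoc, List.getLast?_concat]
        rfl
      · simp
      · simpa using h2

end one

end Run7.h847
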