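import Mathlib
import Pool.Agent.Run7.h847.Sep1

set_option autoImplicit false
set_option linter.unusedSectionVars false
set_option linter.unusedSimpArgs false

/-!
# Several stable letters
-/

namespace Run7.h847

open Monoid

/-- not invariant under a proper rotation -/
def Prim {α : Type} (l : List α) : Prop := ∀ k, 0 < k → k < l.length → l.rotate k ≠ l

theorem Prim.rot {α : Type} {U V : List α} (h : Prim (U ++ V)) : Prim (V ++ U) := by
  intro k hk1 hk2 hk3
  have e1 : (U ++ V).rotate U.length = V ++ U := List.rotate_append_length_eq U V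
  rw [← e1, List.rotate_rotate] at hk3
  rw [add_comm, ← List.rotate_rotate] at hk3
  have h2 := List.rotate_injective U.length hk3
  refine h k hk1 ?_ h2
  rw [List.length_append] at hk2 ⊢
  omega

theorem Prim.of_map {α β : Type} (f : α → β) {l : List α} (h : Prim (l.map f)) : Prim l := by
  intro k hk1 hk2 hk3
  apply h k hk1 (by simpa using hk2)
  rw [← List.map_rotate, hk3]

section multi

variable {H T : Type} [Group H]

/-- blocks ending with the stable letter of type `τ` -/
abbrev Bk (H T : Type) := List (Ent H T) × H × Bool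

/-- the word of a block -/
def bl (τ : T) (b : Bk H T) : List (Ent H T) := b.1 ++ [(b.2.1, (τ, b.2.2))]

/-- the entry of a block -/
def ent (b : Bk H T) : Ent (FF H T) Unit := (pr b.1 * hh b.2.1, ((), b.2.2))

theorem exists_blocks (τ : T) (l : List (Ent H T)) (hl : l = [] ∨ ∃ a ∈ l.getLast?, a.2.1 = τ) :
    ∃ B : List (Bk H T), l = B.flatMap (bl τ) ∧ ∀ b ∈ B, ∀ a ∈ b.1, a.2.1 ≠ τ := by
  induction l with
  | nil => exact ⟨[], rfl, by simp⟩
  | cons a l ih =>
    by_cases h0 : l = []
    · subst h0
      rcases hl with hl | ⟨c, hc, hc2⟩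
      · exact absurd hl (by simp)
      · simp only [List.getLast?_singleton, Option.mem_def, Option.some.injEq] at hc
        subst hc
        refine ⟨[([], a.1, a.2.2)], ?_, by simp⟩
        simp only [List.flatMap_cons, List.flatMap_nil, bl, List.nil_append, List.append_nil]
        rw [← hc2]
    · have hl' : ∃ a ∈ l.getLast?, a.2.1 = τ := by
        rcases hl with hl | ⟨c, hc, hc2⟩
        · exact absurd hl (by simp)
        · refine ⟨c, ?_, hc2⟩
          obtain ⟨d, l', rfl⟩ := List.exists_cons_of_ne_nil h0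
          rwa [List.getLast?_cons_cons] at hc
      obtain ⟨B, hB1, hB2⟩ := ih (Or.inr hl')
      by_cases ha : a.2.1 = τ
      · refine ⟨([], a.1, a.2.2) :: B, ?_, ?_⟩
        · rw [List.flatMap_cons, ← hB1]
          simp only [bl, List.nil_append, List.singleton_append]
          rw [← ha]
        · intro b hb
          rcases List.mem_cons.mp hb with rfl | hb
          · simp
          · exact hB2 b hb
      · cases B with
        | nil => exact absurd hB1 (by simpa using h0)
        | cons b B =>
          refine ⟨(a :: b.1, b.2) :: B, ?_, ?_⟩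
          · rw [hB1]
            simp [bl]
          · intro c hc
            rcases List.mem_cons.mp hc with rfl | hc
            · intro d hd
              rcases List.mem_cons.mp hd with rfl | hd
              · exact ha
              · exact hB2 b (by simp) d hd
            · exact hB2 c (by simp [hc])

theorem red_of_infix {l m : List (Ent H T)} (h : List.IsChain RedRel l) (h2 : m <:+: l) :
    Red m := by
  obtain ⟨s, t, rfl⟩ := h2
  rw [List.isChain_append, List.isChain_append] at h
  exact h.1.2.1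

theorem lst_of_pr_mul {l : List (Ent H T)} (hl : Red l) (h : H) (g : FF H T)
    (e : pr l * hh h = g) : l = lst g := by
  rw [← e, lst_pr l hl]

theorem chain_ent (τ : T) (B : List (Bk H T)) (h : List.IsChain RedRel (B.flatMap (bl τ))) :
    List.IsChain RedRel (B.map ent) := by
  induction B with
  | nil => simp
  | cons b B ih =>
    cases B with
    | nil => simp
    | cons b' B =>
      rw [List.map_cons, List.map_cons, List.isChain_cons_cons]
      refine ⟨?_, ?_⟩
      · rintro ⟨h1, h2⟩
        have hr : Red b'.1 := by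
          refine red_of_infix h ⟨bl τ b, [(b'.2.1, (τ, b'.2.2))] ++ B.flatMap (bl τ), ?_⟩
          simp [bl]
        have h3 := lst_of_pr_mul hr b'.2.1 1 h1
        rw [lst_one] at h3
        simp only [ent] at h1
        rw [h3, pr_nil, one_mul] at h1
        have h4 : b'.2.1 = 1 := by
          have : (Coprod.inl b'.2.1 : FF H T) = Coprod.inl 1 := by rw [map_one]; exact h1
          exact Coprod.inl_injective this
        have h5 : List.IsChain RedRel
            ([(b.2.1, (τ, b.2.2)), (b'.2.1, (τ, b'.2.2))] : List (Ent H T)) := by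
          refine red_of_infix h ⟨b.1, B.flatMap (bl τ), ?_⟩
          simp [bl, h3]
        rw [List.isChain_cons_cons] at h5
        apply h5.1
        refine ⟨h4, ?_⟩
        simp only [ent, fl, Prod.mk.injEq, true_and] at h2 ⊢
        exact h2
      · apply ih
        rw [List.flatMap_cons, List.isChain_append] at h
        exact h.2.1

open Classical in
/-- transported action -/
noncomputable def mrho (τ : T) {Ω : Type} [LinearOrder Ω]
    (ρ : FF (FF H T) Unit →* (Ω ≃o Ω)) : FF H T →* (Ω ≃o Ω) :=
  Coprod.lift (ρ.comp (Coprod.inl.comp Coprod.inl))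
    (FreeGroup.lift fun σ => if σ = τ then ρ (tt ((), true)) else ρ (hh (tt (σ, true))))

section

variable (τ : T) {Ω : Type} [LinearOrder Ω] (ρ : FF (FF H T) Unit →* (Ω ≃o Ω))

theorem mrho_hh (h : H) : mrho τ ρ (hh h) = ρ (hh (hh h)) := by simp [mrho, hh]

theorem mrho_same (b : Bool) : mrho τ ρ (tt (τ, b)) = ρ (tt ((), b)) := by
  cases b <;> simp [mrho, tt]

theorem mrho_other (σ : T) (hσ : σ ≠ τ) (b : Bool) :
    mrho τ ρ (tt (σ, b)) = ρ (hh (tt (σ, b))) := by
  cases b <;> simp [mrho, tt, hσ, hh]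

theorem mrho_pr (l : List (Ent H T)) (hl : ∀ a ∈ l, a.2.1 ≠ τ) :
    mrho τ ρ (pr l) = ρ (hh (pr l)) := by
  induction l with
  | nil => simp
  | cons a l ih =>
    rw [pr_cons, map_mul, map_mul, ih (fun b hb => hl b (by simp [hb])), mrho_hh]
    rcases a with ⟨h, ⟨σ, b⟩⟩
    rw [mrho_other τ ρ σ (hl (h, (σ, b)) (by simp))]
    simp [hh]

theorem mrho_bl (b : Bk H T) (hb : ∀ a ∈ b.1, a.2.1 ≠ τ) :
    mrho τ ρ (pr (bl τ b)) = ρ (pr [ent b]) := by
  rw [bl, pr_append, map_mul, mrho_pr τ ρ b.1 hb]
  simp only [pr_cons, pr_nil, mul_one, ent, map_mul]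
  rw [mrho_hh, mrho_same]
  simp [hh, mul_assoc]

theorem mrho_blocks (B : List (Bk H T)) (hB : ∀ b ∈ B, ∀ a ∈ b.1, a.2.1 ≠ τ) :
    mrho τ ρ (pr (B.flatMap (bl τ))) = ρ (pr (B.map ent)) := by
  induction B with
  | nil => simp
  | cons b B ih =>
    rw [List.flatMap_cons, pr_append, map_mul, mrho_bl τ ρ b (hB b (by simp)),
      ih (fun b' hb' => hB b' (by simp [hb'])), ← map_mul, ← pr_append]
    rfl

theorem mem_zl_blocks (ξ : Ω) (B : List (Bk H T)) (hB : ∀ b ∈ B, ∀ a ∈ b.1, a.2.1 ≠ τ)
    (p : Unit × Ω) (hp : p ∈ zl ρ (B.map ent) ξ) :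
    (τ, p.2) ∈ zl (mrho τ ρ) (B.flatMap (bl τ)) ξ := by
  induction B with
  | nil => exact absurd hp (by simp [zl])
  | cons b B ih =>
    have hB' : ∀ b ∈ B, ∀ a ∈ b.1, a.2.1 ≠ τ := fun b' hb' => hB b' (by simp [hb'])
    rw [List.flatMap_cons, zl_append, List.mem_append]
    rw [List.map_cons] at hp
    simp only [zl, List.mem_cons] at hp
    rcases hp with rfl | hp
    · left
      rw [bl, zl_append, List.mem_append]
      right
      simp only [zl, pr_nil, map_one, List.mem_cons, List.not_mem_nil, or_false]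
      refine Prod.ext rfl ?_
      simp only
      rw [mrho_blocks τ ρ B hB']
      rcases b with ⟨b1, h, s⟩
      cases s
      · simp [zpt, ent]
      · simp only [zpt, ent, if_true]
        rw [mrho_same]
        simp
    · right
      exact ih hB' hp

end

/-- separation of two crossing points of some type -/
theorem HasS_multi (hH : OA H) (l : List (Ent H T)) (hred : CC RedRel l) (hprim : Prim l)
    (hdup : ¬ (l.map (fun a => a.2.1)).Nodup) : HasS l := by
  classical
  have hG : OA (FF H T) := OA_FF hH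
  -- a repeated type
  obtain ⟨W1, a, W2, b, W3, hl, hab⟩ : ∃ W1 a W2 b W3, l = W1 ++ a :: (W2 ++ b :: W3) ∧
      a.2.1 = b.2.1 := by
    clear hred hprim
    induction l with
    | nil => exact absurd List.nodup_nil hdup
    | cons c l ih =>
      rw [List.map_cons, List.nodup_cons, not_and_or, not_not] at hdup
      rcases hdup with h | h
      · rw [List.mem_map] at h
        obtain ⟨d, hd, hd2⟩ := h
        obtain ⟨X, Y, rfl⟩ := List.append_of_mem hd
        exact ⟨[], c, X, d, Y, rfl, hd2.symm⟩
      · obtain ⟨W1, a, W2, b, W3, h1, h2⟩ := ih h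
        exact ⟨c :: W1, a, W2, b, W3, by rw [h1]; rfl, h2⟩
  have e0 : l = (W1 ++ [a]) ++ (W2 ++ b :: W3) := by rw [hl]; simp
  rw [e0]
  apply HasS.rot
  rw [e0] at hred hprim
  have hred' := CC_comm _ _ hred
  have hprim' := hprim.rot
  set l' := (W2 ++ b :: W3) ++ (W1 ++ [a]) with hl'
  set τ := a.2.1 with hτ
  obtain ⟨B, hB1, hB2⟩ := exists_blocks τ l' (Or.inr ⟨a, by
    rw [hl', ← List.append_assoc, List.getLast?_concat]; rfl, rfl⟩)
  -- at least two blocks
  have hcount : (l'.filter (fun c => c.2.1 = τ)).length = B.length := by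
    rw [hB1]
    clear_value l'
    clear hB1 hl' hred' hprim'
    induction B with
    | nil => simp
    | cons c B ih =>
      rw [List.flatMap_cons, List.filter_append, List.length_append,
        ih (fun b' hb' => hB2 b' (by simp [hb']))]
      have h1 : c.1.filter (fun c => c.2.1 = τ) = [] := by
        rw [List.filter_eq_nil_iff]
        intro d hd
        simpa using hB2 c (by simp) d hd
      rw [bl, List.filter_append, h1]
      simp [add_comm]
  have htwo : 2 ≤ B.length := by
    rw [← hcount, hl']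
    have ha : decide (a.2.1 = τ) = true := by simp [hτ]
    have hb : decide (b.2.1 = τ) = true := by simp [hab]
    simp only [List.filter_append, List.filter_cons, ha, hb, if_true, List.filter_nil,
      List.length_append, List.length_cons, List.length_nil]
    omega
  -- the chain condition for the entries
  have hchain : CC RedRel (B.map ent) := by
    apply CC_of_dbl
    rw [← List.map_append]
    apply chain_ent τ
    rw [List.flatMap_append, ← hB1]
    exact CC_dbl _ hred'
  have hne : ∃ x ∈ B.map ent, ∃ y ∈ B.map ent, x ≠ y := by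
    by_contra hcon
    push Not at hcon
    obtain ⟨b1, b2, B', rfl⟩ : ∃ b1 b2 B', B = b1 :: b2 :: B' := by
      match B, htwo with
      | b1 :: b2 :: B', _ => exact ⟨b1, b2, B', rfl⟩
    have hall : ∀ c ∈ b1 :: b2 :: B', c = b1 := by
      intro c hc
      have h1 := hcon (ent c) (List.mem_map_of_mem hc) (ent b1)
        (List.mem_map_of_mem (by simp))
      have hred1 : ∀ c ∈ b1 :: b2 :: B', Red c.1 := by
        intro c hc
        refine red_of_infix hred'.1 ?_
        rw [hB1]
        obtain ⟨X, Y, hXY⟩ := List.append_of_mem hc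
        rw [hXY]
        refine ⟨X.flatMap (bl τ), [(c.2.1, (τ, c.2.2))] ++ Y.flatMap (bl τ), ?_⟩
        simp [bl]
      simp only [ent, Prod.mk.injEq, true_and] at h1
      have h2 := lst_of_pr_mul (hred1 c hc) c.2.1 _ rfl
      have h3 := lst_of_pr_mul (hred1 b1 (by simp)) b1.2.1 _ rfl
      have h4 : c.1 = b1.1 := by rw [h2, h3, h1.1]
      have h5 : c.2.1 = b1.2.1 := by
        have h6 := h1.1
        rw [h4] at h6
        exact Coprod.inl_injective (mul_left_cancel h6)
      rcases c with ⟨c1, c2, c3⟩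
      rcases b1 with ⟨d1, d2, d3⟩
      simp only at h4 h5 h1
      rw [h4, h5, h1.2]
    have hrep : (b2 :: B') = List.replicate (B'.length + 1) b1 := by
      rw [List.eq_replicate_iff]
      refine ⟨by simp, ?_⟩
      intro c hc
      exact hall c (by simp at hc ⊢; tauto)
    refine hprim' (bl τ b1).length (by simp [bl]) ?_ ?_
    · rw [hB1]
      simp only [List.flatMap_cons, List.length_append]
      simp [bl]
    · rw [hB1, List.flatMap_cons, List.rotate_append_length_eq]
      rw [hrep]
      clear * -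
      induction B'.length + 1 with
      | zero => simp
      | succ k ih =>
        rw [List.replicate_succ, List.flatMap_cons, List.append_assoc, ih]
  obtain ⟨Ω, _, ρ, ξ, h1, p, hp, p', hp', _, h3⟩ := HasS_one hG (B.map ent) hchain hne
  refine ⟨Ω, _, mrho τ ρ, ξ, ?_, ?_⟩
  · rw [hB1, mrho_blocks τ ρ B hB2]
    exact h1
  · rw [hB1]
    exact ⟨_, mem_zl_blocks τ ρ ξ B hB2 p hp, _, mem_zl_blocks τ ρ ξ B hB2 p' hp', rfl, h3⟩

end multi

/-! ### the bundle induction -/

section bundle

variable {H : Type} [Group H]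

/-- relabelled word -/
def rl {T Ω : Type} [LinearOrder Ω] (ρ : FF H T →* (Ω ≃o Ω)) (lab : T × Ω → ℕ) :
    List (Ent H T) → Ω → List (Ent H ℕ)
  | [], _ => []
  | a :: V, ξ => (a.1, (lab (a.2.1, zpt ρ a.2 (ρ (pr V) ξ)), a.2.2)) :: rl ρ lab V ξ

theorem rl_types {T Ω : Type} [LinearOrder Ω] (ρ : FF H T →* (Ω ≃o Ω)) (lab : T × Ω → ℕ)
    (l : List (Ent H T)) (ξ : Ω) :
    (rl ρ lab l ξ).map (fun a => a.2.1) = (zl ρ l ξ).map lab := by
  induction l with
  | nil => rfl
  | cons a V ih => simp only [rl, zl, List.map_cons, ih]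

theorem rl_length {T Ω : Type} [LinearOrder Ω] (ρ : FF H T →* (Ω ≃o Ω)) (lab : T × Ω → ℕ)
    (l : List (Ent H T)) (ξ : Ω) : (rl ρ lab l ξ).length = l.length := by
  induction l with
  | nil => rfl
  | cons a V ih => simp only [rl, List.length_cons, ih]

theorem rl_un {T Ω : Type} [LinearOrder Ω] (ρ : FF H T →* (Ω ≃o Ω)) (lab : T × Ω → ℕ)
    (un : ℕ → T) (l : List (Ent H T)) (ξ : Ω) (hun : ∀ p ∈ zl ρ l ξ, un (lab p) = p.1) :
    (rl ρ lab l ξ).map (fun a => ((a.1, (un a.2.1, a.2.2)) : Ent H T)) = l := by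
  induction l with
  | nil => rfl
  | cons a V ih =>
    simp only [rl, List.map_cons]
    rw [ih (fun p hp => hun p (by simp [zl, hp]))]
    rw [hun _ (by simp [zl])]

/-- the refined action -/
def rho2 {T Ω Ω' : Type} [LinearOrder Ω] [LinearOrder Ω'] (ρ : FF H T →* (Ω ≃o Ω))
    (ρ' : FF H ℕ →* (Ω' ≃o Ω')) (lab : T × Ω → ℕ) : FF H T →* ((Ω ×ₗ Ω') ≃o (Ω ×ₗ Ω')) :=
  Coprod.lift
    { toFun := fun h => lexIso (ρ (hh h)) (fun _ => ρ' (hh h))
      map_one' := by
        refine DFunLike.ext _ _ ?_
        intro p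
        obtain ⟨a, b⟩ := p
        show lexIso _ _ (toLex (a, b)) = _
        rw [lexIso_apply]
        simp
        rfl
      map_mul' := by
        intro c c'
        refine DFunLike.ext _ _ ?_
        intro p
        rw [RelIso.mul_apply]
        obtain ⟨a, b⟩ := p
        show lexIso _ _ (toLex (a, b)) = lexIso _ _ (lexIso _ _ (toLex (a, b)))
        rw [lexIso_apply, lexIso_apply, lexIso_apply]
        simp [hh] }
    (FreeGroup.lift fun σ => lexIso (ρ (tt (σ, true)))
      (fun y => ρ' (tt (lab (σ, ρ (tt (σ, true)) y), true))))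

section

variable {T Ω Ω' : Type} [LinearOrder Ω] [LinearOrder Ω'] (ρ : FF H T →* (Ω ≃o Ω))
    (ρ' : FF H ℕ →* (Ω' ≃o Ω')) (lab : T × Ω → ℕ)

theorem rho2_hh (h : H) (x : Ω) (y : Ω') :
    rho2 ρ ρ' lab (hh h) (toLex (x, y)) = toLex (ρ (hh h) x, ρ' (hh h) y) := by
  have : rho2 ρ ρ' lab (hh h) = lexIso (ρ (hh h)) (fun _ => ρ' (hh h)) := by simp [rho2, hh]
  rw [this, lexIso_apply]

theorem rho2_true (σ : T) (x : Ω) (y : Ω') :
    rho2 ρ ρ' lab (tt (σ, true)) (toLex (x, y)) =
      toLex (ρ (tt (σ, true)) x, ρ' (tt (lab (σ, ρ (tt (σ, true)) x), true)) y) := by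
  have : rho2 ρ ρ' lab (tt (σ, true)) = lexIso (ρ (tt (σ, true)))
      (fun y => ρ' (tt (lab (σ, ρ (tt (σ, true)) y), true))) := by simp [rho2, tt]
  rw [this, lexIso_apply]

theorem rho2_false (σ : T) (x : Ω) (y : Ω') :
    rho2 ρ ρ' lab (tt (σ, false)) (toLex (x, y)) =
      toLex (ρ (tt (σ, false)) x, ρ' (tt (lab (σ, x), false)) y) := by
  have e1 : (tt (σ, false) : FF H T) = (tt (σ, true))⁻¹ := by rw [← tt_fl]; rfl
  have e2 : (tt (lab (σ, x), false) : FF H ℕ) = (tt (lab (σ, x), true))⁻¹ := by
    rw [← tt_fl]; rfl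
  rw [e1, e2, map_inv, map_inv, map_inv]
  apply (rho2 ρ ρ' lab (tt (σ, true))).injective
  have h1 : rho2 ρ ρ' lab (tt (σ, true)) ((rho2 ρ ρ' lab (tt (σ, true)))⁻¹ (toLex (x, y))) =
      toLex (x, y) := (rho2 ρ ρ' lab (tt (σ, true))).apply_symm_apply _
  rw [h1, rho2_true]
  have h2 : ρ (tt (σ, true)) ((ρ (tt (σ, true)))⁻¹ x) = x :=
    (ρ (tt (σ, true))).apply_symm_apply _
  rw [h2]
  have h3 : ρ' (tt (lab (σ, x), true)) ((ρ' (tt (lab (σ, x), true)))⁻¹ y) = y :=
    (ρ' (tt (lab (σ, x), true))).apply_symm_apply _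
  rw [h3]

theorem rho2_step (a : Ent H T) (x : Ω) (y : Ω') :
    rho2 ρ ρ' lab (tt a.2) (toLex (x, y)) =
      toLex (ρ (tt a.2) x, ρ' (tt (lab (a.2.1, zpt ρ a.2 x), a.2.2)) y) := by
  rcases a with ⟨h, ⟨σ, b⟩⟩
  cases b
  · rw [rho2_false]
    simp [zpt]
  · rw [rho2_true]
    simp [zpt]

theorem rho2_pr (l : List (Ent H T)) (ξ : Ω) (ξ' : Ω') :
    rho2 ρ ρ' lab (pr l) (toLex (ξ, ξ')) =
      toLex (ρ (pr l) ξ, ρ' (pr (rl ρ lab l ξ)) ξ') := by
  induction l with
  | nil => simp [rl]
  | cons a V ih =>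
    simp only [rl, pr_cons]
    rw [map_mul, map_mul, RelIso.mul_apply, RelIso.mul_apply, ih, rho2_step, rho2_hh]
    simp only [map_mul, RelIso.mul_apply]

theorem rho2_zl (l : List (Ent H T)) (ξ : Ω) (ξ' : Ω') :
    (zl (rho2 ρ ρ' lab) l (toLex (ξ, ξ'))).map
      (fun p => (lab (p.1, (ofLex p.2).1), (ofLex p.2).2)) =
      zl ρ' (rl ρ lab l ξ) ξ' := by
  induction l with
  | nil => rfl
  | cons a V ih =>
    simp only [zl, rl, List.map_cons]
    rw [ih, rho2_pr]
    congr 1
    rcases a with ⟨h, ⟨σ, b⟩⟩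
    cases b
    · simp [zpt]
    · simp only [zpt, if_true]
      rw [rho2_true]
      simp

end

/-- number of types -/
noncomputable def ntyp (l : List (Ent H ℕ)) : ℕ := (l.map (fun a => a.2.1)).toFinset.card

theorem ntyp_le (l : List (Ent H ℕ)) : ntyp l ≤ l.length := by
  have := List.toFinset_card_le (l.map (fun a => a.2.1))
  simpa [ntyp] using this

/-- full separation -/
theorem HasN_all (hH : OA H) : ∀ (k : ℕ) (l : List (Ent H ℕ)), l.length - ntyp l = k →
    CC RedRel l → Prim l → HasN l := by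
  classical
  intro k
  induction k using Nat.strong_induction_on with
  | _ k ih =>
  intro l hk hred hprim
  by_cases hnd : (l.map (fun a => a.2.1)).Nodup
  · refine ⟨PUnit, inferInstance, 1, PUnit.unit, rfl, ?_⟩
    apply List.Nodup.of_map Prod.fst
    rw [zl_types]
    exact hnd
  · obtain ⟨Ω, _, ρ, ξ, h1, p, hp, p', hp', h2, h3⟩ := HasS_multi hH l hred hprim hnd
    let lab : ℕ × Ω → ℕ := fun p => (zl ρ l ξ).idxOf p
    have hlab : ∀ x ∈ zl ρ l ξ, ∀ y ∈ zl ρ l ξ, lab x = lab y → x = y := by
      intro x hx y hy hxy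
      exact (List.idxOf_inj hx).mp hxy
    let un : ℕ → ℕ := fun n => (((zl ρ l ξ)[n]?).map Prod.fst).getD 0
    have hun : ∀ x ∈ zl ρ l ξ, un (lab x) = x.1 := by
      intro x hx
      have h4 : (zl ρ l ξ)[lab x]? = some x := List.getElem?_idxOf hx
      simp only [un, h4, Option.map_some, Option.getD_some]
    set l' := rl ρ lab l ξ with hl'
    have hmap := rl_un ρ lab un l ξ hun
    -- the refined word is reduced and primitive
    have hred' : CC RedRel l' := by
      have hrel : ∀ a b : Ent H ℕ, RedRel ((a.1, (un a.2.1, a.2.2)) : Ent H ℕ)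
          (b.1, (un b.2.1, b.2.2)) → RedRel a b := by
        intro a b h4 h5
        apply h4
        refine ⟨h5.1, ?_⟩
        have h6 := h5.2
        simp only [fl] at h6 ⊢
        rw [h6]
      rw [← hmap] at hred
      refine ⟨?_, ?_⟩
      · have h4 := hred.1
        rw [List.isChain_map] at h4
        exact h4.imp (fun a b => hrel a b)
      · intro a ha b hb
        apply hrel
        apply hred.2
        · rw [List.getLast?_map, Option.mem_def, Option.map_eq_some_iff]
          exact ⟨a, ha, rfl⟩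
        · rw [List.head?_map, Option.mem_def, Option.map_eq_some_iff]
          exact ⟨b, hb, rfl⟩
    have hprim' : Prim l' := by
      apply Prim.of_map (fun a => ((a.1, (un a.2.1, a.2.2)) : Ent H ℕ))
      rw [hmap]
      exact hprim
    -- more types
    have hlt : ntyp l < ntyp l' := by
      have e1 : ntyp l = ((zl ρ l ξ).toFinset.image Prod.fst).card := by
        rw [ntyp, ← zl_types ρ l ξ]
        congr 1
        ext x
        simp
      have e2 : ntyp l' = ((zl ρ l ξ).toFinset.image lab).card := by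
        rw [ntyp, rl_types ρ lab l ξ]
        congr 1
        ext x
        simp
      have e3 : ((zl ρ l ξ).toFinset.image lab).card = (zl ρ l ξ).toFinset.card := by
        apply Finset.card_image_of_injOn
        intro x hx y hy hxy
        exact hlab x (by simpa using hx) y (by simpa using hy) hxy
      rw [e1, e2, e3]
      refine lt_of_le_of_ne Finset.card_image_le ?_
      intro h4
      have h5 := Finset.card_image_iff.mp h4
      apply h3
      have h6 := h5 (by simpa using hp) (by simpa using hp') h2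
      rw [h6]
    have hlen : l'.length = l.length := rl_length _ _ _ _
    have hle := ntyp_le l'
    obtain ⟨Ω', _, ρ', ξ', g1, g2⟩ := ih (l'.length - ntyp l') (by omega) l' rfl hred' hprim'
    refine ⟨Ω ×ₗ Ω', inferInstance, rho2 ρ ρ' lab, toLex (ξ, ξ'), ?_, ?_⟩
    · rw [rho2_pr, h1]
      have : ρ' (pr (rl ρ lab l ξ)) ξ' = ξ' := g1
      rw [this]
    · apply List.Nodup.of_map (fun p => (lab (p.1, (ofLex p.2).1), (ofLex p.2).2))
      rw [rho2_zl]
      exact g2

end bundle

end Run7.h847
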