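import Mathlib
import Pool.Agent.Run7.h847.Init
import Pool.Agent.Run7.h847.Sep2

set_option autoImplicit false
set_option linter.unusedSectionVars false
set_option linter.unusedSimpArgs false

/-!
# From closed loops to the orientation test
-/

namespace Run7.h847

open Monoid

section

variable {H : Type} [Group H] {n : ℕ} [NeZero n]

/-- the word as a list -/
def wl (e : ZMod n → Bool) (h : ZMod n → H) : List (Ent H ℕ) :=
  (List.range n).map fun k : ℕ => (h ((k : ZMod n) - 1), ((0 : ℕ), e (k : ZMod n)))

variable (e : ZMod n → Bool) (h : ZMod n → H)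

theorem wl_length : (wl e h).length = n := by simp [wl]

theorem wl_get (k : ℕ) (hk : k < (wl e h).length) :
    (wl e h)[k] = (h ((k : ZMod n) - 1), ((0 : ℕ), e (k : ZMod n))) := by
  simp [wl]

theorem npos : 0 < n := Nat.pos_of_ne_zero (NeZero.ne n)

theorem wl_CC (hred : ∀ i, ¬ (h i = 1 ∧ e (i + 1) = !e i)) : CC RedRel (wl e h) := by
  have hn : 0 < n := npos
  refine ⟨?_, ?_⟩
  · rw [List.isChain_iff_getElem]
    intro k hk
    rw [wl_get, wl_get]
    rintro ⟨h1, h2⟩
    apply hred (k : ZMod n)
    simp only [fl, Prod.mk.injEq, true_and] at h1 h2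
    push_cast at h1 h2
    rw [add_sub_cancel_right] at h1
    exact ⟨h1, h2⟩
  · intro a ha b hb
    have hlen := wl_length e h
    rw [List.getLast?_eq_getElem?, Option.mem_def, List.getElem?_eq_some_iff] at ha
    rw [List.head?_eq_getElem?, Option.mem_def, List.getElem?_eq_some_iff] at hb
    obtain ⟨ha1, ha2⟩ := ha
    obtain ⟨hb1, hb2⟩ := hb
    rw [wl_get] at ha2 hb2
    have e1 : (((wl e h).length - 1 : ℕ) : ZMod n) = -1 := by
      rw [hlen, Nat.cast_sub hn]
      simp
    rw [e1] at ha2
    subst ha2 hb2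
    rintro ⟨h1, h2⟩
    apply hred (-1)
    simp only [fl, Prod.mk.injEq, true_and] at h1 h2
    push_cast at h1 h2
    rw [zero_sub] at h1
    refine ⟨h1, ?_⟩
    rw [neg_add_cancel]
    exact h2

theorem wl_Prim (hprim : ∀ d : ZMod n, d ≠ 0 → ¬ ∀ i, h (i + d) = h i ∧ e (i + d) = e i) :
    Prim (wl e h) := by
  intro k hk1 hk2 hk3
  rw [wl_length] at hk2
  have hd : (k : ZMod n) ≠ 0 := by
    intro h0
    rw [ZMod.natCast_eq_zero_iff] at h0
    exact absurd (Nat.le_of_dvd hk1 h0) (by omega)
  apply hprim (k : ZMod n) hd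
  have key : ∀ j, j < n → h ((j : ZMod n) + k - 1) = h ((j : ZMod n) - 1) ∧
      e ((j : ZMod n) + k) = e (j : ZMod n) := by
    intro j hj
    have h1 : ((wl e h).rotate k)[j]? = (wl e h)[j]? := by rw [hk3]
    rw [List.getElem?_rotate (by rw [wl_length]; exact hj)] at h1
    rw [List.getElem?_eq_getElem (by rw [wl_length]; exact Nat.mod_lt _ npos),
      List.getElem?_eq_getElem (by rw [wl_length]; exact hj), wl_get, wl_get] at h1
    rw [wl_length] at h1
    simp only [Option.some.injEq, Prod.mk.injEq, true_and, ZMod.natCast_mod] at h1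
    push_cast at h1
    exact h1
  intro i
  have hi := ZMod.val_lt i
  have h1 := key i.val hi
  rw [ZMod.natCast_val, ZMod.cast_id] at h1
  refine ⟨?_, h1.2⟩
  have h2 := key (i + 1).val (ZMod.val_lt _)
  rw [ZMod.natCast_val, ZMod.cast_id] at h2
  have h3 := h2.1
  have e1 : i + 1 + k - 1 = i + k := by ring
  have e2 : i + 1 - 1 = i := by ring
  rw [e1, e2] at h3
  exact h3

theorem zl_get {Ω : Type} [LinearOrder Ω] (ρ : FF H ℕ →* (Ω ≃o Ω)) (l : List (Ent H ℕ)) (ξ : Ω) :
    ∀ k (hk : k < l.length), (zl ρ l ξ)[k]? =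
      some ((l[k]).2.1, zpt ρ (l[k]).2 (ρ (pr (l.drop (k + 1))) ξ)) := by
  induction l with
  | nil => intro k hk; exact absurd hk (by simp)
  | cons a l ih =>
    intro k hk
    cases k with
    | zero => simp [zl]
    | succ k =>
      simp only [zl, List.getElem?_cons_succ, List.getElem_cons_succ, List.drop_succ_cons]
      exact ih k (by simpa using hk)

/-- the points -/
noncomputable def uu {Ω : Type} [LinearOrder Ω] (ρ : FF H ℕ →* (Ω ≃o Ω)) (ξ : Ω) (i : ZMod n) :
    Ω := ρ (pr ((wl e h).drop i.val)) ξ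

theorem uu_next {Ω : Type} [LinearOrder Ω] (ρ : FF H ℕ →* (Ω ≃o Ω)) (ξ : Ω)
    (hξ : ρ (pr (wl e h)) ξ = ξ) (i : ZMod n) :
    ρ (pr ((wl e h).drop (i.val + 1))) ξ = uu e h ρ ξ (i + 1) := by
  have hi := ZMod.val_lt i
  have hcast : ((i.val + 1 : ℕ) : ZMod n) = i + 1 := by
    push_cast; rw [ZMod.natCast_val, ZMod.cast_id]
  rcases Nat.lt_or_eq_of_le (Nat.succ_le_of_lt hi) with h1 | h1
  · have h2 : (i + 1).val = i.val + 1 := by
      rw [← hcast, ZMod.val_natCast, Nat.mod_eq_of_lt h1]
    rw [uu, h2]
  · have h2 : i + 1 = 0 := by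
      rw [← hcast]
      have : i.val + 1 = n := h1
      rw [this]; simp
    have h3 : (wl e h).drop (i.val + 1) = [] := by
      apply List.drop_eq_nil_of_le
      rw [wl_length]
      exact le_of_eq h1.symm
    rw [h3, h2, uu, ZMod.val_zero, List.drop_zero, hξ]
    simp

theorem uu_rec {Ω : Type} [LinearOrder Ω] (ρ : FF H ℕ →* (Ω ≃o Ω)) (ξ : Ω)
    (hξ : ρ (pr (wl e h)) ξ = ξ) (i : ZMod n) :
    uu e h ρ ξ i = ρ (hh (h (i - 1))) (ρ (tt (0, e i)) (uu e h ρ ξ (i + 1))) := by
  have hi := ZMod.val_lt i
  have hi' : i.val < (wl e h).length := by rw [wl_length]; exact hi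
  rw [uu, List.drop_eq_getElem_cons hi', pr_cons, map_mul, map_mul, RelIso.mul_apply,
    RelIso.mul_apply, uu_next e h ρ ξ hξ, wl_get]
  simp only [ZMod.natCast_val, ZMod.cast_id', id_eq]

/-- the acyclic labelling -/
theorem exists_label (hH : OA H) (hred : ∀ i, ¬ (h i = 1 ∧ e (i + 1) = !e i))
    (hprim : ∀ d : ZMod n, d ≠ 0 → ¬ ∀ i, h (i + d) = h i ∧ e (i + d) = e i) :
    ∃ (Ω : Type) (_ : LinearOrder Ω) (z : ZMod n → Ω), Function.Injective z ∧
      ∀ (c : ZMod n × Bool) (L : List (ZMod n × Bool)), ((c :: L).map (ltr h)).prod = 1 →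
      ¬ List.IsChain (fun c c' => (c.2 == e (ex c)) = !(c'.2 == e (en c')) ∧
        z (ex c) < z (en c')) (c :: (L ++ [c])) := by
  obtain ⟨Ω, instΩ, ρ, ξ, hξ, hnd⟩ := HasN_all hH _ (wl e h) rfl (wl_CC e h hred)
    (wl_Prim e h hprim)
  let v : ZMod n → Ω := fun i => uu e h ρ ξ (i + 1)
  let ω : ZMod n → Ω := fun i => ρ (tt (0, e i)) (v i)
  let z : ZMod n → Ω := fun i => zpt ρ (0, e i) (v i)
  have hvω : ∀ i, ρ (hh (h i)) (ω (i + 1)) = v i := by
    intro i
    have := uu_rec e h ρ ξ hξ (i + 1)
    rw [add_sub_cancel_right] at this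
    exact this.symm
  refine ⟨Ω, instΩ, z, ?_, ?_⟩
  · intro i j hij
    have hget : ∀ i : ZMod n, (zl ρ (wl e h) ξ)[i.val]? = some ((0 : ℕ), z i) := by
      intro i
      have hi' : i.val < (wl e h).length := by rw [wl_length]; exact ZMod.val_lt i
      rw [zl_get ρ (wl e h) ξ i.val hi', uu_next e h ρ ξ hξ, wl_get]
      simp only [ZMod.natCast_val, ZMod.cast_id', id_eq]
      rfl
    have h1 : (zl ρ (wl e h) ξ)[i.val]? = (zl ρ (wl e h) ξ)[j.val]? := by
      rw [hget, hget, hij]
    have hi' : i.val < (zl ρ (wl e h) ξ).length := by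
      rw [zl_length, wl_length]; exact ZMod.val_lt i
    have hj' : j.val < (zl ρ (wl e h) ξ).length := by
      rw [zl_length, wl_length]; exact ZMod.val_lt j
    rw [List.getElem?_eq_getElem hi', List.getElem?_eq_getElem hj', Option.some.injEq] at h1
    have h2 := (List.Nodup.getElem_inj_iff hnd).mp h1
    exact ZMod.val_injective n h2
  · -- acyclicity
    let out : ZMod n × Bool → Ω := fun c => if c.2 then ω (ex c) else v (ex c)
    let inn : ZMod n × Bool → Ω := fun c => if c.2 then v (en c) else ω (en c)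
    have hcorner : ∀ c, ρ (hh (ltr h c)) (out c) = inn c := by
      rintro ⟨i, s⟩
      cases s
      · simp only [out, inn, ltr, en, ex, Bool.false_eq_true, if_false]
        rw [hh, map_inv, map_inv, ← hvω i]
        exact (ρ (hh (h i))).symm_apply_apply _
      · simp only [out, inn, ltr, en, ex, if_true]
        exact hvω i
    -- the other point
    let y : ZMod n → Ω := fun i => if e i then v i else ω i
    have hzy : ∀ i, z i = ρ (tt (0, true)) (y i) := by
      intro i
      cases hei : e i
      · simp only [z, y, zpt, hei, Bool.false_eq_true, if_false, ω]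
        have h1 : (tt ((0 : ℕ), false) : FF H ℕ) = (tt (0, true))⁻¹ := by rw [← tt_fl]; rfl
        rw [h1, map_inv]
        exact ((ρ (tt (0, true))).apply_symm_apply _).symm
      · simp only [z, y, zpt, hei, if_true]
    have hstep : ∀ c c' : ZMod n × Bool, ((c.2 == e (ex c)) = !(c'.2 == e (en c')) ∧
        z (ex c) < z (en c')) → out c < inn c' := by
      intro c c' hcc
      obtain ⟨h1, h2⟩ := hcc
      have h3 : y (ex c) < y (en c') := by
        rw [hzy, hzy] at h2
        exact (ρ (tt (0, true))).lt_iff_lt.mp h2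
      simp only [out, inn]
      simp only [z, y, zpt] at h2 h3
      generalize ex c = p at *
      generalize en c' = q at *
      have hω : ∀ i, ω i = ρ (tt (0, e i)) (v i) := fun i => rfl
      cases hc : c.2 <;> cases hc' : c'.2 <;> cases hp : e p <;> cases hq : e q <;>
        simp only [hc, hc', hp, hq, hω] at h1 h2 h3 ⊢ <;>
        first
          | exact absurd h1 (by decide)
          | simpa using h2
          | simpa using h3
    intro c L hprod hchain
    have hchain2 : List.IsChain (fun c c' => out c < inn c') (c :: (L ++ [c])) :=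
      hchain.imp (fun a b hab => hstep a b hab)
    have key : ∀ (L : List (ZMod n × Bool)) (c d : ZMod n × Bool),
        List.IsChain (fun c c' => out c < inn c') (c :: L) → d ∈ (c :: L).getLast? →
        inn c ≤ ρ (hh (((c :: L).map (ltr h)).prod)) (out d) := by
      intro L
      induction L with
      | nil =>
        intro c d _ hd
        simp only [List.getLast?_singleton, Option.mem_def, Option.some.injEq] at hd
        subst hd
        simp only [List.map_cons, List.map_nil, List.prod_cons, List.prod_nil, mul_one]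
        rw [hcorner]
      | cons c' L ih =>
        intro c d hch hd
        rw [List.isChain_cons_cons] at hch
        rw [List.getLast?_cons_cons] at hd
        have h1 := ih c' d hch.2 hd
        rw [List.map_cons, List.prod_cons, hh, map_mul, map_mul, RelIso.mul_apply]
        have h2 : inn c ≤ ρ (hh (ltr h c)) (inn c') := by
          rw [← hcorner c]
          exact (ρ (hh (ltr h c))).le_iff_le.mpr hch.1.le
        exact h2.trans ((ρ (hh (ltr h c))).le_iff_le.mpr h1)
    rw [← List.cons_append, List.isChain_append] at hchain2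
    obtain ⟨d, hd⟩ : ∃ d, (c :: L).getLast? = some d :=
      ⟨(c :: L).getLast (by simp), List.getLast?_eq_getLast_of_ne_nil (by simp)⟩
    have h1 := key L c d hchain2.1 hd
    rw [hprod] at h1
    simp only [hh, map_one] at h1
    have h2 := hchain2.2.2 d hd c (by simp)
    exact absurd h2 (not_lt.mpr h1)

end

/-- **Theorem C.** For a left orderable group `H` and a cyclically reduced word in `H * ⟨t⟩`
that is not a proper power, `H` embeds in the quotient by any power. -/
theorem thmC {H : Type} [Group H] (hLO : ∃ _ : LinearOrder H, ∀ c a b : H, a < b → c * a < c * b)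
    {n : ℕ} [NeZero n] (hn : 2 ≤ n) (e : ZMod n → Bool) (h : ZMod n → H)
    (hred : ∀ i, ¬ (h i = 1 ∧ e (i + 1) = !e i))
    (hprim : ∀ d : ZMod n, d ≠ 0 → ¬ ∀ i, h (i + d) = h i ∧ e (i + d) = e i)
    (m : ℕ) (hm : 1 ≤ m) (a : H)
    (ha : (hh a : FF H Unit) ∈ Subgroup.normalClosure
      ({((List.range (m * n)).map fun j : ℕ =>
        (tB (e (j : ZMod n)) * hh (h (j : ZMod n)) : FF H Unit)).prod} : Set (FF H Unit))) :
    a = 1 := by
  obtain ⟨_, hLO⟩ := hLO
  -- a countable subgroup
  let H0 : Subgroup H := (FreeGroup.lift h).range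
  have hcnt : Countable (FreeGroup (ZMod n)) := by
    have : Function.Surjective (FreeGroup.mk : List (ZMod n × Bool) → FreeGroup (ZMod n)) := by
      intro x
      exact ⟨x.toWord, FreeGroup.mk_toWord⟩
    exact this.countable
  have hcnt0 : Countable H0 := (FreeGroup.lift h).rangeRestrict_surjective.countable
  let h0 : ZMod n → H0 := fun i => ⟨h i, ⟨FreeGroup.of i, by simp⟩⟩
  have hOA : OA H0 := OA_of_LO (G := H0) (by
    intro c a b hab
    exact hLO c a b hab)
  obtain ⟨Ω, _, z, hz, hac⟩ := exists_label (n := n) e h0 hOA (by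
      rintro i ⟨h1, h2⟩
      exact hred i ⟨congrArg Subtype.val h1, h2⟩) (by
      intro d hd hcon
      apply hprim d hd
      intro i
      exact ⟨congrArg Subtype.val (hcon i).1, (hcon i).2⟩)
  have hltr : ∀ L : List (ZMod n × Bool),
      ((((L.map (ltr h0)).prod : H0)) : H) = (L.map (ltr h)).prod := by
    intro L
    induction L with
    | nil => simp
    | cons c L ih =>
      rw [List.map_cons, List.prod_cons, List.map_cons, List.prod_cons, ← ih]
      rcases c with ⟨i, s⟩
      cases s <;> simp [ltr, h0]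
  let D : Dat H Ω :=
    { n := n
      hn := hn
      e := e
      h := h
      z := z
      zinj := hz
      m := m
      hm := hm
      acyc := by
        intro c L hprod
        apply hac c L
        apply Subtype.ext
        rw [hltr, hprod]
        rfl }
  have hR : D.R = ((List.range (m * n)).map fun j : ℕ =>
        (tB (e (j : ZMod n)) * hh (h (j : ZMod n)) : FF H Unit)).prod := by
    simp only [Dat.R, Dat.Bz, Dat.blk]
    congr 1
    apply List.map_congr_left
    intro j _
    simp only [zero_add]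
    rfl
  rw [← hR] at ha
  exact D.thmA a ha

end Run7.h847
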