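import Mathlib
import Pool.Agent.Run7.h847.Acyc

set_option autoImplicit false
set_option linter.unusedSectionVars false
set_option linter.unusedSimpArgs false

/-!
# The Freiheitssatz for one-relator products of left orderable groups
-/

namespace Run7.h847

open Monoid

section

variable {A B : Type} [Group A] [Group B]

/-- product of pairs of letters -/
def pp (l : List (A × B)) : Coprod A B := (l.map fun p => Coprod.inr p.2 * Coprod.inl p.1).prod

theorem pp_append (l l' : List (A × B)) : pp (l ++ l') = pp l * pp l' := by simp [pp]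

theorem exists_pp (r : Coprod A B) : ∃ l : List (A × B), r = pp l := by
  induction r using Coprod.induction_on with
  | inl a => exact ⟨[(a, 1)], by simp [pp]⟩
  | inr b => exact ⟨[(1, b)], by simp [pp]⟩
  | mul x y hx hy =>
    obtain ⟨l, rfl⟩ := hx
    obtain ⟨l', rfl⟩ := hy
    exact ⟨l ++ l', by rw [pp_append]⟩

/-- conjugates -/
def ConjTo (r s : Coprod A B) : Prop := ∃ g, r = g * s * g⁻¹

theorem ConjTo.trans {r s t : Coprod A B} (h : ConjTo r s) (h' : ConjTo s t) : ConjTo r t := by
  obtain ⟨g, rfl⟩ := h
  obtain ⟨g', rfl⟩ := h'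
  exact ⟨g * g', by group⟩

theorem ConjTo_rot (l l' : List (A × B)) : ConjTo (pp (l ++ l')) (pp (l' ++ l)) :=
  ⟨pp l, by rw [pp_append, pp_append]; group⟩

/-- a shortest cyclic expression -/
theorem exists_cyc (r : Coprod A B) (hA : ∀ g : Coprod A B, ∀ a : A, r ≠ g * Coprod.inl a * g⁻¹)
    (hB : ∀ g : Coprod A B, ∀ b : B, r ≠ g * Coprod.inr b * g⁻¹) :
    ∃ l : List (A × B), l ≠ [] ∧ ConjTo r (pp l) ∧ ∀ p ∈ l, p.1 ≠ 1 ∧ p.2 ≠ 1 := by
  classical
  have hex : ∃ k : ℕ, ∃ l : List (A × B), l.length = k ∧ ConjTo r (pp l) := by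
    obtain ⟨l, hl⟩ := exists_pp r
    exact ⟨l.length, l, rfl, 1, by rw [hl]; simp⟩
  obtain ⟨l, hl1, hl2⟩ := Nat.find_spec hex
  have hmin := fun k => Nat.find_min hex (m := k)
  refine ⟨l, ?_, hl2, ?_⟩
  · rintro rfl
    obtain ⟨g, hg⟩ := hl2
    apply hA g 1
    rw [hg]
    simp [pp]
  · intro p hp
    obtain ⟨U, V, rfl⟩ := List.append_of_mem hp
    refine ⟨?_, ?_⟩
    · intro h1
      -- rotate to `p :: V ++ U`
      have h2 : ConjTo r (pp ((p :: V) ++ U)) := hl2.trans (ConjTo_rot _ _)
      rcases List.eq_nil_or_concat (V ++ U) with h3 | ⟨W, q, h3⟩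
      · rw [List.append_eq_nil_iff] at h3
        rw [h3.1, h3.2] at h2
        obtain ⟨g, hg⟩ := h2
        apply hB g p.2
        rw [hg]
        simp [pp, h1]
      · rw [List.concat_eq_append] at h3
        have e3 : (p :: V) ++ U = [p] ++ (W ++ [q]) := by
          rw [← h3]; rfl
        rw [e3] at h2
        -- p followed by ... ; use the last letter q before p
        have h4 : ConjTo r (pp ((W ++ [q]) ++ [p])) := h2.trans (ConjTo_rot _ _)
        have hlen : (U ++ p :: V).length = W.length + 2 := by
          have := congrArg List.length h3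
          simp only [List.length_append, List.length_cons, List.length_nil] at this ⊢
          omega
        -- rotate: p W q, i.e. (1·b_p) (W) : b_p then a_p = 1 then next block starts with b
        rcases W with _ | ⟨w, W⟩
        · -- p q
          have h5 : ConjTo r (pp [(q.1, p.2 * q.2)]) := by
            refine h2.trans ⟨1, ?_⟩
            simp [pp, h1, mul_assoc]
          exact hmin 1 (by omega) ⟨_, rfl, h5⟩
        · have h5 : ConjTo r (pp ((w.1, p.2 * w.2) :: (W ++ [q]))) := by
            refine h2.trans ⟨1, ?_⟩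
            simp [pp, h1, mul_assoc]
          refine hmin (W.length + 2) ?_ ⟨_, by simp, h5⟩
          rw [← hl1, hlen]
          simp
    · intro h1
      have h2 : ConjTo r (pp ((p :: V) ++ U)) := hl2.trans (ConjTo_rot _ _)
      rcases List.eq_nil_or_concat (V ++ U) with h3 | ⟨W, q, h3⟩
      · rw [List.append_eq_nil_iff] at h3
        rw [h3.1, h3.2] at h2
        obtain ⟨g, hg⟩ := h2
        apply hA g p.1
        rw [hg]
        simp [pp, h1]
      · rw [List.concat_eq_append] at h3
        have e3 : (p :: V) ++ U = [p] ++ (W ++ [q]) := by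
          rw [← h3]; rfl
        rw [e3] at h2
        have h4 : ConjTo r (pp ((W ++ [q]) ++ [p])) := h2.trans (ConjTo_rot _ _)
        have hlen : (U ++ p :: V).length = W.length + 2 := by
          have := congrArg List.length h3
          simp only [List.length_append, List.length_cons, List.length_nil] at this ⊢
          omega
        have h5 : ConjTo r (pp (W ++ [(q.1 * p.1, q.2)])) := by
          refine h4.trans ⟨1, ?_⟩
          simp [pp, h1, mul_assoc]
        exact hmin (W.length + 1) (by omega) ⟨_, by simp, h5⟩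

/-- the embedding into an HNN extension -/
def phi : Coprod A B →* FF (A × B) Unit :=
  Coprod.lift (Coprod.inl.comp (MonoidHom.inl A B))
    { toFun := fun b => tB true * hh ((1, b) : A × B) * (tB true)⁻¹
      map_one' := by
        have : (((1 : A), (1 : B)) : A × B) = 1 := rfl
        rw [this]
        simp [hh]
      map_mul' := by
        intro b b'
        have : (((1 : A), b * b') : A × B) = (1, b) * (1, b') := by simp
        rw [this]
        simp only [hh, map_mul]
        group }

theorem phi_inl (a : A) : phi (Coprod.inl a : Coprod A B) = hh ((a, 1) : A × B) := by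
  simp [phi, hh]

theorem phi_inr (b : B) : phi (Coprod.inr b : Coprod A B) =
    tB true * hh ((1, b) : A × B) * (tB true)⁻¹ := by
  simp [phi]

/-- block value -/
def bv {H : Type} [Group H] (x : Bool × H) : FF H Unit := tB x.1 * hh x.2

/-- the word of blocks -/
def lw (l : List (A × B)) : List (Bool × (A × B)) :=
  l.flatMap fun p => [(true, ((1, p.2) : A × B)), (false, ((p.1, 1) : A × B))]

theorem phi_pp (l : List (A × B)) : phi (pp l) = ((lw l).map bv).prod := by
  induction l with
  | nil => simp [pp, lw]
  | cons p l ih =>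
    have e1 : pp (p :: l) = Coprod.inr p.2 * Coprod.inl p.1 * pp l := by simp [pp]
    have e2 : lw (p :: l) = (true, ((1, p.2) : A × B)) :: (false, ((p.1, 1) : A × B)) :: lw l := by
      simp [lw]
    rw [e1, e2, map_mul, map_mul, ih, phi_inl, phi_inr]
    simp only [List.map_cons, List.prod_cons, bv]
    have : (tB false : FF (A × B) Unit) = (tB true)⁻¹ := tB_not true
    rw [this]
    simp only [mul_assoc]

theorem lw_length (l : List (A × B)) : (lw l).length = 2 * l.length := by
  induction l with
  | nil => simp [lw]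
  | cons p l ih =>
    have e2 : lw (p :: l) = (true, ((1, p.2) : A × B)) :: (false, ((p.1, 1) : A × B)) :: lw l := by
      simp [lw]
    rw [e2]; simp [ih]; ring

theorem lw_get (l : List (A × B)) : ∀ i, i < l.length →
    (lw l)[2 * i]? = (l[i]?).map (fun p => (true, ((1, p.2) : A × B))) ∧
    (lw l)[2 * i + 1]? = (l[i]?).map (fun p => (false, ((p.1, 1) : A × B))) := by
  induction l with
  | nil => intro i hi; exact absurd hi (by simp)
  | cons p l ih =>
    intro i hi
    have e2 : lw (p :: l) = (true, ((1, p.2) : A × B)) :: (false, ((p.1, 1) : A × B)) :: lw l := by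
      simp [lw]
    rw [e2]
    cases i with
    | zero => simp
    | succ i =>
      have h1 := ih i (by simpa using hi)
      have e3 : 2 * (i + 1) = 2 * i + 1 + 1 := by ring
      rw [e3]
      simpa using h1

end

theorem LO_of_inj {H Ω : Type} [Group H] [LinearOrder Ω] (f : H → Ω)
    (hf : Function.Injective f) (hm : ∀ c a b, f a < f b → f (c * a) < f (c * b)) :
    ∃ _ : LinearOrder H, ∀ c a b : H, a < b → c * a < c * b :=
  ⟨LinearOrder.lift' f hf, fun c a b h => hm c a b h⟩

/-- the core: injectivity for the product group -/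
theorem core {A B : Type} [Group A] [Group B] [LinearOrder A] [LinearOrder B]
    (hA : ∀ c a b : A, a < b → c * a < c * b) (hB : ∀ c a b : B, a < b → c * a < c * b)
    (l : List (A × B)) (hl : l ≠ []) (hnt : ∀ p ∈ l, p.1 ≠ 1 ∧ p.2 ≠ 1) (m : ℕ) (hm : 1 ≤ m)
    (x : A × B) (hx : (hh x : FF (A × B) Unit) ∈ Subgroup.normalClosure
      ({(phi (pp l)) ^ m} : Set (FF (A × B) Unit))) : x = 1 := by
  classical
  set n := (lw l).length with hn
  have hk : 0 < l.length := List.length_pos_iff.mpr hl
  have hn2 : n = 2 * l.length := lw_length l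
  have hnpos : 0 < n := by omega
  -- the periodic sequence
  let g : ℕ → Bool × (A × B) := fun j => (lw l)[j % n]'(Nat.mod_lt _ hnpos)
  have hgn : ∀ j, g (j + n) = g j := by
    intro j
    simp only [g, Nat.add_mod_right]
  -- parity facts
  have hg : ∀ j, (j % 2 = 0 → (g j).1 = true ∧ (g j).2 ≠ 1) ∧
      (j % 2 = 1 → (g j).1 = false ∧ (g j).2 ≠ 1) := by
    intro j
    have h1 : (lw l)[j % n]? = some (g j) := List.getElem?_eq_getElem (Nat.mod_lt _ hnpos)
    have h2 : j % n % 2 = j % 2 := by
      rw [hn2]; exact Nat.mod_mul_right_mod j 2 l.length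
    have h3 : j % n < 2 * l.length := by rw [← hn2]; exact Nat.mod_lt _ hnpos
    refine ⟨?_, ?_⟩
    · intro hj
      have h4 : j % n = 2 * (j % n / 2) := by omega
      have h5 : j % n / 2 < l.length := by omega
      have h6 := (lw_get l (j % n / 2) h5).1
      rw [← h4, h1, List.getElem?_eq_getElem h5, Option.map_some, Option.some.injEq] at h6
      rw [h6]
      refine ⟨rfl, ?_⟩
      intro h7
      exact (hnt _ (List.getElem_mem h5)).2 (congrArg Prod.snd h7)
    · intro hj
      have h4 : j % n = 2 * (j % n / 2) + 1 := by omega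
      have h5 : j % n / 2 < l.length := by omega
      have h6 := (lw_get l (j % n / 2) h5).2
      rw [← h4, h1, List.getElem?_eq_getElem h5, Option.map_some, Option.some.injEq] at h6
      rw [h6]
      refine ⟨rfl, ?_⟩
      intro h7
      exact (hnt _ (List.getElem_mem h5)).1 (congrArg Prod.fst h7)
  -- minimal period
  have hex : ∃ d : ℕ, 0 < d ∧ ∀ j, g (j + d) = g j := ⟨n, hnpos, hgn⟩
  obtain ⟨hd1, hd2⟩ := Nat.find_spec hex
  have hmin := fun k => Nat.find_min hex (m := k)
  set d := Nat.find hex with hd
  clear_value d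
  have hmul : ∀ (d : ℕ), (∀ j, g (j + d) = g j) → ∀ q j, g (j + q * d) = g j := by
    intro d hd q
    induction q with
    | zero => intro j; simp
    | succ q ih =>
      intro j
      rw [Nat.succ_mul, ← add_assoc, hd, ih]
  have hdvd : d ∣ n := by
    rw [Nat.dvd_iff_mod_eq_zero]
    by_contra h0
    refine hmin (n % d) (Nat.mod_lt _ hd1) ⟨Nat.pos_of_ne_zero h0, ?_⟩
    intro j
    have h1 : n % d + (n / d) * d = n := by
      have := Nat.mod_add_div n d
      rw [mul_comm]; exact this
    have h2 := hmul d hd2 (n / d) (j + n % d)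
    rw [add_assoc, h1, hgn] at h2
    exact h2.symm
  have hd3 : 2 ≤ d := by
    by_contra h0
    have h1 : d = 1 := by omega
    rw [h1] at hd2
    have h2 := hd2 0
    have h3 := ((hg 0).1 rfl).1
    have h4 := ((hg 1).2 rfl).1
    rw [zero_add] at h2
    rw [h2, h3] at h4
    exact absurd h4 (by decide)
  have : NeZero d := ⟨by omega⟩
  have : Fact (1 < d) := ⟨by omega⟩
  let f : ZMod d → Bool × (A × B) := fun i => g i.val
  have hf : ∀ j : ℕ, f (j : ZMod d) = g j := by
    intro j
    simp only [f, ZMod.val_natCast]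
    have h1 := hmul d hd2 (j / d) (j % d)
    have h2 : j % d + (j / d) * d = j := by
      have := Nat.mod_add_div j d
      rw [mul_comm]; exact this
    rw [h2] at h1
    exact h1.symm
  obtain ⟨q, hq⟩ := hdvd
  have hqpos : 0 < q := by
    rcases Nat.eq_zero_or_pos q with h | h
    · rw [h] at hq; omega
    · exact h
  -- the relator
  have hrel : ((List.range ((m * q) * d)).map fun j : ℕ =>
        (tB (f (j : ZMod d)).1 * hh (f (j : ZMod d)).2 : FF (A × B) Unit)).prod =
      (phi (pp l)) ^ m := by
    have h1 : ∀ m : ℕ, ((List.range (m * n)).map fun j : ℕ => bv (g j)).prod =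
        (((lw l).map bv).prod) ^ m := by
      intro m
      induction m with
      | zero => simp
      | succ m ih =>
        rw [Nat.succ_mul, List.range_add, List.map_append, List.prod_append, ih, pow_succ]
        congr 1
        rw [List.map_map]
        congr 1
        apply List.ext_getElem
        · simp [hn]
        · intro i hi1 hi2
          simp only [List.getElem_map, List.getElem_range, Function.comp_apply]
          congr 1
          have hi : i < n := by simpa using hi1
          have h2 := hmul n hgn m i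
          rw [add_comm] at h2
          rw [h2]
          simp only [g]
          congr 1
          exact Nat.mod_eq_of_lt hi
    rw [phi_pp, ← h1]
    have e1 : (m * q) * d = m * n := by rw [hq]; ring
    rw [e1]
    congr 1
    apply List.map_congr_left
    intro j _
    rw [hf]
    rfl
  rw [← hrel] at hx
  have hLO := LO_of_inj (H := A × B) (Ω := A ×ₗ B) toLex toLex.injective (by
    intro c a b h1
    rw [Prod.Lex.lt_iff] at h1 ⊢
    rcases h1 with h1 | ⟨h1, h2⟩
    · exact Or.inl (hA _ _ _ h1)
    · exact Or.inr ⟨congrArg (fun t => c.1 * t) h1, hB _ _ _ h2⟩)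
  refine thmC hLO hd3 (fun i => (f i).1) (fun i => (f i).2) ?_ ?_ (m * q)
    (Nat.mul_pos hm hqpos) x hx
  · rintro i ⟨h1, _⟩
    rcases Nat.mod_two_eq_zero_or_one i.val with h2 | h2
    · exact ((hg i.val).1 h2).2 h1
    · exact ((hg i.val).2 h2).2 h1
  · intro δ hδ hcon
    have hδ1 : 0 < δ.val := by
      rw [Nat.pos_iff_ne_zero, Ne, ZMod.val_eq_zero]; exact hδ
    refine hmin δ.val (ZMod.val_lt δ) ⟨hδ1, ?_⟩
    intro j
    have h1 := hcon (j : ZMod d)
    have h2 : ((j + δ.val : ℕ) : ZMod d) = (j : ZMod d) + δ := by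
      push_cast; rw [ZMod.natCast_val, ZMod.cast_id]
    rw [← hf, ← hf, h2]
    exact Prod.ext h1.2 h1.1

/-- **Freiheitssatz for left orderable groups.** -/
theorem freiheitssatz {A B : Type} [Group A] [Group B] [LinearOrder A] [LinearOrder B]
    (hA : ∀ c a b : A, a < b → c * a < c * b) (hB : ∀ c a b : B, a < b → c * a < c * b)
    (r : Coprod A B) (h1 : ∀ g : Coprod A B, ∀ a : A, r ≠ g * Coprod.inl a * g⁻¹)
    (h2 : ∀ g : Coprod A B, ∀ b : B, r ≠ g * Coprod.inr b * g⁻¹) (m : ℕ) (hm : 1 ≤ m) :
    Function.Injective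
        ((QuotientGroup.mk' (Subgroup.normalClosure ({r ^ m} : Set (Coprod A B)))).comp
          (Coprod.inl : A →* Coprod A B)) ∧
      Function.Injective
        ((QuotientGroup.mk' (Subgroup.normalClosure ({r ^ m} : Set (Coprod A B)))).comp
          (Coprod.inr : B →* Coprod A B)) := by
  obtain ⟨l, hl1, ⟨c, hc⟩, hl3⟩ := exists_cyc r h1 h2
  have hmap : ∀ y : Coprod A B, y ∈ Subgroup.normalClosure ({r ^ m} : Set (Coprod A B)) →
      phi y ∈ Subgroup.normalClosure ({(phi (pp l)) ^ m} : Set (FF (A × B) Unit)) := by
    have hle : Subgroup.normalClosure ({r ^ m} : Set (Coprod A B)) ≤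
        (Subgroup.normalClosure ({(phi (pp l)) ^ m} : Set (FF (A × B) Unit))).comap phi := by
      apply Subgroup.normalClosure_le_normal
      intro y hy
      rw [Set.mem_singleton_iff] at hy
      subst hy
      rw [SetLike.mem_coe, Subgroup.mem_comap, hc, conj_pow, map_mul, map_mul, map_inv, map_pow]
      exact Subgroup.normalClosure_normal.conj_mem _
        (Subgroup.subset_normalClosure (Set.mem_singleton _)) _
    intro y hy
    exact hle hy
  refine ⟨?_, ?_⟩
  · rw [injective_iff_map_eq_one]
    intro a ha
    have h3 : (Coprod.inl a : Coprod A B) ∈ Subgroup.normalClosure ({r ^ m} : Set _) := by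
      rw [MonoidHom.comp_apply, QuotientGroup.mk'_apply, QuotientGroup.eq_one_iff] at ha
      exact ha
    have h4 := hmap _ h3
    rw [phi_inl] at h4
    have h5 := core hA hB l hl1 hl3 m hm _ h4
    exact congrArg Prod.fst h5
  · rw [injective_iff_map_eq_one]
    intro b hb
    have h3 : (Coprod.inr b : Coprod A B) ∈ Subgroup.normalClosure ({r ^ m} : Set _) := by
      rw [MonoidHom.comp_apply, QuotientGroup.mk'_apply, QuotientGroup.eq_one_iff] at hb
      exact hb
    have h4 := hmap _ h3
    rw [phi_inr] at h4
    have h6 := Subgroup.normalClosure_normal.conj_mem _ h4 (tB true)⁻¹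
    have e : (tB true)⁻¹ * (tB true * hh ((1, b) : A × B) * (tB true)⁻¹) * ((tB true)⁻¹)⁻¹ =
        hh ((1, b) : A × B) := by group
    rw [e] at h6
    have h5 := core hA hB l hl1 hl3 m hm _ h6
    exact congrArg Prod.snd h5

end Run7.h847
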