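import Pool.Agent.Run7.h847.EUa
import Pool.Agent.Run7.h418.E.Ug

/-!
Pieces A2 and A4 of the project of helper418 (helper847).
-/

set_option autoImplicit false

namespace Run7.h847.EU

theorem a2 : Run7.h418.E.A2 := fun M Ω _ _ _ _ _ _ _ A J hJ => a2' M Ω A J hJ

theorem a4 : Run7.h418.E.A4 := fun M Ω ω _ _ _ _ _ _ _ A a d t hb => a4' M Ω ω A a d t hb

end Run7.h847.EU
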