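import Mathlib

/-!
Pieces A2 and A4 of the project of helper418 (helper847).
-/

set_option autoImplicit false

open Set TensorProduct

namespace Run7.h847.EU

/-- Derivations extend to algebraic extensions. -/
theorem der_etale {k B L : Type*} [Field k] [CommRing B] [CommRing L] [Algebra k B] [Algebra k L]
    [Algebra B L] [IsScalarTower k B L] [Algebra.FormallyEtale B L] (E : Derivation k B B) :
    ∃ E' : Derivation k L L, ∀ b, E' (algebraMap B L b) = algebraMap B L (E b) := by
  let l0 : Ω[B⁄k] →ₗ[B] L := (Algebra.linearMap B L) ∘ₗ E.liftKaehlerDifferential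
  let l : L ⊗[B] Ω[B⁄k] →ₗ[L] L := LinearMap.liftBaseChange L l0
  let e := KaehlerDifferential.tensorKaehlerEquivOfFormallyEtale k B L
  refine ⟨(l ∘ₗ e.symm.toLinearMap).compDer (KaehlerDifferential.D k L), fun c => ?_⟩
  change l (e.symm (KaehlerDifferential.D k L (algebraMap B L c))) = _
  rw [KaehlerDifferential.tensorKaehlerEquivOfFormallyEtale_symm_D_algebraMap,
    LinearMap.liftBaseChange_tmul, one_smul]
  change algebraMap B L (E.liftKaehlerDifferential (KaehlerDifferential.D k B c)) = _
  rw [Derivation.liftKaehlerDifferential_comp_D]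

theorem a2' (M Ω : Type) [Field M] [Algebra ℂ M] [Field Ω] [Algebra ℂ Ω] [Algebra M Ω]
    [IsScalarTower ℂ M Ω] [Algebra.IsAlgebraic M Ω] (A : Set M) (J : Derivation ℂ M M)
    (hJ : ∀ x ∈ A, J x = 0) :
    ∃ J' : Derivation (IntermediateField.adjoin ℂ (algebraMap M Ω '' A)) Ω Ω,
      ∀ x, J' (algebraMap M Ω x) = algebraMap M Ω (J x) := by
  haveI : CharZero M := charZero_of_injective_algebraMap (algebraMap ℂ M).injective
  haveI : Algebra.FormallyEtale M Ω := Algebra.FormallyEtale.of_isSeparable M Ω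
  obtain ⟨E, hE⟩ := der_etale (L := Ω) J
  have hkill : ∀ x ∈ IntermediateField.adjoin ℂ (algebraMap M Ω '' A), E x = 0 := by
    intro x hx
    induction hx using IntermediateField.adjoin_induction with
    | mem x hx =>
      obtain ⟨a, ha, rfl⟩ := hx
      rw [hE, hJ a ha, map_zero]
    | algebraMap x => exact E.map_algebraMap x
    | add x y _ _ hx hy => rw [map_add, hx, hy, add_zero]
    | inv x _ hx => rw [Derivation.leibniz_inv, hx, smul_zero]
    | mul x y _ _ hx hy => rw [Derivation.leibniz, hx, hy, smul_zero, smul_zero, add_zero]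
  refine ⟨{ toFun := E, map_add' := map_add E, map_smul' := ?_, map_one_eq_zero' := ?_,
            leibniz' := ?_ }, hE⟩
  · intro c x
    show E (c • x) = c • E x
    have h1 : c • x = (c : Ω) * x := rfl
    have h2 : c • E x = (c : Ω) * E x := rfl
    rw [h1, h2, Derivation.leibniz, hkill c c.2, smul_zero, add_zero, smul_eq_mul]
  · exact E.map_one_eq_zero
  · exact fun a b => E.leibniz a b

theorem a4' (M Ω ω : Type) [Finite ω] [Field M] [Algebra ℂ M] [Field Ω] [Algebra ℂ Ω]
    [Algebra M Ω] [IsScalarTower ℂ M Ω] (A : Set M) (a : ω → M) (d : ℕ) (t : Fin d → ω)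
    (hb : IsTranscendenceBasis (IntermediateField.adjoin ℂ A) (fun b => a (t b))) :
    Algebra.trdeg (IntermediateField.adjoin ℂ (algebraMap M Ω '' A))
      (IntermediateField.adjoin (IntermediateField.adjoin ℂ (algebraMap M Ω '' A))
        (Set.range fun l => algebraMap M Ω (a l))) = d := by
  set F0 := IntermediateField.adjoin ℂ A with hF0
  set F1 := IntermediateField.adjoin ℂ (algebraMap M Ω '' A) with hF1
  set L := IntermediateField.adjoin F1 (Set.range fun l => algebraMap M Ω (a l)) with hL
  have hmap : F1 = F0.map (IsScalarTower.toAlgHom ℂ M Ω) := by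
    rw [hF0, hF1, IntermediateField.adjoin_map]
    rfl
  have hmem : ∀ c : F0, algebraMap M Ω c ∈ F1 := by
    intro c
    rw [hmap]
    exact ⟨c, c.2, rfl⟩
  let f : F0 →+* F1 := ((algebraMap M Ω).comp (algebraMap F0 M)).codRestrict F1 hmem
  have hf : Function.Surjective f := by
    rintro ⟨y, hy⟩
    have hy' := hy
    rw [hmap] at hy'
    obtain ⟨c, hc, hcy⟩ := hy'
    exact ⟨⟨c, hc⟩, Subtype.ext hcy⟩
  have hfc : ∀ c : F0, ((f c : F1) : Ω) = algebraMap M Ω c := fun c => rfl
  have hcomp : RingHom.comp (algebraMap F1 Ω) f = RingHom.comp (algebraMap M Ω) (algebraMap F0 M) :=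
    RingHom.ext fun c => hfc c
  have hind : AlgebraicIndependent F1 (algebraMap M Ω ∘ fun b => a (t b)) :=
    hb.1.ringHom_of_comp_eq f (algebraMap M Ω) hf (algebraMap M Ω).injective hcomp
  have hxmem : ∀ l, algebraMap M Ω (a l) ∈ L := fun l =>
    IntermediateField.subset_adjoin _ _ ⟨l, rfl⟩
  let x : Fin d → L := fun b => ⟨algebraMap M Ω (a (t b)), hxmem (t b)⟩
  have hindx : AlgebraicIndependent F1 x := by
    refine AlgebraicIndependent.of_comp (IsScalarTower.toAlgHom F1 L Ω) ?_
    exact hind
  -- the elements of `L` come from `M`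
  have hLM : ∀ y ∈ L, ∃ m : M, algebraMap M Ω m = y := by
    intro y hy
    induction hy using IntermediateField.adjoin_induction with
    | mem y hy => obtain ⟨l, rfl⟩ := hy; exact ⟨_, rfl⟩
    | algebraMap y =>
      obtain ⟨c, hc⟩ := hf y
      exact ⟨c, by rw [← hfc, hc]; rfl⟩
    | add y z _ _ hy hz =>
      obtain ⟨m, rfl⟩ := hy
      obtain ⟨m', rfl⟩ := hz
      exact ⟨m + m', map_add _ _ _⟩
    | inv y _ hy =>
      obtain ⟨m, rfl⟩ := hy
      exact ⟨m⁻¹, map_inv₀ _ _⟩
    | mul y z _ _ hy hz =>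
      obtain ⟨m, rfl⟩ := hy
      obtain ⟨m', rfl⟩ := hz
      exact ⟨m * m', map_mul _ _ _⟩
  set R0 := Algebra.adjoin F0 (Set.range fun b => a (t b)) with hR0
  set RL := Algebra.adjoin F1 (Set.range x) with hRL
  have hinj : Function.Injective (algebraMap RL Ω) := by
    have h1 : (algebraMap RL Ω) = (algebraMap L Ω).comp (algebraMap RL L) := rfl
    rw [h1]
    exact (algebraMap L Ω).injective.comp Subtype.val_injective
  have hg : ∀ r ∈ R0, ∃ s : RL, algebraMap RL Ω s = algebraMap M Ω r := by
    intro r hr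
    induction hr using Algebra.adjoin_induction with
    | mem r hr =>
      obtain ⟨b, rfl⟩ := hr
      exact ⟨⟨x b, Algebra.subset_adjoin ⟨b, rfl⟩⟩, rfl⟩
    | algebraMap c => exact ⟨algebraMap F1 RL (f c), rfl⟩
    | add r r' _ _ hr hr' =>
      obtain ⟨s, hs⟩ := hr
      obtain ⟨s', hs'⟩ := hr'
      exact ⟨s + s', by rw [map_add, map_add, hs, hs']⟩
    | mul r r' _ _ hr hr' =>
      obtain ⟨s, hs⟩ := hr
      obtain ⟨s', hs'⟩ := hr'
      exact ⟨s * s', by rw [map_mul, map_mul, hs, hs']⟩
  choose F hF using fun r : R0 => hg r r.2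
  let g : R0 →+* RL :=
    { toFun := F
      map_one' := hinj (by rw [hF, map_one]; exact map_one _)
      map_zero' := hinj (by rw [hF, map_zero]; exact map_zero _)
      map_mul' := fun r s => hinj (by rw [hF, map_mul, hF, hF]; exact map_mul _ _ _)
      map_add' := fun r s => hinj (by rw [hF, map_add, hF, hF]; exact map_add _ _ _) }
  have hginj : Function.Injective g := by
    intro r s hrs
    have h1 : algebraMap M Ω r = algebraMap M Ω s := by
      rw [← hF r, ← hF s]
      exact congrArg _ hrs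
    exact Subtype.ext ((algebraMap M Ω).injective h1)
  have halg : Algebra.IsAlgebraic RL L := by
    refine ⟨fun y => ?_⟩
    obtain ⟨m, hm⟩ := hLM y y.2
    have h1 : IsAlgebraic R0 m := hb.isAlgebraic.isAlgebraic m
    have h2 : IsAlgebraic RL (algebraMap M Ω m) :=
      h1.ringHom_of_comp_eq g (algebraMap M Ω) hginj (RingHom.ext fun r => hF r)
    rw [hm] at h2
    exact (isAlgebraic_algebraMap_iff (A := Ω) (algebraMap L Ω).injective).1 h2
  have hbas : IsTranscendenceBasis F1 x :=
    isTranscendenceBasis_iff_algebraicIndependent_isAlgebraic.2 ⟨hindx, halg⟩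
  have h3 := hbas.cardinalMk_eq_trdeg
  rw [← h3, Cardinal.mk_fin]

end Run7.h847.EU
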